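import Pool.Agent.Helper34.Dg.Defs

set_option autoImplicit false

namespace Pool.Agent.Helper34.Wc

open MeasureTheory Filter Topology Dg
open scoped ComplexConjugate ENNReal

/-- The unit polydisc of `ℂ^d`. -/
def PD (d : ℕ) : Set (Fin d → ℂ) := {z | ∀ i, ‖z i‖ < 1}

/-- The point `r ζ` for `ζ` on the torus. -/
noncomputable def tor {d : ℕ} (r : ℝ) (ζ : Fin d → T) : Fin d → ℂ := fun i => (r : ℂ) * pt (ζ i)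

/-- Normalised Haar measure on the torus `𝕋^d`. -/
noncomputable abbrev mud (d : ℕ) : Measure (Fin d → T) := Measure.pi fun _ => mu

/-- The Poisson kernel of the polydisc. -/
noncomputable def PK {d : ℕ} (z : Fin d → ℂ) (ζ : Fin d → T) : ℝ := ∏ i, pker (z i) (ζ i)

/-- The Hardy space `H^p(𝔻^d)`, `0 < p ≤ ∞`. -/
def MemH {d : ℕ} (p : ℝ≥0∞) (f : (Fin d → ℂ) → ℂ) : Prop :=
  DifferentiableOn ℂ f (PD d) ∧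
    (p = ∞ → ∃ M : ℝ, ∀ z ∈ PD d, ‖f z‖ ≤ M) ∧
    (p ≠ ∞ → ∃ C : ℝ, ∀ r ∈ Set.Ioo (0 : ℝ) 1, ∫ ζ, ‖f (tor r ζ)‖ ^ p.toReal ∂(mud d) ≤ C)

/-- Outer functions in `H^p(𝔻^d)`. -/
def IsOuter {d : ℕ} (p : ℝ≥0∞) (f : (Fin d → ℂ) → ℂ) : Prop :=
  MemH p f ∧ ∃ g : (Fin d → T) → ℂ,
    (∀ᵐ ζ ∂(mud d), g ζ ≠ 0 ∧ Tendsto (fun r : ℝ => f (tor r ζ)) (𝓝[<] 1) (𝓝 (g ζ))) ∧
    Integrable (fun ζ => Real.log ‖g ζ‖) (mud d) ∧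
    ∀ z ∈ PD d, ‖f z‖ = Real.exp (∫ ζ, PK z ζ * Real.log ‖g ζ‖ ∂(mud d))

/-- The Hardy space `H^q(𝔻)`, `0 < q ≤ ∞`. -/
def MemH1 (q : ℝ≥0∞) (F : ℂ → ℂ) : Prop :=
  DifferentiableOn ℂ F disc ∧
    (q = ∞ → ∃ M : ℝ, ∀ z ∈ disc, ‖F z‖ ≤ M) ∧
    (q ≠ ∞ → ∃ C : ℝ, ∀ r ∈ Set.Ioo (0 : ℝ) 1, ∫ t, ‖F ((r : ℂ) * pt t)‖ ^ q.toReal ∂mu ≤ C)

/-- Outer functions in `H^q(𝔻)`. -/
def IsOuter1 (q : ℝ≥0∞) (F : ℂ → ℂ) : Prop :=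
  MemH1 q F ∧ ∃ g : T → ℂ,
    (∀ᵐ t ∂mu, g t ≠ 0 ∧ Tendsto (fun r : ℝ => F ((r : ℂ) * pt t)) (𝓝[<] 1) (𝓝 (g t))) ∧
    Integrable (fun t => Real.log ‖g t‖) mu ∧
    ∀ z ∈ disc, ‖F z‖ = Real.exp (∫ t, pker z t * Real.log ‖g t‖ ∂mu)

/-- The `j`-th coordinate of `φ` has an angular derivative at the boundary point `ζ`. -/
def AngDer {d : ℕ} (φ : ℂ → Fin d → ℂ) (j : Fin d) (ζ : T) : Prop :=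
  ∃ C : ℝ, ∃ᶠ r : ℝ in 𝓝[<] 1, 1 - ‖φ ((r : ℂ) * pt ζ) j‖ ≤ C * (1 - r)

/-- Two different coordinates of `φ` have angular derivatives at `ζ`. -/
def Touch {d : ℕ} (φ : ℂ → Fin d → ℂ) (ζ : T) : Prop :=
  ∃ j k, j ≠ k ∧ AngDer φ j ζ ∧ AngDer φ k ζ

/-- In every neighbourhood of the boundary point `ζ`, two different coordinates of `φ` are
simultaneously as close to the unit circle as we wish. -/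
def Bad {d : ℕ} (φ : ℂ → Fin d → ℂ) (ζ : T) : Prop :=
  ∀ ρ < (1 : ℝ), ∀ ε > (0 : ℝ), ∃ z ∈ disc, ‖z - pt ζ‖ < ε ∧
    ∃ j k, j ≠ k ∧ ρ < ‖φ z j‖ ∧ ρ < ‖φ z k‖

end Pool.Agent.Helper34.Wc
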