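import Pool.Agent.Helper34.Wc.Defs
import Pool.Agent.Helper34.Dg.Cover
import Pool.Agent.Helper34.Dg.SingPart

set_option autoImplicit false

open MeasureTheory Filter Topology Complex Metric Set AddCircle
open scoped Interval ComplexConjugate ENNReal

namespace Pool.Agent.Helper34.Wc

open Dg

lemma md {z : ℂ} : z ∈ disc ↔ ‖z‖ < 1 := by simp [disc]

lemma pker_nonneg {z : ℂ} (hz : z ∈ disc) (t : T) : 0 ≤ pker z t := by
  have h := md.1 hz
  have h0 := norm_nonneg z
  apply div_nonneg _ (by positivity)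
  nlinarith

lemma pt_norm (t : T) : ‖pt t‖ = 1 := e_norm 1 t

lemma pt_sub_ge {z : ℂ} (t : T) : 1 - ‖z‖ ≤ ‖pt t - z‖ := by
  have := norm_sub_norm_le (pt t) z
  rwa [pt_norm] at this

lemma pt_sub_le {z : ℂ} (t : T) : ‖pt t - z‖ ≤ 1 + ‖z‖ := by
  have := norm_sub_le (pt t) z
  rwa [pt_norm] at this

lemma pker_le {z : ℂ} (hz : z ∈ disc) (t : T) : pker z t ≤ 2 / (1 - ‖z‖) := by
  have h := md.1 hz
  have h0 := norm_nonneg z
  have h1 := pt_sub_ge (z := z) t
  have h2 : (1 - ‖z‖) ^ 2 ≤ ‖pt t - z‖ ^ 2 := by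
    apply pow_le_pow_left₀ (by linarith) h1
  have h3 : 0 < (1 - ‖z‖) ^ 2 := by
    have : 0 < 1 - ‖z‖ := by linarith
    positivity
  rw [pker, div_le_div_iff₀ (lt_of_lt_of_le h3 h2) (by linarith)]
  nlinarith

lemma pker_le' {z : ℂ} {ρ : ℝ} (hρ : ρ < 1) (hz : ‖z‖ ≤ ρ) (t : T) : pker z t ≤ 2 / (1 - ρ) := by
  have hd : z ∈ disc := md.2 (by linarith)
  refine (pker_le hd t).trans ?_
  apply div_le_div_of_nonneg_left (by norm_num) (by linarith) (by linarith)

lemma pker_pos {z : ℂ} (hz : z ∈ disc) (t : T) : 0 < pker z t := by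
  have h := md.1 hz
  have h0 := norm_nonneg z
  have h1 := pt_sub_ge (z := z) t
  have h2 : 0 < ‖pt t - z‖ := by linarith
  apply div_pos (by nlinarith) (by positivity)

lemma pt_cont : Continuous pt := e_cont 1

lemma int_pker {z : ℂ} (hz : z ∈ disc) : ∫ t, pker z t ∂mu = 1 := by
  have : pker z = pk z := by funext t; exact pker_eq z t
  rw [this]; exact int_pk (md.1 hz)

lemma pker_mul_int {z : ℂ} (hz : z ∈ disc) {w : T → ℝ} (hw : Integrable w mu) :
    Integrable (fun t => pker z t * w t) mu := by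
  refine hw.bdd_mul (c := 2 / (1 - ‖z‖)) (pker_cont hz).aestronglyMeasurable ?_
  refine Eventually.of_forall fun t => ?_
  rw [Real.norm_of_nonneg (pker_nonneg hz t)]
  exact pker_le hz t

lemma re_ck {a : ℂ} (ha : ‖a‖ < 1) (t : T) : (ck a t).re = (1 + pk a t) / 2 := by
  have ha' : ‖conj a‖ < 1 := by simpa using ha
  have h := re_qk ha' t
  rw [Complex.conj_conj] at h
  rw [← h, ← ck_conj, Complex.conj_re]

/-- Poisson integrals are real parts of holomorphic functions. -/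
lemma herg {w : T → ℝ} (hw : Integrable w mu) :
    ∃ H : ℂ → ℂ, DifferentiableOn ℂ H disc ∧ ∀ z ∈ disc, (H z).re = ∫ t, pker z t * w t ∂mu := by
  set f : T → ℂ := fun t => (w t : ℂ) with hf
  have hfi : Integrable f mu := hw.ofReal
  refine ⟨fun z => 2 * ext f z - (∫ t, w t ∂mu : ℝ), ?_, fun z hz => ?_⟩
  · exact ((P643.ext_diff1 f).const_mul 2).sub_const _
  · have hz1 := md.1 hz
    have h1 := int_ck_ext hfi hz1
    have hint : Integrable (fun t => f t * ck z t) mu := by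
      refine hfi.mul_bdd (c := (1 - ‖z‖)⁻¹) (ck_cont hz1).aestronglyMeasurable ?_
      exact Eventually.of_forall fun t => norm_ck_le hz1 t
    have h2 : (ext f z).re = ∫ t, (f t * ck z t).re ∂mu := by
      rw [← h1]; exact (integral_re hint).symm
    have h3 : ∀ t, (f t * ck z t).re = (w t + pker z t * w t) / 2 := by
      intro t
      rw [hf, Complex.re_ofReal_mul, re_ck hz1, pker_eq]; ring
    simp_rw [h3] at h2
    rw [integral_div, integral_add hw (pker_mul_int hz hw)] at h2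
    simp only [Complex.sub_re, Complex.ofReal_re]
    have h4 : (2 * ext f z).re = 2 * (ext f z).re := by simp
    rw [h4, h2]; ring

/-- a zero-free holomorphic function has a logarithm of its modulus -/
lemma exists_log {F : ℂ → ℂ} (hF : DifferentiableOn ℂ F disc) (h0 : ∀ z ∈ disc, F z ≠ 0) :
    ∃ L : ℂ → ℂ, DifferentiableOn ℂ L disc ∧ ∀ z ∈ disc, (L z).re = Real.log ‖F z‖ := by
  apply exists_re
  intro z hz
  have h1 : AnalyticAt ℂ F z := hF.analyticAt (isOpen_ball.mem_nhds hz)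
  exact h1.harmonicAt_log_norm (h0 z hz)

/-- Poisson formula in a convenient form -/
lemma poisson' {F : ℂ → ℂ} (hF : DifferentiableOn ℂ F disc) {r : ℝ} (hr : r ∈ Ioo (0 : ℝ) 1)
    {z : ℂ} (hz : z ∈ disc) :
    (F (r * z)).re = ∫ t, pker z t * (F (r * pt t)).re ∂mu := by
  rw [poisson hF hr.1 hr.2 hz]
  congr 1; funext t; rw [pt_eq]; ring

lemma mean0 {F : ℂ → ℂ} (hF : DifferentiableOn ℂ F disc) {r : ℝ} (hr : r ∈ Ioo (0 : ℝ) 1) :
    (F 0).re = ∫ t, (F (r * pt t)).re ∂mu := by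
  have h := poisson' hF hr (z := 0) (by simp)
  rw [mul_zero] at h
  rw [h]
  congr 1; funext t; rw [pker_zero, one_mul]

lemma pt_mem {r : ℝ} (hr : r ∈ Ioo (0 : ℝ) 1) (t : T) : (r : ℂ) * pt t ∈ disc := by
  rw [md, norm_mul, pt_norm, mul_one, Complex.norm_real, Real.norm_of_nonneg hr.1.le]
  exact hr.2

lemma circ_cont {F : ℂ → ℂ} (hF : DifferentiableOn ℂ F disc) {r : ℝ} (hr : r ∈ Ioo (0 : ℝ) 1) :
    Continuous fun t : T => F (r * pt t) :=
  hF.continuousOn.comp_continuous (continuous_const.mul pt_cont) (re1_mem hr.1.le hr.2)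

lemma circ_cont_re {F : ℂ → ℂ} (hF : DifferentiableOn ℂ F disc) {r : ℝ} (hr : r ∈ Ioo (0 : ℝ) 1) :
    Continuous fun t : T => (F (r * pt t)).re :=
  Complex.continuous_re.comp (circ_cont hF hr)

/-- a general form of Fatou's lemma for real integrals -/
lemma fatouR {α : Type*} [MeasurableSpace α] {ν : Measure α} {X : ℕ → α → ℝ} {Y : α → ℝ}
    (hX : ∀ n, Integrable (X n) ν) (h0 : ∀ n, ∀ᵐ a ∂ν, 0 ≤ X n a)
    (hlim : ∀ᵐ a ∂ν, Tendsto (fun n => X n a) atTop (𝓝 (Y a))) {C : ℝ}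
    (hC : ∀ n, ∫ a, X n a ∂ν ≤ C) : Integrable Y ν ∧ (∀ᵐ a ∂ν, 0 ≤ Y a) ∧ ∫ a, Y a ∂ν ≤ C := by
  have hY0 : ∀ᵐ a ∂ν, 0 ≤ Y a := by
    have h0' := ae_all_iff.2 h0
    filter_upwards [hlim, h0'] with a h1 h2
    exact ge_of_tendsto' h1 h2
  have hYm : AEStronglyMeasurable Y ν :=
    aestronglyMeasurable_of_tendsto_ae atTop (fun n => (hX n).1) hlim
  have hCn : 0 ≤ C := (integral_nonneg_of_ae (h0 0)).trans (hC 0)
  have hlint : ∫⁻ a, ENNReal.ofReal (Y a) ∂ν ≤ ENNReal.ofReal C := by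
    have h1 : ∫⁻ a, ENNReal.ofReal (Y a) ∂ν ≤
        ∫⁻ a, liminf (fun n => ENNReal.ofReal (X n a)) atTop ∂ν := by
      apply lintegral_mono_ae
      filter_upwards [hlim] with a h1
      have h2 : Tendsto (fun n => ENNReal.ofReal (X n a)) atTop (𝓝 (ENNReal.ofReal (Y a))) :=
        (ENNReal.continuous_ofReal.tendsto _).comp h1
      rw [h2.liminf_eq]
    refine h1.trans ((lintegral_liminf_le' fun n => ?_).trans ?_)
    · exact (hX n).1.aemeasurable.ennreal_ofReal
    · apply liminf_le_of_frequently_le'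
      apply Frequently.of_forall
      intro n
      rw [← ofReal_integral_eq_lintegral_ofReal (hX n) (h0 n)]
      exact ENNReal.ofReal_le_ofReal (hC n)
  have hYi : Integrable Y ν := by
    refine ⟨hYm, ?_⟩
    rw [hasFiniteIntegral_iff_ofReal hY0]
    exact lt_of_le_of_lt hlint ENNReal.ofReal_lt_top
  refine ⟨hYi, hY0, ?_⟩
  rw [← ofReal_integral_eq_lintegral_ofReal hYi hY0] at hlint
  exact (ENNReal.ofReal_le_ofReal_iff hCn).1 hlint

/-- radii increasing to one -/
noncomputable def rad (n : ℕ) : ℝ := 1 - 1 / ((n : ℝ) + 2)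

lemma rad_mem (n : ℕ) : rad n ∈ Ioo (0 : ℝ) 1 := by
  have h : (0 : ℝ) < (n : ℝ) + 2 := by positivity
  have h2 : 1 / ((n : ℝ) + 2) < 1 := by
    rw [div_lt_one h]; have : (0 : ℝ) ≤ n := Nat.cast_nonneg n; linarith
  have h3 : 0 < 1 / ((n : ℝ) + 2) := by positivity
  constructor <;> simp only [rad] <;> linarith

lemma rad_tendsto : Tendsto rad atTop (𝓝[<] 1) := by
  rw [tendsto_nhdsWithin_iff]
  constructor
  · have h1 : Tendsto (fun n : ℕ => (n : ℝ) + 2) atTop atTop :=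
      tendsto_atTop_add_const_right _ _ tendsto_natCast_atTop_atTop
    have h2 : Tendsto (fun n : ℕ => 1 / ((n : ℝ) + 2)) atTop (𝓝 0) :=
      h1.const_div_atTop 1
    have h3 := (tendsto_const_nhds (x := (1 : ℝ))).sub h2
    rw [sub_zero] at h3
    exact h3
  · exact Eventually.of_forall fun n => (rad_mem n).2

end Pool.Agent.Helper34.Wc
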