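import Pool.Agent.Helper34.Wc.Disc

set_option autoImplicit false
set_option profiler true
set_option profiler.threshold 500

open MeasureTheory Filter Topology Complex Metric Set AddCircle
open scoped Interval ComplexConjugate ENNReal

namespace Pool.Agent.Helper34.Wc

open Dg

/-- the coefficients of a function with bounded quadratic means are square summable -/
lemma summable_coeff {F : ℂ → ℂ} (hF : DifferentiableOn ℂ F (Metric.ball 0 1)) {M : ℝ}
    (hM : ∀ r ∈ Ioo (0 : ℝ) 1, ∫ t, ‖F (r * e 1 t)‖ ^ 2 ∂mu ≤ M) {a : ℕ → ℂ}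
    (ha : ∀ w : ℂ, ‖w‖ < 1 → HasSum (fun n : ℕ => a n * w ^ n) (F w)) :
    Summable (fun n : ℕ => ‖a n‖ ^ 2) := by
  apply summable_of_sum_range_le (c := M)
  · intro n; positivity
  · intro m
    have hr : ∀ r : ℝ, r ∈ Ioo (0 : ℝ) 1 → ∑ i ∈ Finset.range m, ‖a i‖ ^ 2 * (r ^ i) ^ 2 ≤ M := by
      intro r hr
      have hcont := P641.circle_cont_641 hF hr.1.le hr.2
      have hp := parseval (memLp2 (bdd_cont hcont))
      have hle := hM r hr
      have h1 := hp.summable.sum_le_tsum ((Finset.range m).map (Nat.castEmbedding (R := ℤ)))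
        (fun i _ => by positivity)
      rw [hp.tsum_eq, Finset.sum_map] at h1
      refine le_trans (le_of_eq ?_) (h1.trans hle)
      apply Finset.sum_congr rfl
      intro i _
      show _ = ‖fourierCoeff (fun t => F (r * e 1 t)) ((i : ℕ) : ℤ)‖ ^ 2
      rw [P641.fc_circle_641 ha hr.1.le hr.2, if_pos (by omega), Int.toNat_natCast, norm_mul,
        mul_pow, norm_pow, Complex.norm_real, Real.norm_of_nonneg hr.1.le]
    have hlim : Tendsto (fun r : ℝ => ∑ i ∈ Finset.range m, ‖a i‖ ^ 2 * (r ^ i) ^ 2) (𝓝[<] 1)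
        (𝓝 (∑ i ∈ Finset.range m, ‖a i‖ ^ 2 * ((1:ℝ) ^ i) ^ 2)) := by
      have h1 : Continuous (fun r : ℝ => ∑ i ∈ Finset.range m, ‖a i‖ ^ 2 * (r ^ i) ^ 2) := by fun_prop
      exact (h1.tendsto 1).mono_left nhdsWithin_le_nhds
    have h4 : ∀ᶠ r : ℝ in 𝓝[<] 1, ∑ i ∈ Finset.range m, ‖a i‖ ^ 2 * (r ^ i) ^ 2 ≤ M := by
      filter_upwards [Ioo_mem_left] with r hr0
      exact hr r hr0
    have h5 := le_of_tendsto hlim h4
    simpa using h5

/-- `H²` functions are Poisson integrals of integrable functions -/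
lemma H2_rep {F : ℂ → ℂ} (hF : DifferentiableOn ℂ F disc) {M : ℝ}
    (hM : ∀ r ∈ Ioo (0 : ℝ) 1, ∫ t, ‖F (r * pt t)‖ ^ 2 ∂mu ≤ M) :
    ∃ f : T → ℂ, Integrable f mu ∧ ∀ z ∈ disc, ∫ t, f t * (pk z t : ℂ) ∂mu = F z := by
  obtain ⟨a, ha⟩ := exists_coeff hF
  have hs := summable_coeff hF hM ha
  obtain ⟨f, hf2, hfc⟩ := P641.exists_L2_641 hs
  have hfi : Integrable f mu := hf2.integrable (by norm_num)
  refine ⟨f, hfi, fun z hz => ?_⟩
  rw [Herg.int_pk_gen hfi (fun n hn => by rw [hfc, if_neg (by omega)]) (md.1 hz), Dg.ext]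
  have : (fun n : ℕ => fourierCoeff f n * z ^ n) = fun n : ℕ => a n * z ^ n := by
    funext n
    rw [hfc, if_pos (by omega), Int.toNat_natCast]
  rw [this]
  exact (ha z (md.1 hz)).tsum_eq

/-- harmonic majorant of `log |F|` -/
lemma majorant {F L : ℂ → ℂ} {q : ℝ≥0∞} (hq : q ≠ 0) (hF : MemH1 q F)
    (hL : DifferentiableOn ℂ L disc) (h0 : ∀ z ∈ disc, F z ≠ 0)
    (hLF : ∀ z ∈ disc, (L z).re = Real.log ‖F z‖) :
    ∃ w : T → ℝ, (∀ t, 0 ≤ w t) ∧ Integrable w mu ∧
      ∀ z ∈ disc, (L z).re ≤ ∫ t, pker z t * w t ∂mu := by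
  by_cases hqt : q = ∞
  · obtain ⟨M, hM⟩ := hF.2.1 hqt
    refine ⟨fun _ => max M 0, fun t => le_max_right _ _, integrable_const _, fun z hz => ?_⟩
    rw [integral_mul_const, int_pker hz, one_mul, hLF z hz]
    have h1 : Real.log ‖F z‖ ≤ ‖F z‖ := Real.log_le_self (norm_nonneg _)
    exact h1.trans ((hM z hz).trans (le_max_left _ _))
  · obtain ⟨C, hC⟩ := hF.2.2 hqt
    set s : ℝ := q.toReal with hs
    have hs0 : 0 < s := ENNReal.toReal_pos hq hqt
    set G : ℂ → ℂ := fun z => Complex.exp ((s / 2 : ℝ) * L z) with hG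
    have hGd : DifferentiableOn ℂ G disc := (hL.const_mul _).cexp
    have hGn : ∀ z ∈ disc, ‖G z‖ = ‖F z‖ ^ (s / 2) := by
      intro z hz
      have hpos : 0 < ‖F z‖ := norm_pos_iff.2 (h0 z hz)
      rw [hG, Complex.norm_exp, Complex.re_ofReal_mul, hLF z hz, Real.rpow_def_of_pos hpos]
      ring_nf
    have hGn2 : ∀ z ∈ disc, ‖G z‖ ^ 2 = ‖F z‖ ^ s := by
      intro z hz
      rw [hGn z hz, ← Real.rpow_natCast, ← Real.rpow_mul (norm_nonneg _)]
      congr 1; push_cast; ring
    have hM : ∀ r ∈ Ioo (0 : ℝ) 1, ∫ t, ‖G (r * pt t)‖ ^ 2 ∂mu ≤ C := by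
      intro r hr
      refine le_trans (le_of_eq ?_) (hC r hr)
      congr 1; funext t
      exact hGn2 _ (pt_mem hr t)
    obtain ⟨f, hf, hfe⟩ := H2_rep hGd hM
    refine ⟨fun t => (2 / s) * ‖f t‖, fun t => by positivity, hf.norm.const_mul _, fun z hz => ?_⟩
    have h1 : (s / 2) * (L z).re ≤ ‖G z‖ := by
      have h2 : ‖G z‖ = Real.exp ((s / 2) * (L z).re) := by
        rw [hG, Complex.norm_exp, Complex.re_ofReal_mul]
      rw [h2]
      have := Real.add_one_le_exp ((s / 2) * (L z).re)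
      linarith
    have h2 : ‖G z‖ ≤ ∫ t, ‖f t‖ * pker z t ∂mu := by
      rw [← hfe z hz]
      refine (norm_integral_le_integral_norm _).trans (le_of_eq ?_)
      congr 1; funext t
      rw [norm_mul, Complex.norm_real, ← pker_eq, Real.norm_of_nonneg (pker_nonneg hz t)]
    have h3 : ∫ t, pker z t * (2 / s * ‖f t‖) ∂mu = (2 / s) * ∫ t, ‖f t‖ * pker z t ∂mu := by
      rw [← integral_const_mul]
      congr 1; funext t; ring
    rw [h3]
    calc (L z).re = (2 / s) * ((s / 2) * (L z).re) := by field_simp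
      _ ≤ (2 / s) * ∫ t, ‖f t‖ * pker z t ∂mu := by
          apply mul_le_mul_of_nonneg_left (h1.trans h2) (by positivity)

/-- the boundary function of a bounded zero-free function does not vanish almost everywhere -/
lemma zf_bdry {A K : ℂ → ℂ} (hA : DifferentiableOn ℂ A disc) (hA1 : ∀ z ∈ disc, ‖A z‖ ≤ 1)
    (hK : DifferentiableOn ℂ K disc) (hKA : ∀ z ∈ disc, ‖A z‖ = Real.exp (K z).re) :
    ∃ g : T → ℂ, (∀ᵐ t ∂mu, g t ≠ 0 ∧
      Tendsto (fun r : ℝ => A ((r : ℂ) * pt t)) (𝓝[<] 1) (𝓝 (g t))) ∧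
      Integrable (fun t => Real.log ‖g t‖) mu := by
  obtain ⟨g, hg, hge, hgb⟩ := bh_rep ⟨hA, 1, hA1⟩
  have hK0 : ∀ z ∈ disc, (K z).re ≤ 0 := by
    intro z hz
    have := hA1 z hz
    rw [hKA z hz] at this
    simpa using this
  have hX' : ∀ n, Integrable (fun t : T => -(K (rad n * pt t)).re) mu := by
    intro n
    have h1 := (circ_cont_re hK (rad_mem n)).neg
    exact cont_intR h1
  have hm' : ∀ n, ∫ t, -(K (rad n * pt t)).re ∂mu = -(K 0).re := by
    intro n
    rw [mean0 hK (rad_mem n), integral_neg]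
  -- g does not vanish
  -- use X_n = min (-Re K_r) N ... via Fatou on sets
  have hne : ∀ᵐ t ∂mu, g t ≠ 0 := by
    -- bound the measure of the zero set
    have hb : ∀ N : ℕ, (N : ℝ) * (mu (g ⁻¹' {0})).toReal ≤ -(K 0).re := by
      intro N
      -- X n t = min (- Re K (r_n t)) N, liminf ≥ N on the zero set
      have hX : ∀ n, Integrable (fun t => min (-(K (rad n * pt t)).re) (N : ℝ)) mu := by
        intro n
        have h1 : Continuous (fun t : T => -(K (rad n * pt t)).re) :=
          (circ_cont_re hK (rad_mem n)).neg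
        exact cont_intR (h1.min continuous_const)
      have hlim : ∀ᵐ t ∂mu, Tendsto (fun n => min (-(K (rad n * pt t)).re) (N : ℝ)) atTop
          (𝓝 (if g t = 0 then (N : ℝ) else min (-Real.log ‖g t‖) N)) := by
        filter_upwards [hgb] with t ht
        have h1 : Tendsto (fun n => ‖A (rad n * pt t)‖) atTop (𝓝 ‖g t‖) :=
          (ht.comp rad_tendsto).norm
        have h2 : ∀ n, -(K (rad n * pt t)).re = -Real.log ‖A (rad n * pt t)‖ := by
          intro n
          rw [hKA _ (pt_mem (rad_mem n) t), Real.log_exp]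
        simp_rw [h2]
        by_cases h0 : g t = 0
        · rw [if_pos h0]
          rw [h0, norm_zero] at h1
          have h3 : Tendsto (fun n => ‖A (rad n * pt t)‖) atTop (𝓝[>] 0) := by
            rw [tendsto_nhdsWithin_iff]
            refine ⟨h1, Eventually.of_forall fun n => ?_⟩
            rw [hKA _ (pt_mem (rad_mem n) t)]
            exact Real.exp_pos _
          have h4 := Real.tendsto_log_nhdsGT_zero.comp h3
          have h5 := tendsto_neg_atBot_atTop.comp h4
          refine tendsto_const_nhds.congr' ?_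
          filter_upwards [h5.eventually_ge_atTop (N : ℝ)] with n hn
          exact (min_eq_right hn).symm
        · rw [if_neg h0]
          have h3 : Tendsto (fun n => Real.log ‖A (rad n * pt t)‖) atTop (𝓝 (Real.log ‖g t‖)) :=
            (Real.continuousAt_log (norm_ne_zero_iff.2 h0)).tendsto.comp h1
          exact h3.neg.min tendsto_const_nhds
      have hf := fatouR hX (fun n => Eventually.of_forall fun t => by
        have := hK0 _ (pt_mem (rad_mem n) t)
        exact le_min (by linarith) (Nat.cast_nonneg N)) hlim (C := -(K 0).re) (fun n => by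
          rw [← hm' n]
          apply integral_mono (hX n) (hX' n)
          intro t
          exact min_le_left (-(K (rad n * pt t)).re) (N : ℝ))
      obtain ⟨f1, f2, f3⟩ := hf
      suffices hsuf : (N : ℝ) * (mu (g ⁻¹' {0})).toReal ≤
          ∫ a, (if g a = 0 then (N : ℝ) else min (-Real.log ‖g a‖) N) ∂mu from hsuf.trans f3
      have hgm : AEMeasurable g mu := hg.1.1.aemeasurable
      have hms : NullMeasurableSet (g ⁻¹' {0}) mu :=
        hgm.nullMeasurable (measurableSet_singleton 0)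
      have h4 : ∫ t, (g ⁻¹' {0}).indicator (fun _ => (N : ℝ)) t ∂mu =
          (N : ℝ) * (mu (g ⁻¹' {0})).toReal := by
        rw [integral_indicator₀ hms, setIntegral_const]
        simp [Measure.real, mul_comm]
      rw [← h4]
      apply integral_mono_ae _ f1
      · filter_upwards [f2] with t ht
        by_cases h : g t = 0
        · rw [indicator_of_mem (show t ∈ (g ⁻¹' {0}) by simpa using h), if_pos h]
        · rw [indicator_of_notMem (show t ∉ (g ⁻¹' {0}) by simpa using h)]
          exact ht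
      · exact (integrable_const (N : ℝ)).indicator₀ hms
    have h0 : (mu (g ⁻¹' {0})).toReal = 0 := by
      by_contra hc
      have hpos : 0 < (mu (g ⁻¹' {0})).toReal :=
        lt_of_le_of_ne ENNReal.toReal_nonneg (Ne.symm hc)
      obtain ⟨N, hN⟩ := exists_nat_gt (-(K 0).re / (mu (g ⁻¹' {0})).toReal)
      have := hb N
      rw [div_lt_iff₀ hpos] at hN
      linarith
    rw [ENNReal.toReal_eq_zero_iff] at h0
    rcases h0 with h0 | h0
    · rw [ae_iff]
      have e1 : {a | ¬ g a ≠ 0} = g ⁻¹' {0} := by ext a; simp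
      rw [e1]; exact h0
    · exact absurd h0 (measure_ne_top _ _)
  refine ⟨g, ?_, ?_⟩
  · filter_upwards [hne, hgb] with t h1 h2
    exact ⟨h1, h2⟩
  · have hlim : ∀ᵐ t ∂mu, Tendsto (fun n => -(K (rad n * pt t)).re) atTop
        (𝓝 (-Real.log ‖g t‖)) := by
      filter_upwards [hgb, hne] with t ht h0
      have h1 : Tendsto (fun n => ‖A (rad n * pt t)‖) atTop (𝓝 ‖g t‖) :=
        (ht.comp rad_tendsto).norm
      have h2 : ∀ n, -(K (rad n * pt t)).re = -Real.log ‖A (rad n * pt t)‖ := by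
        intro n
        rw [hKA _ (pt_mem (rad_mem n) t), Real.log_exp]
      simp_rw [h2]
      exact ((Real.continuousAt_log (norm_ne_zero_iff.2 h0)).tendsto.comp h1).neg
    have hf := fatouR (C := -(K 0).re) hX'
      (fun n => Eventually.of_forall fun t => by
        have := hK0 _ (pt_mem (rad_mem n) t)
        linarith) hlim (fun n => (hm' n).le)
    have := hf.1.neg
    simpa using this

end Pool.Agent.Helper34.Wc
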