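import Pool.Agent.Helper34.Wc.Disc2

set_option autoImplicit false

open MeasureTheory Filter Topology Complex Metric Set AddCircle
open scoped Interval ComplexConjugate ENNReal

namespace Pool.Agent.Helper34.Wc

open Dg

lemma fatouR' {α : Type*} [MeasurableSpace α] {ν : Measure α} {X : ℕ → α → ℝ} {Y : α → ℝ}
    (hX : ∀ n, Integrable (X n) ν) (h0 : ∀ n, ∀ᵐ a ∂ν, 0 ≤ X n a)
    (hlim : ∀ᵐ a ∂ν, Tendsto (fun n => X n a) atTop (𝓝 (Y a))) {c : ℕ → ℝ} {C : ℝ}
    (hc : Tendsto c atTop (𝓝 C)) (hC : ∀ᶠ n in atTop, ∫ a, X n a ∂ν ≤ c n) :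
    Integrable Y ν ∧ (∀ᵐ a ∂ν, 0 ≤ Y a) ∧ ∫ a, Y a ∂ν ≤ C := by
  have key : ∀ δ > (0 : ℝ), Integrable Y ν ∧ (∀ᵐ a ∂ν, 0 ≤ Y a) ∧ ∫ a, Y a ∂ν ≤ C + δ := by
    intro δ hδ
    have h1 : ∀ᶠ n in atTop, c n < C + δ := hc.eventually (gt_mem_nhds (by linarith))
    obtain ⟨N, hN⟩ := eventually_atTop.1 (h1.and hC)
    refine fatouR (X := fun n => X (n + N)) (fun n => hX _) (fun n => h0 _) ?_ ?_
    · filter_upwards [hlim] with a ha
      exact ha.comp (tendsto_add_atTop_nat N)
    · intro n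
      obtain ⟨h2, h3⟩ := hN (n + N) (by omega)
      linarith
  refine ⟨(key 1 one_pos).1, (key 1 one_pos).2.1, ?_⟩
  exact le_of_forall_pos_le_add fun δ hδ => (key δ hδ).2.2

/-- the radial limit data of a zero-free Hardy function -/
structure Dat (F L : ℂ → ℂ) (w : T → ℝ) (g : T → ℂ) : Prop where
  diff : DifferentiableOn ℂ L disc
  norm : ∀ z ∈ disc, ‖F z‖ = Real.exp (L z).re
  w0 : ∀ t, 0 ≤ w t
  wint : Integrable w mu
  maj : ∀ z ∈ disc, (L z).re ≤ ∫ t, pker z t * w t ∂mu
  lim : ∀ᵐ t ∂mu, g t ≠ 0 ∧ Tendsto (fun r : ℝ => F ((r : ℂ) * pt t)) (𝓝[<] 1) (𝓝 (g t))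
  gint : Integrable (fun t => Real.log ‖g t‖) mu
  upper : ∀ z ∈ disc, (L z).re ≤ ∫ t, pker z t * Real.log ‖g t‖ ∂mu

lemma exists_exponent {F : ℂ → ℂ} {q : ℝ≥0∞} (hq : q ≠ 0) (hF : MemH1 q F) :
    ∃ s : ℝ, 0 < s ∧ ∃ C : ℝ, ∀ r ∈ Ioo (0 : ℝ) 1, ∫ t, ‖F ((r : ℂ) * pt t)‖ ^ s ∂mu ≤ C := by
  by_cases hqt : q = ∞
  · obtain ⟨M, hM⟩ := hF.2.1 hqt
    refine ⟨1, one_pos, M, fun r hr => ?_⟩
    have h1 : ∫ t, ‖F ((r : ℂ) * pt t)‖ ^ (1 : ℝ) ∂mu ≤ ∫ _t, M ∂mu := by
      apply integral_mono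
      · simp_rw [Real.rpow_one]
        exact cont_intR (circ_cont hF.1 hr).norm
      · exact integrable_const _
      · intro t
        show ‖F ((r : ℂ) * pt t)‖ ^ (1 : ℝ) ≤ M
        rw [Real.rpow_one]
        exact hM _ (pt_mem hr t)
    simpa using h1
  · obtain ⟨C, hC⟩ := hF.2.2 hqt
    exact ⟨q.toReal, ENNReal.toReal_pos hq hqt, C, hC⟩

lemma structF {F : ℂ → ℂ} {q : ℝ≥0∞} (hq : q ≠ 0) (hF : MemH1 q F) (h0 : ∀ z ∈ disc, F z ≠ 0) :
    ∃ L w g, Dat F L w g := by
  obtain ⟨L, hL, hLF⟩ := exists_log hF.1 h0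
  obtain ⟨w, hw0, hwi, hwm⟩ := majorant hq hF hL h0 hLF
  obtain ⟨H, hH, hHe⟩ := herg hwi
  have hHn : ∀ z ∈ disc, 0 ≤ (H z).re := by
    intro z hz
    rw [hHe z hz]
    exact integral_nonneg fun t => mul_nonneg (pker_nonneg hz t) (hw0 t)
  have hnorm : ∀ z ∈ disc, ‖F z‖ = Real.exp (L z).re := by
    intro z hz
    rw [hLF z hz, Real.exp_log (norm_pos_iff.2 (h0 z hz))]
  obtain ⟨gA, hgA, hgAi⟩ := zf_bdry (A := fun z => Complex.exp (-H z)) (K := fun z => -H z)
    hH.neg.cexp (fun z hz => by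
      rw [Complex.norm_exp, Complex.neg_re, Real.exp_le_one_iff]; linarith [hHn z hz])
    hH.neg (fun z hz => by rw [Complex.norm_exp])
  obtain ⟨gB, hgB, hgBi⟩ := zf_bdry (A := fun z => F z * Complex.exp (-H z))
    (K := fun z => L z - H z)
    (hF.1.mul hH.neg.cexp) (fun z hz => by
      rw [norm_mul, hnorm z hz, Complex.norm_exp, Complex.neg_re, ← Real.exp_add,
        Real.exp_le_one_iff]
      linarith [hwm z hz, hHe z hz])
    (hL.sub hH) (fun z hz => by
      rw [norm_mul, hnorm z hz, Complex.norm_exp, Complex.neg_re, ← Real.exp_add,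
        Complex.sub_re, sub_eq_add_neg])
  set g : T → ℂ := fun t => gB t / gA t with hg
  have hlim : ∀ᵐ t ∂mu, g t ≠ 0 ∧
      Tendsto (fun r : ℝ => F ((r : ℂ) * pt t)) (𝓝[<] 1) (𝓝 (g t)) := by
    filter_upwards [hgA, hgB] with t h1 h2
    refine ⟨div_ne_zero h2.1 h1.1, ?_⟩
    refine (h2.2.div h1.2 h1.1).congr fun r => ?_
    show F ((r : ℂ) * pt t) * Complex.exp (-H ((r : ℂ) * pt t)) /
      Complex.exp (-H ((r : ℂ) * pt t)) = F ((r : ℂ) * pt t)
    rw [mul_div_assoc, div_self (Complex.exp_ne_zero _), mul_one]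
  have hlogg : ∀ᵐ t ∂mu, Real.log ‖gB t‖ - Real.log ‖gA t‖ = Real.log ‖g t‖ := by
    filter_upwards [hgA, hgB] with t h1 h2
    rw [hg, norm_div, Real.log_div (norm_ne_zero_iff.2 h2.1) (norm_ne_zero_iff.2 h1.1)]
  have hgi : Integrable (fun t => Real.log ‖g t‖) mu := (hgBi.sub hgAi).congr hlogg
  refine ⟨L, w, g, hL, hnorm, hw0, hwi, hwm, hlim, hgi, fun z hz => ?_⟩
  -- upper bound
  obtain ⟨s, hs, C, hC⟩ := exists_exponent hq hF
  have hz1 := md.1 hz
  set cz : ℝ := 2 / (1 - ‖z‖) with hcz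
  have hcz0 : 0 < cz := by
    rw [hcz]; apply div_pos two_pos; linarith
  have hC0 : 0 ≤ C := by
    have h1 := hC (1 / 2) ⟨by norm_num, by norm_num⟩
    refine le_trans (integral_nonneg fun t => ?_) h1
    exact Real.rpow_nonneg (norm_nonneg _) _
  have key : ∀ ε > (0 : ℝ), s * (L z).re ≤
      s * (∫ t, pker z t * Real.log ‖g t‖ ∂mu) + cz * (ε * C) := by
    intro ε hε
    set Ce : ℝ := -1 - Real.log ε with hCe
    have hineq : ∀ x : ℝ, 0 < x → 0 ≤ ε * x ^ s + Ce - s * Real.log x := by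
      intro x hx
      have hxs : 0 < x ^ s := Real.rpow_pos_of_pos hx s
      have h1 : Real.log (ε * x ^ s) ≤ ε * x ^ s - 1 :=
        Real.log_le_sub_one_of_pos (mul_pos hε hxs)
      rw [Real.log_mul hε.ne' hxs.ne', Real.log_rpow hx] at h1
      linarith
    have hXi : ∀ n, Integrable (fun t => pker z t *
        (ε * ‖F (rad n * pt t)‖ ^ s + Ce - s * (L (rad n * pt t)).re)) mu := by
      intro n
      have hc1 : Continuous (fun t : T => ‖F (rad n * pt t)‖ ^ s) :=
        (circ_cont hF.1 (rad_mem n)).norm.rpow_const fun t => Or.inr hs.le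
      have hc2 := circ_cont_re hL (rad_mem n)
      exact cont_intR ((pker_cont hz).mul
        (((continuous_const.mul hc1).add continuous_const).sub (continuous_const.mul hc2)))
    have hXlim : ∀ᵐ t ∂mu, Tendsto (fun n => pker z t *
        (ε * ‖F (rad n * pt t)‖ ^ s + Ce - s * (L (rad n * pt t)).re)) atTop
        (𝓝 (pker z t * (ε * ‖g t‖ ^ s + Ce - s * Real.log ‖g t‖))) := by
      filter_upwards [hlim] with t ht
      have h1 : Tendsto (fun n => ‖F (rad n * pt t)‖) atTop (𝓝 ‖g t‖) :=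
        (ht.2.comp rad_tendsto).norm
      have h2 : ∀ n, (L (rad n * pt t)).re = Real.log ‖F (rad n * pt t)‖ := by
        intro n
        rw [hnorm _ (pt_mem (rad_mem n) t), Real.log_exp]
      simp_rw [h2]
      have h3 := (Real.continuousAt_log (norm_ne_zero_iff.2 ht.1)).tendsto.comp h1
      have h4 := h1.rpow_const (p := s) (Or.inr hs.le)
      exact (((h4.const_mul ε).add_const Ce).sub (h3.const_mul s)).const_mul _
    have hXint : ∀ n, ∫ t, pker z t *
        (ε * ‖F (rad n * pt t)‖ ^ s + Ce - s * (L (rad n * pt t)).re) ∂mu ≤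
        cz * (ε * C) + Ce - s * (L (rad n * z)).re := by
      intro n
      have hc1 : Continuous (fun t : T => ‖F (rad n * pt t)‖ ^ s) :=
        (circ_cont hF.1 (rad_mem n)).norm.rpow_const fun t => Or.inr hs.le
      have hc2 := circ_cont_re hL (rad_mem n)
      have e1 : ∀ t : T, pker z t *
          (ε * ‖F (rad n * pt t)‖ ^ s + Ce - s * (L (rad n * pt t)).re) =
          ε * (pker z t * ‖F (rad n * pt t)‖ ^ s) + Ce * pker z t -
            s * (pker z t * (L (rad n * pt t)).re) := by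
        intro t; ring
      simp_rw [e1]
      have i1 : Integrable (fun t : T => ε * (pker z t * ‖F (rad n * pt t)‖ ^ s)) mu :=
        cont_intR (continuous_const.mul ((pker_cont hz).mul hc1))
      have i2 : Integrable (fun t : T => Ce * pker z t) mu :=
        cont_intR (continuous_const.mul (pker_cont hz))
      have i3 : Integrable (fun t : T => s * (pker z t * (L (rad n * pt t)).re)) mu :=
        cont_intR (continuous_const.mul ((pker_cont hz).mul hc2))
      have i12 : Integrable (fun t : T => ε * (pker z t * ‖F (rad n * pt t)‖ ^ s) +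
          Ce * pker z t) mu := i1.add i2
      rw [integral_sub i12 i3, integral_add i1 i2, integral_const_mul, integral_const_mul,
        integral_const_mul, int_pker hz, ← poisson' hL (rad_mem n) hz, mul_one]
      have h5 : ∫ t, pker z t * ‖F (rad n * pt t)‖ ^ s ∂mu ≤ cz * C := by
        calc ∫ t, pker z t * ‖F (rad n * pt t)‖ ^ s ∂mu
            ≤ ∫ t, cz * ‖F (rad n * pt t)‖ ^ s ∂mu := by
              apply integral_mono (cont_intR ((pker_cont hz).mul hc1))
                (cont_intR (continuous_const.mul hc1))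
              intro t
              exact mul_le_mul_of_nonneg_right (pker_le hz t)
                (Real.rpow_nonneg (norm_nonneg _) _)
          _ = cz * ∫ t, ‖F (rad n * pt t)‖ ^ s ∂mu := integral_const_mul _ _
          _ ≤ cz * C := mul_le_mul_of_nonneg_left (hC _ (rad_mem n)) hcz0.le
      have h6 : ε * (∫ t, pker z t * ‖F (rad n * pt t)‖ ^ s ∂mu) ≤ ε * (cz * C) :=
        mul_le_mul_of_nonneg_left h5 hε.le
      linarith
    have hclim : Tendsto (fun n => cz * (ε * C) + Ce - s * (L (rad n * z)).re) atTop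
        (𝓝 (cz * (ε * C) + Ce - s * (L z).re)) := by
      have hc : ContinuousAt L z := (hL.differentiableAt (isOpen_ball.mem_nhds hz)).continuousAt
      have h3 : Tendsto (fun n => (rad n : ℂ) * z) atTop (𝓝 z) := by
        have := (ofReal_tendsto.comp rad_tendsto).mul_const z
        rw [one_mul] at this
        exact this
      have h4 := (Complex.continuous_re.tendsto _).comp (hc.tendsto.comp h3)
      exact (h4.const_mul s).const_sub _
    obtain ⟨f1, f2, f3⟩ := fatouR' hXi (fun n => Eventually.of_forall fun t => by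
      have hm := pt_mem (rad_mem n) t
      have h1 := hineq ‖F (rad n * pt t)‖ (norm_pos_iff.2 (h0 _ hm))
      rw [← hLF _ hm] at h1
      exact mul_nonneg (pker_nonneg hz t) h1) hXlim hclim (Eventually.of_forall hXint)
    have i5 : Integrable (fun t : T => Ce * pker z t) mu :=
      cont_intR (continuous_const.mul (pker_cont hz))
    have i6 : Integrable (fun t : T => s * (pker z t * Real.log ‖g t‖)) mu :=
      (pker_mul_int hz hgi).const_mul s
    have h7 : ∫ t, (Ce * pker z t - s * (pker z t * Real.log ‖g t‖)) ∂mu ≤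
        ∫ t, pker z t * (ε * ‖g t‖ ^ s + Ce - s * Real.log ‖g t‖) ∂mu := by
      apply integral_mono _ f1
      · intro t
        have h8 : 0 ≤ pker z t * (ε * ‖g t‖ ^ s) :=
          mul_nonneg (pker_nonneg hz t) (mul_nonneg hε.le (Real.rpow_nonneg (norm_nonneg _) _))
        show Ce * pker z t - s * (pker z t * Real.log ‖g t‖) ≤
          pker z t * (ε * ‖g t‖ ^ s + Ce - s * Real.log ‖g t‖)
        nlinarith
      · exact i5.sub i6
    rw [integral_sub i5 i6, integral_const_mul, integral_const_mul, int_pker hz] at h7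
    linarith
  have h8 : s * (L z).re ≤ s * (∫ t, pker z t * Real.log ‖g t‖ ∂mu) := by
    apply le_of_forall_pos_le_add
    intro δ hδ
    have h9 := key (δ / (cz * (C + 1))) (by positivity)
    have h10 : cz * (δ / (cz * (C + 1)) * C) ≤ δ := by
      have : cz * (δ / (cz * (C + 1)) * C) = δ * (C / (C + 1)) := by field_simp
      rw [this]
      have h11 : C / (C + 1) ≤ 1 := by rw [div_le_one (by positivity)]; linarith
      nlinarith
    linarith
  exact le_of_mul_le_mul_left h8 hs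

/-- a nonnegative harmonic function vanishing at the centre vanishes -/
lemma vanish {D : ℂ → ℂ} (hD : DifferentiableOn ℂ D disc) (h0 : ∀ z ∈ disc, 0 ≤ (D z).re)
    (hz0 : (D 0).re ≤ 0) : ∀ z ∈ disc, (D z).re = 0 := by
  intro z hz
  have hz1 := md.1 hz
  have hn := norm_nonneg z
  obtain ⟨r, hr1, hr2⟩ := exists_between hz1
  have hr0 : 0 < r := lt_of_le_of_lt hn hr1
  have hr : r ∈ Ioo (0 : ℝ) 1 := ⟨hr0, hr2⟩
  set z' : ℂ := z / r with hz'
  have hrc : (r : ℂ) ≠ 0 := by exact_mod_cast hr0.ne'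
  have hzz : (r : ℂ) * z' = z := by
    rw [hz']; field_simp
  have hz'd : z' ∈ disc := by
    rw [md, hz', norm_div, Complex.norm_real, Real.norm_of_nonneg hr0.le, div_lt_one hr0]
    exact hr1
  have h1 := poisson' hD hr hz'd
  rw [hzz] at h1
  apply le_antisymm _ (h0 z hz)
  rw [h1]
  calc ∫ t, pker z' t * (D (r * pt t)).re ∂mu ≤ ∫ t, 2 / (1 - ‖z'‖) * (D (r * pt t)).re ∂mu := by
        apply integral_mono (cont_intR ((pker_cont hz'd).mul (circ_cont_re hD hr)))
          (cont_intR (continuous_const.mul (circ_cont_re hD hr)))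
        intro t
        exact mul_le_mul_of_nonneg_right (pker_le hz'd t) (h0 _ (pt_mem hr t))
    _ = 2 / (1 - ‖z'‖) * (D 0).re := by rw [integral_const_mul, ← mean0 hD hr]
    _ ≤ 0 := by
        have : 0 ≤ 2 / (1 - ‖z'‖) := by
          have := md.1 hz'd
          apply div_nonneg two_pos.le; linarith
        nlinarith

/-- the criterion for outer functions: it is enough to look at the centre -/
lemma Dat.outer {F L : ℂ → ℂ} {w : T → ℝ} {g : T → ℂ} (h : Dat F L w g)
    (hc : ∫ t, Real.log ‖g t‖ ∂mu ≤ (L 0).re) :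
    ∀ z ∈ disc, ‖F z‖ = Real.exp (∫ t, pker z t * Real.log ‖g t‖ ∂mu) := by
  obtain ⟨H, hH, hHe⟩ := herg h.gint
  have h1 := vanish (D := fun z => H z - L z) (hH.sub h.diff) (fun z hz => by
    rw [Complex.sub_re, hHe z hz]; linarith [h.upper z hz]) (by
    have h0d : (0 : ℂ) ∈ disc := by simp
    rw [Complex.sub_re, hHe 0 h0d]
    simp_rw [pker_zero, one_mul]
    linarith)
  intro z hz
  rw [h.norm z hz]
  have := h1 z hz
  rw [Complex.sub_re, hHe z hz] at this
  congr 1
  linarith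

end Pool.Agent.Helper34.Wc
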