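import Pool.Agent.Helper34.Wc.Disc3

set_option autoImplicit false

open MeasureTheory Filter Topology Complex Metric Set AddCircle
open scoped Interval ComplexConjugate ENNReal

namespace Pool.Agent.Helper34.Wc

open Dg

lemma pker_compare {r s : ℝ} (hr : 0 ≤ r) (hrs : r ≤ s) (hs : s < 1) (ζ t : T) :
    pker ((s : ℂ) * pt ζ) t ≤
      ((1 + s) * (1 - r)) / ((1 - s) * (1 + r)) * pker ((r : ℂ) * pt ζ) t := by
  have hs0 : 0 ≤ s := hr.trans hrs
  have n1 : ‖(s : ℂ) * pt ζ‖ = s := by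
    rw [norm_mul, pt_norm, mul_one, Complex.norm_real, Real.norm_of_nonneg hs0]
  have n2 : ‖(r : ℂ) * pt ζ‖ = r := by
    rw [norm_mul, pt_norm, mul_one, Complex.norm_real, Real.norm_of_nonneg hr]
  have h1 : 1 - s ≤ ‖pt t - (s : ℂ) * pt ζ‖ := by
    have := pt_sub_ge (z := (s : ℂ) * pt ζ) t
    rwa [n1] at this
  have h2 : 1 - r ≤ ‖pt t - (r : ℂ) * pt ζ‖ := by
    have := pt_sub_ge (z := (r : ℂ) * pt ζ) t
    rwa [n2] at this
  have h3 : ‖pt t - (r : ℂ) * pt ζ‖ ≤ ‖pt t - (s : ℂ) * pt ζ‖ + (s - r) := by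
    have e1 : pt t - (r : ℂ) * pt ζ = (pt t - (s : ℂ) * pt ζ) + ((s - r : ℝ) : ℂ) * pt ζ := by
      push_cast; ring
    rw [e1]
    refine (norm_add_le _ _).trans (le_of_eq ?_)
    rw [norm_mul, pt_norm, mul_one, Complex.norm_real, Real.norm_of_nonneg (by linarith)]
  set a := ‖pt t - (s : ℂ) * pt ζ‖ with ha
  set b := ‖pt t - (r : ℂ) * pt ζ‖ with hb
  have ha0 : 0 < a := by linarith
  have hb0 : 0 < b := by linarith
  have h4 : (1 - s) * b ≤ (1 - r) * a := by nlinarith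
  have h5 : ((1 - s) * b) ^ 2 ≤ ((1 - r) * a) ^ 2 :=
    pow_le_pow_left₀ (by nlinarith) h4 2
  have h6 : 0 < 1 - s := by linarith
  rw [pker, pker, n1, n2, ← ha, ← hb]
  rw [div_mul_div_comm, div_le_div_iff₀ (by positivity) (by positivity)]
  have e1 : (1 - s ^ 2) * ((1 - s) * (1 + r) * b ^ 2) = (1 + s) * (1 + r) * ((1 - s) * b) ^ 2 := by
    ring
  have e2 : (1 + s) * (1 - r) * (1 - r ^ 2) * a ^ 2 = (1 + s) * (1 + r) * ((1 - r) * a) ^ 2 := by
    ring
  rw [e1, e2]
  exact mul_le_mul_of_nonneg_left h5 (by positivity)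

/-- Harnack's inequality along radii -/
lemma harnack {D : ℂ → ℂ} (hD : DifferentiableOn ℂ D disc) (h0 : ∀ z ∈ disc, 0 ≤ (D z).re)
    {r s : ℝ} (hr : 0 ≤ r) (hrs : r ≤ s) (hs : s < 1) (ζ : T) :
    (D ((s : ℂ) * pt ζ)).re ≤
      ((1 + s) * (1 - r)) / ((1 - s) * (1 + r)) * (D ((r : ℂ) * pt ζ)).re := by
  have hs0 : 0 ≤ s := hr.trans hrs
  have m1 : (s : ℂ) * pt ζ ∈ disc := re1_mem hs0 hs ζ
  have m2 : (r : ℂ) * pt ζ ∈ disc := re1_mem hr (by linarith) ζ
  have key : ∀ n, (D (rad n * ((s : ℂ) * pt ζ))).re ≤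
      ((1 + s) * (1 - r)) / ((1 - s) * (1 + r)) * (D (rad n * ((r : ℂ) * pt ζ))).re := by
    intro n
    rw [poisson' hD (rad_mem n) m1, poisson' hD (rad_mem n) m2, ← integral_const_mul]
    have hc := circ_cont_re hD (rad_mem n)
    apply integral_mono (cont_intR ((pker_cont m1).mul hc))
      (cont_intR (continuous_const.mul ((pker_cont m2).mul hc)))
    intro t
    show pker ((s : ℂ) * pt ζ) t * (D (rad n * pt t)).re ≤
      ((1 + s) * (1 - r)) / ((1 - s) * (1 + r)) *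
        (pker ((r : ℂ) * pt ζ) t * (D (rad n * pt t)).re)
    rw [← mul_assoc]
    exact mul_le_mul_of_nonneg_right (pker_compare hr hrs hs ζ t) (h0 _ (pt_mem (rad_mem n) t))
  have hlim : ∀ z ∈ disc, Tendsto (fun n => (D (rad n * z)).re) atTop (𝓝 (D z).re) := by
    intro z hz
    have hc : ContinuousAt D z := (hD.differentiableAt (isOpen_ball.mem_nhds hz)).continuousAt
    have h3 : Tendsto (fun n => (rad n : ℂ) * z) atTop (𝓝 z) := by
      have := (ofReal_tendsto.comp rad_tendsto).mul_const z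
      rw [one_mul] at this
      exact this
    exact (Complex.continuous_re.tendsto _).comp (hc.tendsto.comp h3)
  exact le_of_tendsto_of_tendsto' (hlim _ m1) ((hlim _ m2).const_mul _) key

/-- the mass of a positive harmonic function on an arc is controlled by its value at the
point above the arc -/
lemma arc_mass {D : ℂ → ℂ} (hD : DifferentiableOn ℂ D disc) (h0 : ∀ z ∈ disc, 0 ≤ (D z).re)
    {s : ℝ} (hs0 : 0 < s) (hs1 : s < 1) {r : ℝ} (hr : r ∈ Ioo (0 : ℝ) 1)
    (hr1 : 1 - s ≤ r * (1 - s / 2)) (ζ : T) :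
    ∫ t in {t | ‖pt t - pt ζ‖ < s}, (D (r * pt t)).re ∂mu ≤
      8 * s * (D (((1 - s : ℝ) : ℂ) * pt ζ)).re := by
  set ρ : ℝ := (1 - s) / r with hρ
  have hr0 := hr.1
  have hρ0 : 0 < ρ := by rw [hρ]; apply div_pos _ hr0; linarith
  have hρ1 : ρ ≤ 1 - s / 2 := by rw [hρ, div_le_iff₀ hr0]; linarith
  have hρ2 : 1 - s ≤ ρ := by
    rw [hρ, le_div_iff₀ hr0]
    have := hr.2
    nlinarith
  have hm : (ρ : ℂ) * pt ζ ∈ disc := re1_mem hρ0.le (by linarith) ζ
  have n1 : ‖(ρ : ℂ) * pt ζ‖ = ρ := by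
    rw [norm_mul, pt_norm, mul_one, Complex.norm_real, Real.norm_of_nonneg hρ0.le]
  have hrc : (r : ℂ) ≠ 0 := by exact_mod_cast hr0.ne'
  have e1 : ((1 - s : ℝ) : ℂ) * pt ζ = (r : ℂ) * ((ρ : ℂ) * pt ζ) := by
    rw [hρ]; push_cast; field_simp
  rw [e1, poisson' hD hr hm]
  have hc := circ_cont_re hD hr
  have hS : MeasurableSet {t : T | ‖pt t - pt ζ‖ < s} :=
    (isOpen_lt (pt_cont.sub continuous_const).norm continuous_const).measurableSet
  have i1 : Integrable (fun t : T => (D (r * pt t)).re) mu := cont_intR hc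
  have i2 : Integrable (fun t : T => pker ((ρ : ℂ) * pt ζ) t * (D (r * pt t)).re) mu :=
    cont_intR ((pker_cont hm).mul hc)
  have h1 : ∫ t in {t | ‖pt t - pt ζ‖ < s}, (D (r * pt t)).re ∂mu ≤
      ∫ t in {t | ‖pt t - pt ζ‖ < s}, 8 * s * (pker ((ρ : ℂ) * pt ζ) t * (D (r * pt t)).re) ∂mu := by
    apply setIntegral_mono_on i1.integrableOn (i2.const_mul _).integrableOn hS
    intro t ht
    have ht' : ‖pt t - pt ζ‖ < s := ht
    have h2 : ‖pt t - (ρ : ℂ) * pt ζ‖ ≤ 2 * s := by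
      have e2 : pt t - (ρ : ℂ) * pt ζ = (pt t - pt ζ) + ((1 - ρ : ℝ) : ℂ) * pt ζ := by
        push_cast; ring
      rw [e2]
      refine (norm_add_le _ _).trans ?_
      rw [norm_mul, pt_norm, mul_one, Complex.norm_real, Real.norm_of_nonneg (by linarith)]
      linarith
    have h3 : 1 - ρ ≤ ‖pt t - (ρ : ℂ) * pt ζ‖ := by
      have := pt_sub_ge (z := (ρ : ℂ) * pt ζ) t
      rwa [n1] at this
    have h4 : 0 < ‖pt t - (ρ : ℂ) * pt ζ‖ := by linarith
    have h5 : 1 ≤ 8 * s * pker ((ρ : ℂ) * pt ζ) t := by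
      rw [pker, n1, mul_div_assoc', le_div_iff₀ (by positivity)]
      have h6 : ‖pt t - (ρ : ℂ) * pt ζ‖ ^ 2 ≤ (2 * s) ^ 2 := pow_le_pow_left₀ h4.le h2 2
      have h8 : s / 2 ≤ 1 - ρ ^ 2 := by nlinarith
      have h9 : 8 * s * (s / 2) ≤ 8 * s * (1 - ρ ^ 2) :=
        mul_le_mul_of_nonneg_left h8 (by positivity)
      nlinarith
    have h7 := h0 _ (pt_mem hr t)
    nlinarith
  refine h1.trans ?_
  rw [integral_const_mul]
  apply mul_le_mul_of_nonneg_left _ (by positivity)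
  apply setIntegral_le_integral i2
  exact Eventually.of_forall fun t => mul_nonneg (pker_nonneg hm t) (h0 _ (pt_mem hr t))

/-- tails of integrable functions -/
lemma tail_small {α : Type*} [MeasurableSpace α] {ν : Measure α} {w : α → ℝ}
    (hw : Integrable w ν) {ε : ℝ} (hε : 0 < ε) :
    ∃ N : ℕ, ∫ a, max (|w a| - N) 0 ∂ν ≤ ε := by
  have h1 : Tendsto (fun N : ℕ => ∫ a, max (|w a| - N) 0 ∂ν) atTop (𝓝 (∫ _a, (0 : ℝ) ∂ν)) := by
    apply tendsto_integral_of_dominated_convergence (fun a => |w a|)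
    · intro N
      exact ((hw.1.norm.aemeasurable.sub_const _).max aemeasurable_const).aestronglyMeasurable
    · exact hw.abs
    · intro N
      refine Eventually.of_forall fun a => ?_
      rw [Real.norm_of_nonneg (le_max_right _ _)]
      apply max_le _ (abs_nonneg _)
      have : (0 : ℝ) ≤ N := Nat.cast_nonneg N
      linarith
    · refine Eventually.of_forall fun a => ?_
      refine tendsto_const_nhds.congr' ?_
      obtain ⟨M, hM⟩ := exists_nat_ge |w a|
      filter_upwards [eventually_ge_atTop M] with N hN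
      symm
      apply max_eq_right
      have : (M : ℝ) ≤ N := Nat.cast_le.2 hN
      linarith
  rw [integral_zero] at h1
  exact ((h1.eventually (gt_mem_nhds hε)).exists).imp fun N hN => hN.le

lemma tail_int {α : Type*} [MeasurableSpace α] {ν : Measure α} {w : α → ℝ}
    (hw : Integrable w ν) (N : ℕ) : Integrable (fun a => max (|w a| - N) 0) ν := by
  refine hw.abs.mono ?_ ?_
  · exact ((hw.1.norm.aemeasurable.sub_const _).max aemeasurable_const).aestronglyMeasurable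
  · refine Eventually.of_forall fun a => ?_
    rw [Real.norm_of_nonneg (le_max_right _ _), Real.norm_of_nonneg (abs_nonneg _)]
    apply max_le _ (abs_nonneg _)
    have : (0 : ℝ) ≤ N := Nat.cast_nonneg N
    linarith

/-- Poisson integrals grow slower than the kernel -/
lemma tail_bound {w : T → ℝ} (hw : Integrable w mu) {z : ℂ} (hz : z ∈ disc) (N : ℕ) :
    (1 - ‖z‖) * ∫ t, pker z t * |w t| ∂mu ≤
      (1 - ‖z‖) * N + 2 * ∫ t, max (|w t| - N) 0 ∂mu := by
  have hz1 := md.1 hz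
  have h1 : 0 < 1 - ‖z‖ := by linarith
  have i1 := pker_mul_int hz hw.abs
  have i2 := tail_int hw N
  have h2 : ∫ t, pker z t * |w t| ∂mu ≤
      ∫ t, (pker z t * N + 2 / (1 - ‖z‖) * max (|w t| - N) 0) ∂mu := by
    apply integral_mono i1 ((pker_mul_int hz (integrable_const (N : ℝ))).add (i2.const_mul _))
    intro t
    have h3 := pker_nonneg hz t
    have h4 := pker_le hz t
    have h5 : |w t| ≤ N + max (|w t| - N) 0 := by
      have := le_max_left (|w t| - N) 0
      linarith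
    have h6 : (0 : ℝ) ≤ max (|w t| - N) 0 := le_max_right _ _
    show pker z t * |w t| ≤ pker z t * N + 2 / (1 - ‖z‖) * max (|w t| - N) 0
    calc pker z t * |w t| ≤ pker z t * (N + max (|w t| - N) 0) :=
          mul_le_mul_of_nonneg_left h5 h3
      _ ≤ _ := by
          rw [mul_add]
          gcongr
  rw [integral_add (pker_mul_int hz (integrable_const (N : ℝ))) (i2.const_mul _),
    integral_mul_const, int_pker hz, integral_const_mul, one_mul] at h2
  calc (1 - ‖z‖) * ∫ t, pker z t * |w t| ∂mu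
      ≤ (1 - ‖z‖) * (N + 2 / (1 - ‖z‖) * ∫ t, max (|w t| - N) 0 ∂mu) :=
        mul_le_mul_of_nonneg_left h2 h1.le
    _ = _ := by field_simp

lemma abs_pint {w : T → ℝ} {z : ℂ} (hz : z ∈ disc) :
    |∫ t, pker z t * w t ∂mu| ≤ ∫ t, pker z t * |w t| ∂mu := by
  refine (abs_integral_le_integral_abs).trans (le_of_eq ?_)
  congr 1; funext t
  rw [abs_mul, abs_of_nonneg (pker_nonneg hz t)]

/-- no point masses -/
lemma no_atom {w : T → ℝ} (hw : Integrable w mu) (ζ : T) {ε : ℝ} (hε : 0 < ε) :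
    ∀ᶠ r : ℝ in 𝓝[<] 1, (1 - r) * ∫ t, pker ((r : ℂ) * pt ζ) t * |w t| ∂mu ≤ ε := by
  obtain ⟨N, hN⟩ := tail_small hw (show 0 < ε / 4 by positivity)
  have h1 : ∀ᶠ r : ℝ in 𝓝[<] 1, (1 - r) * N < ε / 2 := by
    have h2 : Tendsto (fun r : ℝ => (1 - r) * N) (𝓝 1) (𝓝 ((1 - 1) * N)) :=
      ((continuous_const.sub continuous_id).mul continuous_const).tendsto 1
    rw [sub_self, zero_mul] at h2
    exact (h2.mono_left nhdsWithin_le_nhds).eventually (gt_mem_nhds (by positivity))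
  filter_upwards [h1, Ioo_mem_left] with r hr hr'
  have h3 := tail_bound hw (pt_mem hr' ζ) N
  have n1 : ‖(r : ℂ) * pt ζ‖ = r := by
    rw [norm_mul, pt_norm, mul_one, Complex.norm_real, Real.norm_of_nonneg hr'.1.le]
  rw [n1] at h3
  linarith

end Pool.Agent.Helper34.Wc
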