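import Pool.Agent.Helper34.Wc.Nec

set_option autoImplicit false

open MeasureTheory Filter Topology Complex Metric Set AddCircle
open scoped Interval ComplexConjugate ENNReal

namespace Pool.Agent.Helper34.Wc

open Dg

variable {d : ℕ}

/-- characterisation for `d' = 1` -/
theorem main {p q : ℝ≥0∞} (hd : 0 < d) (hp : p ≠ 0) (hq : q ≠ 0) {ψ : ℂ → ℂ}
    {φ : ℂ → Fin d → ℂ} (hφ : DifferentiableOn ℂ φ disc) (hφm : ∀ z ∈ disc, φ z ∈ PD d)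
    (hT : ∀ f : (Fin d → ℂ) → ℂ, MemH p f → MemH1 q (fun z => ψ z * f (φ z)))
    (hc : {ζ | Bad φ ζ ∧ ¬ Touch φ ζ}.Countable) :
    (∀ f : (Fin d → ℂ) → ℂ, IsOuter p f → IsOuter1 q (fun z => ψ z * f (φ z))) ↔
      IsOuter1 q ψ ∧ ∀ ζ, ¬ Touch φ ζ := by
  constructor
  · intro h
    exact nec hφ hφm h
  · rintro ⟨h1, h2⟩ f hf
    refine suff hd hp hq h1 hφ hφm ?_ h2 hf (hT f hf.1)
    have : {ζ | Bad φ ζ} = {ζ | Bad φ ζ ∧ ¬ Touch φ ζ} := by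
      ext ζ
      exact ⟨fun h => ⟨h, h2 ζ⟩, fun h => h.1⟩
    rw [this]
    exact hc

/-- two coordinates become unimodular at `ζ` -/
def Meet (φ : ℂ → Fin d → ℂ) (ζ : T) : Prop :=
  ∃ j k, j ≠ k ∧ Tendsto (fun r : ℝ => ‖φ ((r : ℂ) * pt ζ) j‖) (𝓝[<] 1) (𝓝 1) ∧
    Tendsto (fun r : ℝ => ‖φ ((r : ℂ) * pt ζ) k‖) (𝓝[<] 1) (𝓝 1)

lemma bad_touch {φ : ℂ → Fin d → ℂ} {M : ℝ}
    (hL : ∀ z ∈ disc, ∀ w ∈ disc, ‖φ z - φ w‖ ≤ M * ‖z - w‖) {ζ : T} (h : Bad φ ζ) :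
    Touch φ ζ := by
  have hM0 : 0 ≤ M := by
    by_contra hneg
    push Not at hneg
    have h0 : (0 : ℂ) ∈ disc := by simp
    have h1 : (1 / 2 : ℂ) ∈ disc := by rw [md]; norm_num
    have := hL _ h1 _ h0
    have h2 : 0 ≤ ‖φ (1 / 2) - φ 0‖ := norm_nonneg _
    have h3 : ‖(1 / 2 : ℂ) - 0‖ = 1 / 2 := by norm_num
    rw [h3] at this
    linarith
  have hex : ∀ n : ℕ, ∃ z ∈ disc, ‖z - pt ζ‖ < 1 / ((n : ℝ) + 1) ∧ ∃ jk : Fin d × Fin d,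
      jk.1 ≠ jk.2 ∧ 1 - 1 / ((n : ℝ) + 1) < ‖φ z jk.1‖ ∧ 1 - 1 / ((n : ℝ) + 1) < ‖φ z jk.2‖ := by
    intro n
    have hn : (0 : ℝ) < 1 / ((n : ℝ) + 1) := by positivity
    obtain ⟨z, hz, h1, j, k, h2, h3, h4⟩ := h (1 - 1 / ((n : ℝ) + 1)) (by linarith) _ hn
    exact ⟨z, hz, h1, (j, k), h2, h3, h4⟩
  choose z hz h1 jk h2 h3 h4 using hex
  obtain ⟨y, hy⟩ := Finite.exists_infinite_fiber jk
  have hinf : (jk ⁻¹' {y}).Infinite := Set.infinite_coe_iff.1 hy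
  have hd : ∀ (i : Fin d), (∀ n, jk n = y → 1 - 1 / ((n : ℝ) + 1) < ‖φ (z n) i‖) →
      AngDer φ i ζ := by
    intro i hi
    refine ⟨M, Eventually.frequently ?_⟩
    filter_upwards [Ioo_mem_left] with r hr
    have hzr := pt_mem hr ζ
    apply le_of_forall_pos_le_add
    intro ε hε
    obtain ⟨N, hN⟩ := exists_nat_gt ((M + 1) / ε)
    obtain ⟨n, hn1, hn2⟩ := hinf.exists_gt N
    have hn1' : jk n = y := hn1
    have h5 := hi n hn1'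
    have h6 := hL _ (hz n) _ hzr
    have h7 : ‖φ (z n) i - φ ((r : ℂ) * pt ζ) i‖ ≤ ‖φ (z n) - φ ((r : ℂ) * pt ζ)‖ := by
      have := norm_le_pi_norm (φ (z n) - φ ((r : ℂ) * pt ζ)) i
      simpa using this
    have h8 : ‖φ (z n) i‖ ≤ ‖φ (z n) i - φ ((r : ℂ) * pt ζ) i‖ + ‖φ ((r : ℂ) * pt ζ) i‖ := by
      have := norm_add_le (φ (z n) i - φ ((r : ℂ) * pt ζ) i) (φ ((r : ℂ) * pt ζ) i)
      simpa using this
    have h9 : ‖z n - (r : ℂ) * pt ζ‖ ≤ 1 / ((n : ℝ) + 1) + (1 - r) := by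
      have e1 : z n - (r : ℂ) * pt ζ = (z n - pt ζ) + ((1 - r : ℝ) : ℂ) * pt ζ := by
        push_cast; ring
      rw [e1]
      refine (norm_add_le _ _).trans ?_
      rw [norm_mul, pt_norm, mul_one, Complex.norm_real, Real.norm_of_nonneg (by linarith [hr.2])]
      linarith [h1 n]
    have h10 : M * ‖z n - (r : ℂ) * pt ζ‖ ≤ M * (1 / ((n : ℝ) + 1) + (1 - r)) :=
      mul_le_mul_of_nonneg_left h9 hM0
    have h11 : (M + 1) * (1 / ((n : ℝ) + 1)) ≤ ε := by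
      have h12 : (N : ℝ) < n := by exact_mod_cast hn2
      rw [mul_one_div, div_le_iff₀ (by positivity)]
      rw [div_lt_iff₀ hε] at hN
      nlinarith
    linarith
  refine ⟨y.1, y.2, ?_, hd _ ?_, hd _ ?_⟩
  · obtain ⟨n, hn⟩ := hinf.nonempty
    have hn' : jk n = y := hn
    rw [← hn']; exact h2 n
  · intro n hn
    rw [← hn]; exact h3 n
  · intro n hn
    rw [← hn]; exact h4 n

lemma angder_tendsto {φ : ℂ → Fin d → ℂ} (hφm : ∀ z ∈ disc, φ z ∈ PD d) {M : ℝ}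
    (hL : ∀ z ∈ disc, ∀ w ∈ disc, ‖φ z - φ w‖ ≤ M * ‖z - w‖) {ζ : T} (j : Fin d) :
    AngDer φ j ζ ↔ Tendsto (fun r : ℝ => ‖φ ((r : ℂ) * pt ζ) j‖) (𝓝[<] 1) (𝓝 1) := by
  have hM0 : 0 ≤ M := by
    by_contra hneg
    push Not at hneg
    have h0 : (0 : ℂ) ∈ disc := by simp
    have h1 : (1 / 2 : ℂ) ∈ disc := by rw [md]; norm_num
    have := hL _ h1 _ h0
    have h2 : 0 ≤ ‖φ (1 / 2) - φ 0‖ := norm_nonneg _
    have h3 : ‖(1 / 2 : ℂ) - 0‖ = 1 / 2 := by norm_num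
    rw [h3] at this
    linarith
  -- Lipschitz along the radius
  have hrad : ∀ r ∈ Ioo (0 : ℝ) 1, ∀ s ∈ Ioo (0 : ℝ) 1, r ≤ s →
      1 - ‖φ ((r : ℂ) * pt ζ) j‖ ≤ (1 - ‖φ ((s : ℂ) * pt ζ) j‖) + M * (1 - r) := by
    intro r hr s hs hrs
    have h6 := hL _ (pt_mem hs ζ) _ (pt_mem hr ζ)
    have h7 : ‖φ ((s : ℂ) * pt ζ) j - φ ((r : ℂ) * pt ζ) j‖ ≤
        ‖φ ((s : ℂ) * pt ζ) - φ ((r : ℂ) * pt ζ)‖ := by
      have := norm_le_pi_norm (φ ((s : ℂ) * pt ζ) - φ ((r : ℂ) * pt ζ)) j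
      simpa using this
    have h8 : ‖φ ((s : ℂ) * pt ζ) j‖ ≤
        ‖φ ((s : ℂ) * pt ζ) j - φ ((r : ℂ) * pt ζ) j‖ + ‖φ ((r : ℂ) * pt ζ) j‖ := by
      have := norm_add_le (φ ((s : ℂ) * pt ζ) j - φ ((r : ℂ) * pt ζ) j) (φ ((r : ℂ) * pt ζ) j)
      simpa using this
    have h9 : ‖(s : ℂ) * pt ζ - (r : ℂ) * pt ζ‖ ≤ 1 - r := by
      have e1 : (s : ℂ) * pt ζ - (r : ℂ) * pt ζ = ((s - r : ℝ) : ℂ) * pt ζ := by
        push_cast; ring
      rw [e1, norm_mul, pt_norm, mul_one, Complex.norm_real, Real.norm_of_nonneg (by linarith)]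
      linarith [hs.2]
    have h10 := mul_le_mul_of_nonneg_left h9 hM0
    linarith
  have hsmall : ∀ K : ℝ, Tendsto (fun r : ℝ => K * (1 - r)) (𝓝[<] 1) (𝓝 0) := by
    intro K
    have h1 : Tendsto (fun r : ℝ => K * (1 - r)) (𝓝 1) (𝓝 (K * (1 - 1))) :=
      (continuous_const.mul (continuous_const.sub continuous_id)).tendsto 1
    rw [sub_self, mul_zero] at h1
    exact h1.mono_left nhdsWithin_le_nhds
  constructor
  · rintro ⟨C, hC⟩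
    -- frequently small implies always bounded by the Lipschitz estimate
    have hall : ∀ r ∈ Ioo (0 : ℝ) 1, 1 - ‖φ ((r : ℂ) * pt ζ) j‖ ≤ M * (1 - r) := by
      intro r hr
      apply le_of_forall_pos_le_add
      intro ε hε
      have h1 := (hsmall C).eventually (gt_mem_nhds hε)
      have h2 : ∀ᶠ s : ℝ in 𝓝[<] 1, r < s :=
        (eventually_gt_nhds hr.2).filter_mono nhdsWithin_le_nhds
      obtain ⟨s, h3, ⟨h4, h5⟩, h6⟩ := (hC.and_eventually ((h1.and h2).and Ioo_mem_left)).exists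
      have := hrad r hr s h6 h5.le
      linarith
    have hsq : Tendsto (fun r : ℝ => 1 - M * (1 - r)) (𝓝[<] 1) (𝓝 1) := by
      have := (hsmall M).const_sub 1
      simpa using this
    refine tendsto_of_tendsto_of_tendsto_of_le_of_le' hsq tendsto_const_nhds ?_ ?_
    · filter_upwards [Ioo_mem_left] with r hr
      linarith [hall r hr]
    · filter_upwards [Ioo_mem_left] with r hr
      exact (hφm _ (pt_mem hr ζ) j).le
  · intro h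
    refine ⟨M, Eventually.frequently ?_⟩
    filter_upwards [Ioo_mem_left] with r hr
    apply le_of_forall_pos_le_add
    intro ε hε
    have h1 : ∀ᶠ s : ℝ in 𝓝[<] 1, 1 - ε < ‖φ ((s : ℂ) * pt ζ) j‖ :=
      h.eventually (lt_mem_nhds (by linarith))
    have h2 : ∀ᶠ s : ℝ in 𝓝[<] 1, r < s :=
      (eventually_gt_nhds hr.2).filter_mono nhdsWithin_le_nhds
    obtain ⟨s, ⟨h4, h5⟩, h6⟩ := ((h1.and h2).and Ioo_mem_left).exists
    have := hrad r hr s h6 h5.le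
    linarith

/-- characterisation for Lipschitz symbols -/
theorem main_lip {p q : ℝ≥0∞} (hd : 0 < d) (hp : p ≠ 0) (hq : q ≠ 0) {ψ : ℂ → ℂ}
    {φ : ℂ → Fin d → ℂ} (hφ : DifferentiableOn ℂ φ disc) (hφm : ∀ z ∈ disc, φ z ∈ PD d)
    (hT : ∀ f : (Fin d → ℂ) → ℂ, MemH p f → MemH1 q (fun z => ψ z * f (φ z)))
    {M : ℝ} (hL : ∀ z ∈ disc, ∀ w ∈ disc, ‖φ z - φ w‖ ≤ M * ‖z - w‖) :
    (∀ f : (Fin d → ℂ) → ℂ, IsOuter p f → IsOuter1 q (fun z => ψ z * f (φ z))) ↔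
      IsOuter1 q ψ ∧ ∀ ζ, ¬ Meet φ ζ := by
  rw [main hd hp hq hφ hφm hT]
  · apply and_congr_right
    intro _
    apply forall_congr'
    intro ζ
    apply not_congr
    unfold Touch Meet
    simp only [angder_tendsto hφm hL]
  · have : {ζ | Bad φ ζ ∧ ¬ Touch φ ζ} = ∅ := by
      ext ζ
      constructor
      · rintro ⟨h1, h2⟩
        exact absurd (bad_touch hL h1) h2
      · intro h; exact absurd h (notMem_empty _)
    rw [this]
    exact countable_empty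

end Pool.Agent.Helper34.Wc
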