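import Pool.Agent.Helper34.Wc.Poly

set_option autoImplicit false

open MeasureTheory Filter Topology Complex Metric Set AddCircle
open scoped Interval ComplexConjugate ENNReal

namespace Pool.Agent.Helper34.Wc

open Dg

variable {d : ℕ}

lemma tor_mem {r : ℝ} (hr : r ∈ Ioo (0 : ℝ) 1) (ζ : Fin d → T) : tor r ζ ∈ PD d := by
  intro i
  exact md.1 (pt_mem hr (ζ i))

lemma tor_cont {f : (Fin d → ℂ) → ℂ} (hf : DifferentiableOn ℂ f (PD d)) {r : ℝ}
    (hr : r ∈ Ioo (0 : ℝ) 1) : Continuous fun ζ : Fin d → T => f (tor r ζ) := by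
  refine hf.continuousOn.comp_continuous ?_ (tor_mem hr)
  exact continuous_pi fun i => continuous_const.mul (pt_cont.comp (continuous_apply i))

/-- data of an outer function -/
structure OutD (f : (Fin d → ℂ) → ℂ) (h E : (Fin d → T) → ℝ) (s : ℝ) : Prop where
  diff : DifferentiableOn ℂ f (PD d)
  s0 : 0 < s
  hint : Integrable h (mud d)
  rep : ∀ z ∈ PD d, ‖f z‖ = Real.exp (∫ ζ, PK z ζ * h ζ ∂(mud d))
  E0 : ∀ ζ, 0 ≤ E ζ
  Eint : Integrable E (mud d)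
  Eh : ∀ᵐ ζ ∂(mud d), 0 < E ζ ∧ s * h ζ = Real.log (E ζ)

lemma exists_exponent' {p : ℝ≥0∞} (hp : p ≠ 0) {f : (Fin d → ℂ) → ℂ} (hf : MemH p f) :
    ∃ s : ℝ, 0 < s ∧ ∃ C : ℝ, ∀ r ∈ Ioo (0 : ℝ) 1, ∫ ζ, ‖f (tor r ζ)‖ ^ s ∂(mud d) ≤ C := by
  by_cases hqt : p = ∞
  · obtain ⟨M, hM⟩ := hf.2.1 hqt
    refine ⟨1, one_pos, M, fun r hr => ?_⟩
    have h1 : ∫ ζ, ‖f (tor r ζ)‖ ^ (1 : ℝ) ∂(mud d) ≤ ∫ _ζ, M ∂(mud d) := by
      apply integral_mono
      · simp_rw [Real.rpow_one]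
        exact contT_int (tor_cont hf.1 hr).norm
      · exact integrable_const _
      · intro ζ
        show ‖f (tor r ζ)‖ ^ (1 : ℝ) ≤ M
        rw [Real.rpow_one]
        exact hM _ (tor_mem hr ζ)
    simpa using h1
  · obtain ⟨C, hC⟩ := hf.2.2 hqt
    exact ⟨p.toReal, ENNReal.toReal_pos hp hqt, C, hC⟩

lemma IsOuter.data {p : ℝ≥0∞} (hp : p ≠ 0) {f : (Fin d → ℂ) → ℂ} (hf : IsOuter p f) :
    ∃ h E s, OutD f h E s := by
  obtain ⟨hm, g, hg, hgi, hrep⟩ := hf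
  obtain ⟨s, hs, C, hC⟩ := exists_exponent' hp hm
  have hX : ∀ n, Integrable (fun ζ => ‖f (tor (rad n) ζ)‖ ^ s) (mud d) := fun n =>
    contT_int ((tor_cont hm.1 (rad_mem n)).norm.rpow_const fun _ => Or.inr hs.le)
  obtain ⟨f1, f2, f3⟩ := fatouR (Y := fun ζ => ‖g ζ‖ ^ s) hX
    (fun n => Eventually.of_forall fun ζ => Real.rpow_nonneg (norm_nonneg _) _) (by
      filter_upwards [hg] with ζ hζ
      exact ((hζ.2.comp rad_tendsto).norm).rpow_const (Or.inr hs.le)) (fun n => hC _ (rad_mem n))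
  refine ⟨fun ζ => Real.log ‖g ζ‖, fun ζ => ‖g ζ‖ ^ s, s, hm.1, hs, hgi, hrep, fun ζ =>
    Real.rpow_nonneg (norm_nonneg _) _, f1, ?_⟩
  filter_upwards [hg] with ζ hζ
  have h1 : 0 < ‖g ζ‖ := norm_pos_iff.2 hζ.1
  exact ⟨Real.rpow_pos_of_pos h1 s, (Real.log_rpow h1 s).symm⟩

lemma aff_bound {x : ℝ} (hx1 : -(1 / 4) ≤ x) (hx2 : x ≤ 3 / 4) {l : ℂ} (hl : l ∈ disc) :
    3 / 32 * ‖1 - l‖ ^ 2 ≤ 1 - ‖(x : ℂ) + l / 4‖ := by
  have hl1 := md.1 hl
  have hln := norm_nonneg l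
  set y := l.re with hy
  have hy1 : |y| ≤ 1 := (Complex.abs_re_le_norm l).trans hl1.le
  obtain ⟨hy2, hy3⟩ := abs_le.1 hy1
  have hsq : ‖l‖ ^ 2 = l.re ^ 2 + l.im ^ 2 := by
    rw [← Complex.normSq_eq_norm_sq, Complex.normSq_apply]; ring
  have hl2 : ‖l‖ ^ 2 ≤ 1 := by nlinarith
  have e1 : ‖(x : ℂ) + l / 4‖ ^ 2 = x ^ 2 + x / 2 * y + ‖l‖ ^ 2 / 16 := by
    rw [← Complex.normSq_eq_norm_sq, Complex.normSq_apply, hsq]
    have a1 : ((x : ℂ) + l / 4).re = x + l.re / 4 := by simp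
    have a2 : ((x : ℂ) + l / 4).im = l.im / 4 := by simp
    rw [a1, a2, hy]; ring
  have e2 : ‖1 - l‖ ^ 2 = 1 - 2 * y + ‖l‖ ^ 2 := by
    rw [← Complex.normSq_eq_norm_sq, Complex.normSq_apply, hsq]
    simp only [Complex.sub_re, Complex.one_re, Complex.sub_im, Complex.one_im]
    ring
  have h1 : ‖(x : ℂ) + l / 4‖ ^ 2 ≤ 1 - 3 / 8 * (1 - y) := by
    rw [e1]
    have h2 : (x + 1 / 4) ^ 2 ≤ 1 := by nlinarith
    have h3 : (x - 1 / 4) ^ 2 ≤ 1 / 4 := by nlinarith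
    nlinarith
  have hn := norm_nonneg ((x : ℂ) + l / 4)
  have h4 : ‖(x : ℂ) + l / 4‖ ≤ 1 := by nlinarith
  have h5 : 1 - ‖(x : ℂ) + l / 4‖ ^ 2 ≤ 2 * (1 - ‖(x : ℂ) + l / 4‖) := by nlinarith
  rw [e2]
  nlinarith

lemma exists_phase (a : ℂ) : ∃ η : ℂ, ‖η‖ = 1 ∧ a = ‖a‖ * η := by
  by_cases h : a = 0
  · exact ⟨1, by simp, by simp [h]⟩
  · refine ⟨a / ‖a‖, ?_, ?_⟩
    · rw [norm_div, Complex.norm_real, norm_norm, div_self (norm_ne_zero_iff.2 h)]
    · have : (‖a‖ : ℂ) ≠ 0 := by exact_mod_cast norm_ne_zero_iff.2 h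
      field_simp

lemma logE {E Y : ℝ} (hE : 0 < E) (hY : 0 < Y) : Real.log E ≤ E / Y + Real.log Y - 1 := by
  have h1 := Real.log_le_sub_one_of_pos (div_pos hE hY)
  rw [Real.log_div hE.ne' hY.ne'] at h1
  linarith

/-- lower bound for an outer function through an analytic disc -/
lemma disc_ineq {f : (Fin d → ℂ) → ℂ} {h E : (Fin d → T) → ℝ} {s : ℝ} (o : OutD f h E s)
    {a : Fin d → ℂ} (ha : a ∈ PD d) (i : Fin d) {m κ : ℝ} (hm0 : 0 < m) (hm1 : m ≤ 1)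
    (hj : ∀ j, j ≠ i → m ≤ 1 - ‖a j‖) (hκ0 : 0 < κ) (hκ1 : κ ≤ 1 / 4)
    (hκm : 4 * (κ * m) ≤ 1 - ‖a i‖) (N : ℕ) :
    -(s * Real.log ‖f a‖) ≤ (2 / m) * (1 + Real.log (1 + 2 / κ * ∫ ζ, E ζ ∂(mud d)) +
      d * Real.log (64 / 3) +
      s * (N + 8 ^ d * (2 / κ * ∫ ζ, max (|h ζ| - N) 0 ∂(mud d)))) := by
  classical
  choose η hη1 hη2 using fun j => exists_phase (a j)
  set ρ : ℝ := 1 - m with hρ
  have hρ0 : 0 ≤ ρ := by linarith
  have hρ1 : ρ < 1 := by linarith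
  set k : Fin d → ℝ := fun j => if j = i then κ else 1 / 4 with hk
  have hki : k i = κ := by simp [hk]
  have hkj : ∀ j, j ≠ i → k j = 1 / 4 := fun j hj => by simp [hk, hj]
  set x : Fin d → ℝ := fun j => ‖a j‖ - k j * ρ with hx
  set Φ : ℂ → Fin d → ℂ := fun l j => η j * ((x j : ℂ) + k j * l) with hΦ
  have hΦn : ∀ l j, ‖Φ l j‖ = ‖(x j : ℂ) + k j * l‖ := by
    intro l j
    rw [hΦ, norm_mul, hη1, one_mul]
  have hIE : 0 ≤ ∫ ζ, E ζ ∂(mud d) := integral_nonneg o.E0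
  -- coordinates different from i
  have hxj : ∀ j, j ≠ i → -(1 / 4) ≤ x j ∧ x j ≤ 3 / 4 := by
    intro j hji
    have h1 := hj j hji
    have h2 := norm_nonneg (a j)
    rw [hx]
    simp only [hkj j hji]
    constructor <;> nlinarith
  have hΦj : ∀ l ∈ disc, ∀ j, j ≠ i → 3 / 32 * ‖1 - l‖ ^ 2 ≤ 1 - ‖Φ l j‖ := by
    intro l hl j hji
    rw [hΦn, hkj j hji]
    have e1 : (x j : ℂ) + ((1 / 4 : ℝ) : ℂ) * l = (x j : ℂ) + l / 4 := by push_cast; ring
    rw [e1]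
    exact aff_bound (hxj j hji).1 (hxj j hji).2 hl
  have hxi : |x i| + κ < 1 := by
    have h1 := norm_nonneg (a i)
    rw [hx]
    simp only [hki]
    rcases le_total 0 (‖a i‖ - κ * ρ) with h2 | h2
    · rw [abs_of_nonneg h2, hρ]
      have := ha i
      nlinarith
    · rw [abs_of_nonpos h2]
      nlinarith
  have hΦi : ∀ l ∈ disc, ‖Φ l i‖ < 1 := by
    intro l hl
    have hl1 := md.1 hl
    rw [hΦn, hki]
    calc ‖(x i : ℂ) + κ * l‖ ≤ ‖(x i : ℂ)‖ + ‖(κ : ℂ) * l‖ := norm_add_le _ _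
      _ = |x i| + κ * ‖l‖ := by
          rw [norm_mul, Complex.norm_real, Complex.norm_real, Real.norm_eq_abs,
            Real.norm_of_nonneg hκ0.le]
      _ < 1 := by
          have := norm_nonneg l
          nlinarith
  have h1l : ∀ l ∈ disc, 0 < ‖1 - l‖ ∧ ‖1 - l‖ < 2 := by
    intro l hl
    have hl1 := md.1 hl
    constructor
    · rw [norm_pos_iff]
      intro h0
      have : l = 1 := by linear_combination -h0
      rw [this, norm_one] at hl1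
      exact lt_irrefl _ hl1
    · calc ‖1 - l‖ ≤ ‖(1 : ℂ)‖ + ‖l‖ := norm_sub_le _ _
        _ < 2 := by rw [norm_one]; linarith
  have hΦm : ∀ l ∈ disc, Φ l ∈ PD d := by
    intro l hl j
    by_cases hji : j = i
    · rw [hji]; exact hΦi l hl
    · have h2 := hΦj l hl j hji
      have h3 := (h1l l hl).1
      have : 0 < 3 / 32 * ‖1 - l‖ ^ 2 := by positivity
      linarith
  have hΦd : ∀ j, Differentiable ℂ (fun l => Φ l j) := by
    intro j
    simp only [hΦ]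
    fun_prop
  have hΦD : DifferentiableOn ℂ Φ disc := by
    rw [differentiableOn_pi]
    intro j
    exact (hΦd j).differentiableOn
  have hfne : ∀ z ∈ PD d, f z ≠ 0 := by
    intro z hz h0
    have := o.rep z hz
    rw [h0, norm_zero] at this
    exact absurd this.symm (Real.exp_ne_zero _)
  obtain ⟨Λ, hΛ, hΛe⟩ := exists_log (F := fun l => f (Φ l))
    (o.diff.comp hΦD hΦm) (fun l hl => hfne _ (hΦm l hl))
  obtain ⟨H, hH, hHe⟩ := hergG o.Eint ((measurable_pi_apply i).aemeasurable (μ := mud d))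
  set Y : ℝ := 1 + 2 / κ * ∫ ζ, E ζ ∂(mud d) with hY
  have hY1 : 1 ≤ Y := by
    have : 0 ≤ 2 / κ * ∫ ζ, E ζ ∂(mud d) := mul_nonneg (by positivity) hIE
    linarith
  have hY0 : 0 < Y := by linarith
  have hlogY : 0 ≤ Real.log Y := Real.log_nonneg hY1
  set D : ℂ → ℂ := fun l => ((1 / Y : ℝ) : ℂ) * H (Φ l i) +
    ((Real.log Y + d * Real.log (64 / 3) : ℝ) : ℂ) -
    ((2 * d : ℝ) : ℂ) * Complex.log (1 - l) - (s : ℂ) * Λ l with hD
  have hDre : ∀ l ∈ disc, (D l).re = 1 / Y * (∫ ζ, pker (Φ l i) (ζ i) * E ζ ∂(mud d)) +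
      (Real.log Y + d * Real.log (64 / 3)) - 2 * d * Real.log ‖1 - l‖ -
      s * Real.log ‖f (Φ l)‖ := by
    intro l hl
    rw [hD]
    simp only [Complex.sub_re, Complex.add_re, Complex.re_ofReal_mul, Complex.ofReal_re]
    rw [hHe _ (md.2 (hΦi l hl)), hΛe l hl, Complex.log_re]
  have hDd : DifferentiableOn ℂ D disc := by
    have h1 : DifferentiableOn ℂ (fun l => H (Φ l i)) disc :=
      hH.comp (hΦd i).differentiableOn (fun l hl => md.2 (hΦi l hl))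
    have h2 : DifferentiableOn ℂ (fun l : ℂ => Complex.log (1 - l)) disc := by
      refine DifferentiableOn.clog (by fun_prop) ?_
      intro l hl
      left
      have hl1 := md.1 hl
      have := (abs_le.1 (Complex.abs_re_le_norm l)).2
      simp only [Complex.sub_re, Complex.one_re]
      linarith
    exact (((h1.const_mul _).add_const _).sub (h2.const_mul _)).sub (hΛ.const_mul _)
  -- logarithm of the kernel bound
  have hβ : ∀ l ∈ disc, 0 ≤ Real.log (64 / 3) - 2 * Real.log ‖1 - l‖ := by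
    intro l hl
    obtain ⟨h2, h3⟩ := h1l l hl
    have h4 : Real.log ‖1 - l‖ ≤ Real.log 2 := Real.log_le_log h2 h3.le
    have h5 : Real.log (64 / 3) ≥ Real.log 4 := Real.log_le_log (by norm_num) (by norm_num)
    have h6 : Real.log 4 = 2 * Real.log 2 := by
      rw [show (4 : ℝ) = 2 ^ 2 by norm_num, Real.log_pow]; norm_num
    linarith
  have hpE : ∀ l ∈ disc, 0 ≤ ∫ ζ, pker (Φ l i) (ζ i) * E ζ ∂(mud d) := by
    intro l hl
    exact integral_nonneg fun ζ => mul_nonneg (pker_nonneg (md.2 (hΦi l hl)) _) (o.E0 ζ)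
  have hD0 : ∀ l ∈ disc, 0 ≤ (D l).re := by
    intro l hl
    rw [hDre l hl]
    obtain ⟨h2, h3⟩ := h1l l hl
    set ρ' : ℝ := 1 - 3 / 32 * ‖1 - l‖ ^ 2 with hρ'
    have hρ'0 : 0 ≤ ρ' := by rw [hρ']; nlinarith
    have hρ'1 : ρ' < 1 := by rw [hρ']; nlinarith
    have hβe : 2 / (1 - ρ') = 64 / 3 / ‖1 - l‖ ^ 2 := by
      rw [hρ']; field_simp; ring
    have hβ0 : 0 < 2 / (1 - ρ') := by
      apply div_pos two_pos; linarith
    set B : ℝ := (2 / (1 - ρ')) ^ d with hB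
    have hB0 : 0 < B := pow_pos hβ0 d
    have hlogB : Real.log B = d * (Real.log (64 / 3) - 2 * Real.log ‖1 - l‖) := by
      rw [hB, Real.log_pow, hβe, Real.log_div (by norm_num) (by positivity), Real.log_pow]
      norm_num
    have hzm := hΦm l hl
    rw [o.rep _ hzm, Real.log_exp]
    have hi1 : Integrable (fun ζ => s * (PK (Φ l) ζ * h ζ)) (mud d) :=
      (PK_mul_int hzm o.hint).const_mul s
    have hi2 : Integrable (fun ζ => PK (Φ l) ζ * (E ζ / (Y * B))) (mud d) :=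
      PK_mul_int hzm (o.Eint.div_const _)
    have hi3 : Integrable (fun ζ => PK (Φ l) ζ * (Real.log (Y * B) - 1)) (mud d) :=
      PK_mul_int hzm (integrable_const _)
    have hle : ∫ ζ, s * (PK (Φ l) ζ * h ζ) ∂(mud d) ≤
        ∫ ζ, (PK (Φ l) ζ * (E ζ / (Y * B)) + PK (Φ l) ζ * (Real.log (Y * B) - 1)) ∂(mud d) := by
      apply integral_mono_ae hi1 (hi2.add hi3)
      filter_upwards [o.Eh] with ζ hζ
      have h4 := logE hζ.1 (mul_pos hY0 hB0)
      have h5 := PK_nonneg hzm ζ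
      have h6 : s * (PK (Φ l) ζ * h ζ) = PK (Φ l) ζ * Real.log (E ζ) := by rw [← hζ.2]; ring
      show s * (PK (Φ l) ζ * h ζ) ≤
        PK (Φ l) ζ * (E ζ / (Y * B)) + PK (Φ l) ζ * (Real.log (Y * B) - 1)
      rw [h6, ← mul_add]
      apply mul_le_mul_of_nonneg_left _ h5
      linarith
    rw [integral_const_mul, integral_add hi2 hi3, integral_mul_const, PK_int hzm, one_mul] at hle
    have hle2 : ∫ ζ, PK (Φ l) ζ * (E ζ / (Y * B)) ∂(mud d) ≤
        1 / Y * ∫ ζ, pker (Φ l i) (ζ i) * E ζ ∂(mud d) := by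
      rw [← integral_const_mul]
      apply integral_mono hi2 ((pker_coord_int (md.2 (hΦi l hl)) i o.Eint).const_mul _)
      intro ζ
      show PK (Φ l) ζ * (E ζ / (Y * B)) ≤ 1 / Y * (pker (Φ l i) (ζ i) * E ζ)
      have h4 := PK_le_one hzm i hρ'0 hρ'1 (fun j hji => by
        have := hΦj l hl j hji
        rw [hρ']; linarith) ζ
      rw [← hB] at h4
      have h5 : 0 ≤ E ζ / (Y * B) := div_nonneg (o.E0 ζ) (by positivity)
      calc PK (Φ l) ζ * (E ζ / (Y * B)) ≤ (B * pker (Φ l i) (ζ i)) * (E ζ / (Y * B)) :=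
            mul_le_mul_of_nonneg_right h4 h5
        _ = _ := by field_simp
    rw [Real.log_mul hY0.ne' hB0.ne', hlogB] at hle
    have e3 : (d : ℝ) * (Real.log (64 / 3) - 2 * Real.log ‖1 - l‖) =
        d * Real.log (64 / 3) - 2 * d * Real.log ‖1 - l‖ := by ring
    rw [e3] at hle
    linarith
  -- Harnack
  have hpt0 : pt (0 : T) = 1 := by rw [pt_eq]; simp [e]
  have hhar := harnack hDd hD0 (le_refl (0 : ℝ)) hρ0 hρ1 (0 : T)
  rw [hpt0] at hhar
  simp only [mul_one, Complex.ofReal_zero, sub_zero, add_zero] at hhar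
  have hρd : (ρ : ℂ) ∈ disc := by
    rw [md, Complex.norm_real, Real.norm_of_nonneg hρ0]; exact hρ1
  have h0d : (0 : ℂ) ∈ disc := by simp
  have hΦρ : Φ ρ = a := by
    funext j
    rw [hΦ]
    simp only [hx]
    rw [hη2 j]
    have : ‖((‖a j‖ : ℝ) : ℂ) * η j‖ = ‖a j‖ := by
      rw [norm_mul, hη1, mul_one, Complex.norm_real, norm_norm]
    rw [this]
    push_cast
    ring
  have hlow : -(s * Real.log ‖f a‖) ≤ (D ρ).re := by
    rw [hDre _ hρd, hΦρ]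
    have h4 := hpE _ hρd
    rw [hΦρ] at h4
    have h5 := hβ _ hρd
    have h6 : 0 ≤ 1 / Y * ∫ ζ, pker (a i) (ζ i) * E ζ ∂(mud d) := mul_nonneg (by positivity) h4
    have := (Nat.cast_nonneg d : (0 : ℝ) ≤ d)
    nlinarith
  have hb := hΦm 0 h0d
  have hbi : κ ≤ 1 - ‖Φ 0 i‖ := by
    rw [hΦn, mul_zero, add_zero, Complex.norm_real, Real.norm_eq_abs]
    rw [hx]
    simp only [hki]
    rcases le_total 0 (‖a i‖ - κ * ρ) with h2 | h2
    · rw [abs_of_nonneg h2, hρ]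
      nlinarith
    · rw [abs_of_nonpos h2]
      have := norm_nonneg (a i)
      nlinarith
  have hbj : ∀ j, j ≠ i → ‖Φ 0 j‖ ≤ 3 / 4 := by
    intro j hji
    rw [hΦn, mul_zero, add_zero, Complex.norm_real, Real.norm_eq_abs, abs_le]
    obtain ⟨h2, h3⟩ := hxj j hji
    constructor <;> linarith
  have hkb : ∀ t, pker (Φ 0 i) t ≤ 2 / κ := by
    intro t
    have := pker_le' (z := Φ 0 i) (ρ := 1 - κ) (by linarith) (by linarith) t
    rwa [sub_sub_cancel] at this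
  have hup0 : (D 0).re ≤ 1 + Real.log Y + d * Real.log (64 / 3) +
      s * (N + 8 ^ d * (2 / κ * ∫ ζ, max (|h ζ| - N) 0 ∂(mud d))) := by
    rw [hDre 0 h0d]
    have h4 : 1 / Y * ∫ ζ, pker (Φ 0 i) (ζ i) * E ζ ∂(mud d) ≤ 1 := by
      have h5 : ∫ ζ, pker (Φ 0 i) (ζ i) * E ζ ∂(mud d) ≤ 2 / κ * ∫ ζ, E ζ ∂(mud d) := by
        rw [← integral_const_mul]
        apply integral_mono (pker_coord_int (md.2 (hΦi 0 h0d)) i o.Eint) (o.Eint.const_mul _)
        intro ζ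
        exact mul_le_mul_of_nonneg_right (hkb _) (o.E0 ζ)
      rw [div_mul_eq_mul_div, one_mul, div_le_one hY0]
      linarith
    have h6 : |Real.log ‖f (Φ 0)‖| ≤ N + 8 ^ d * (2 / κ * ∫ ζ, max (|h ζ| - N) 0 ∂(mud d)) := by
      rw [o.rep _ hb, Real.log_exp]
      have h7 := log_bound hb i (ρ := 3 / 4) (by norm_num) (by norm_num) hbj o.hint N
      rw [show (2 : ℝ) / (1 - 3 / 4) = 8 by norm_num] at h7
      refine h7.trans ?_
      have h8 : ∫ ζ, pker (Φ 0 i) (ζ i) * max (|h ζ| - N) 0 ∂(mud d) ≤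
          2 / κ * ∫ ζ, max (|h ζ| - N) 0 ∂(mud d) := by
        rw [← integral_const_mul]
        apply integral_mono (pker_coord_int (md.2 (hΦi 0 h0d)) i (tail_int o.hint N))
          ((tail_int o.hint N).const_mul _)
        intro ζ
        exact mul_le_mul_of_nonneg_right (hkb _) (le_max_right _ _)
      have : (0 : ℝ) ≤ 8 ^ d := by positivity
      nlinarith
    have h9 := neg_abs_le (Real.log ‖f (Φ 0)‖)
    have h10 : -(s * Real.log ‖f (Φ 0)‖) ≤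
        s * (N + 8 ^ d * (2 / κ * ∫ ζ, max (|h ζ| - N) 0 ∂(mud d))) := by
      have := o.s0
      nlinarith
    rw [sub_zero, norm_one, Real.log_one, mul_zero, sub_zero]
    linarith
  have hfac : (1 + ρ) / (1 - ρ) ≤ 2 / m := by
    rw [hρ, sub_sub_cancel]
    apply div_le_div_of_nonneg_right _ hm0.le
    linarith
  have hD00 := hD0 0 h0d
  calc -(s * Real.log ‖f a‖) ≤ (D ρ).re := hlow
    _ ≤ (1 + ρ) / (1 - ρ) * (D 0).re := hhar
    _ ≤ (2 / m) * (D 0).re := mul_le_mul_of_nonneg_right hfac hD00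
    _ ≤ _ := mul_le_mul_of_nonneg_left hup0 (by positivity)

end Pool.Agent.Helper34.Wc
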