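import Pool.Agent.Helper34.Wc.Suff

set_option autoImplicit false

open MeasureTheory Filter Topology Complex Metric Set AddCircle
open scoped Interval ComplexConjugate ENNReal

namespace Pool.Agent.Helper34.Wc

open Dg

variable {d : ℕ}

lemma mu_singleton (t : T) : mu {t} = 0 := by
  rw [← P648.mu_eq_vol, ← Metric.closedBall_zero, AddCircle.volume_closedBall]
  simp

lemma pt_inj : Function.Injective pt := by
  intro a b h
  have h2 := AddCircle.injective_toCircle (T := (1:ℝ)) one_ne_zero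
  apply h2
  unfold pt at h
  rw [fourier_one, fourier_one] at h
  exact Subtype.ext h

lemma ae_pt_ne (η : ℂ) : ∀ᵐ t ∂mu, pt t ≠ η := by
  by_cases h : ∃ t0, pt t0 = η
  · obtain ⟨t0, rfl⟩ := h
    rw [ae_iff]
    refine measure_mono_null ?_ (mu_singleton t0)
    intro t ht
    have h1 : ¬ (pt t ≠ pt t0) := ht
    push Not at h1
    exact pt_inj h1
  · push Not at h
    exact Eventually.of_forall h

/-- the branch of `1 / √v` -/
noncomputable def sq (v : ℂ) : ℂ := Complex.exp (-(1 / 2) * Complex.log v)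

lemma sq_re (v : ℂ) : 0 ≤ (sq v).re := by
  unfold sq
  rw [Complex.exp_re]
  apply mul_nonneg (Real.exp_pos _).le
  apply Real.cos_nonneg_of_mem_Icc
  have h1 : (-(1 / 2) * Complex.log v).im = -(1 / 2) * v.arg := by
    have : (-(1 / 2 : ℂ)) = ((-(1 / 2) : ℝ) : ℂ) := by push_cast; ring
    rw [this, Complex.im_ofReal_mul, Complex.log_im]
  rw [h1]
  have h2 := Complex.neg_pi_lt_arg v
  have h3 := Complex.arg_le_pi v
  constructor <;> linarith

lemma sq_sq {v : ℂ} (hv : v ≠ 0) : sq v ^ 2 = v⁻¹ := by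
  unfold sq
  rw [← Complex.exp_nat_mul]
  have : ((2 : ℕ) : ℂ) * (-(1 / 2) * Complex.log v) = -Complex.log v := by push_cast; ring
  rw [this, Complex.exp_neg, Complex.exp_log hv]

lemma sq_cont {v : ℂ} (hv : v ∈ Complex.slitPlane) : ContinuousAt sq v := by
  unfold sq
  exact (Complex.continuous_exp.continuousAt).comp
    (continuousAt_const.mul (continuousAt_clog hv))

lemma inv_re_nonneg {v : ℂ} (hv : 0 ≤ v.re) : 0 ≤ (v⁻¹).re := by
  rw [Complex.inv_re]
  exact div_nonneg hv (Complex.normSq_nonneg _)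

/-- norm comparison: `|x| ≤ √2 Re x` -/
lemma sq_norm_le {v : ℂ} (hv : v ≠ 0) (hre : 0 ≤ v.re) : ‖sq v‖ ≤ 2 * (sq v).re := by
  have h1 := sq_re v
  have h2 : 0 ≤ (sq v ^ 2).re := by rw [sq_sq hv]; exact inv_re_nonneg hre
  have h3 : (sq v ^ 2).re = (sq v).re ^ 2 - (sq v).im ^ 2 := by
    rw [pow_two, Complex.mul_re]; ring
  have h4 : ‖sq v‖ ^ 2 = (sq v).re ^ 2 + (sq v).im ^ 2 := by
    rw [← Complex.normSq_eq_norm_sq, Complex.normSq_apply]; ring
  have h5 := norm_nonneg (sq v)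
  rw [h3] at h2
  nlinarith

lemma sq_norm_sq {v : ℂ} (hv : v ≠ 0) : ‖sq v‖ ^ 2 = ‖v‖⁻¹ := by
  rw [← norm_pow, sq_sq hv, norm_inv]

/-- the product has real part at least the geometric mean -/
lemma prod_re {x y : ℂ} (hx : 0 ≤ x.re) (hy : 0 ≤ y.re) (hx2 : 0 ≤ (x ^ 2).re)
    (hy2 : 0 ≤ (y ^ 2).re) {c : ℝ} (hc : 0 ≤ c) (h1 : c ≤ (x ^ 2).re) {c' : ℝ} (hc' : 0 ≤ c')
    (h2 : c' ≤ (y ^ 2).re) : 0 ≤ (x * y).re ∧ c * c' ≤ (x * y).re ^ 2 := by
  have e1 : (x ^ 2).re = x.re ^ 2 - x.im ^ 2 := by rw [pow_two, Complex.mul_re]; ring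
  have e2 : (y ^ 2).re = y.re ^ 2 - y.im ^ 2 := by rw [pow_two, Complex.mul_re]; ring
  have e3 : (x * y).re = x.re * y.re - x.im * y.im := Complex.mul_re x y
  have hxi : |x.im| ≤ x.re := abs_le_of_sq_le_sq (by rw [e1] at hx2; linarith) hx
  have hyi : |y.im| ≤ y.re := abs_le_of_sq_le_sq (by rw [e2] at hy2; linarith) hy
  refine ⟨?_, ?_⟩
  · rw [e3]
    have h3 : x.im * y.im ≤ |x.im| * |y.im| := by
      rw [← abs_mul]; exact le_abs_self _
    have h4 : |x.im| * |y.im| ≤ x.re * y.re :=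
      mul_le_mul hxi hyi (abs_nonneg _) hx
    linarith
  · have h5 : c * c' ≤ (x ^ 2).re * (y ^ 2).re := mul_le_mul h1 h2 hc' hx2
    refine h5.trans ?_
    rw [e1, e2, e3]
    nlinarith [sq_nonneg (x.re * y.im - x.im * y.re)]

/-- the building block of the test function -/
noncomputable def gq (η w : ℂ) : ℂ := sq (1 - conj η * w)

lemma mul_conj_one {η : ℂ} (hη : ‖η‖ = 1) : η * conj η = 1 := by
  rw [Complex.mul_conj, Complex.normSq_eq_norm_sq, hη]; norm_num

lemma one_sub_norm {η : ℂ} (hη : ‖η‖ = 1) (w : ℂ) : ‖1 - conj η * w‖ = ‖η - w‖ := by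
  have h1 := mul_conj_one hη
  have h2 : η - w = η * (1 - conj η * w) := by
    linear_combination w * h1
  rw [h2, norm_mul, hη, one_mul]

lemma one_sub_re_pos {η w : ℂ} (hη : ‖η‖ = 1) (hw : ‖w‖ ≤ 1) (hne : w ≠ η) :
    0 < (1 - conj η * w).re := by
  set v := conj η * w with hv
  have hv1 : ‖v‖ ≤ 1 := by rw [hv, norm_mul, RCLike.norm_conj, hη, one_mul]; exact hw
  have hvne : v ≠ 1 := by
    intro h
    apply hne
    have h1 := mul_conj_one hη
    calc w = (η * conj η) * w := by rw [h1, one_mul]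
      _ = η * v := by rw [hv]; ring
      _ = η := by rw [h, mul_one]
  have h2 : v.re ≤ 1 := (Complex.re_le_norm v).trans hv1
  rw [Complex.sub_re, Complex.one_re]
  rcases h2.lt_or_eq with h3 | h3
  · linarith
  · exfalso
    apply hvne
    have h4 : ‖v‖ ^ 2 = v.re ^ 2 + v.im ^ 2 := by
      rw [← Complex.normSq_eq_norm_sq, Complex.normSq_apply]; ring
    have h5 : v.im = 0 := by
      have := norm_nonneg v
      rw [h3] at h4
      nlinarith
    exact Complex.ext h3 (by rw [h5]; simp)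

lemma gq_diff {η : ℂ} (hη : ‖η‖ = 1) : DifferentiableOn ℂ (gq η) disc := by
  unfold gq sq
  apply DifferentiableOn.cexp
  apply DifferentiableOn.const_mul
  refine DifferentiableOn.clog (by fun_prop) ?_
  intro w hw
  left
  have hw1 := md.1 hw
  exact one_sub_re_pos hη hw1.le (fun h => by rw [h, hη] at hw1; exact lt_irrefl _ hw1)

lemma poissonC {F : ℂ → ℂ} (hF : DifferentiableOn ℂ F disc) {r : ℝ} (hr : r ∈ Ioo (0 : ℝ) 1)
    {z : ℂ} (hz : z ∈ disc) :
    F (r * z) = ∫ t, (pker z t : ℂ) * F (r * pt t) ∂mu := by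
  have hint : Integrable (fun t : T => (pker z t : ℂ) * F (r * pt t)) mu :=
    cont_int ((Complex.continuous_ofReal.comp (pker_cont hz)).mul (circ_cont hF hr))
  apply Complex.ext
  · have h1 : (∫ t, (pker z t : ℂ) * F (r * pt t) ∂mu).re =
        ∫ t, ((pker z t : ℂ) * F (r * pt t)).re ∂mu := (integral_re hint).symm
    rw [h1, poisson' hF hr hz]
    congr 1; funext t
    rw [Complex.re_ofReal_mul]
  · have h1 : (∫ t, (pker z t : ℂ) * F (r * pt t) ∂mu).im =
        ∫ t, ((pker z t : ℂ) * F (r * pt t)).im ∂mu := (integral_im hint).symm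
    have h2 := poisson' (F := fun z => -Complex.I * F z) (hF.const_mul _) hr hz
    have e1 : ∀ w : ℂ, (-Complex.I * w).re = w.im := by intro w; simp
    simp_rw [e1] at h2
    rw [h1, h2]
    congr 1; funext t
    rw [Complex.im_ofReal_mul]

lemma gq_lim {η : ℂ} (hη : ‖η‖ = 1) {t : T} (ht : pt t ≠ η) :
    Tendsto (fun r : ℝ => gq η ((r : ℂ) * pt t)) (𝓝[<] 1) (𝓝 (gq η (pt t))) := by
  have h1 : Tendsto (fun r : ℝ => 1 - conj η * ((r : ℂ) * pt t)) (𝓝[<] 1)
      (𝓝 (1 - conj η * pt t)) := by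
    have := (ofReal_tendsto.mul_const (pt t))
    rw [one_mul] at this
    exact (this.const_mul _).const_sub _
  have h2 : (1 - conj η * pt t) ∈ Complex.slitPlane :=
    Or.inl (one_sub_re_pos hη (pt_norm t).le ht)
  exact (sq_cont h2).tendsto.comp h1

lemma gq_int {η : ℂ} (hη : ‖η‖ = 1) : Integrable (fun t => gq η (pt t)) mu := by
  have hd := gq_diff hη
  have hX : ∀ n, Integrable (fun t : T => ‖gq η (rad n * pt t)‖) mu := fun n =>
    cont_intR (circ_cont hd (rad_mem n)).norm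
  have hb : ∀ n, ∫ t, ‖gq η (rad n * pt t)‖ ∂mu ≤ 2 * (gq η 0).re := by
    intro n
    rw [mean0 hd (rad_mem n), ← integral_const_mul]
    apply integral_mono (hX n) (cont_intR (continuous_const.mul (circ_cont_re hd (rad_mem n))))
    intro t
    have hm := md.1 (pt_mem (rad_mem n) t)
    have h1 := one_sub_re_pos hη hm.le (fun h => by rw [h, hη] at hm; exact lt_irrefl _ hm)
    exact sq_norm_le (fun h => by rw [h] at h1; simp at h1) h1.le
  have hlim : ∀ᵐ t ∂mu, Tendsto (fun n => ‖gq η (rad n * pt t)‖) atTop (𝓝 ‖gq η (pt t)‖) := by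
    filter_upwards [ae_pt_ne η] with t ht
    exact ((gq_lim hη ht).comp rad_tendsto).norm
  have hlim2 : ∀ᵐ t ∂mu, Tendsto (fun n => gq η (rad n * pt t)) atTop (𝓝 (gq η (pt t))) := by
    filter_upwards [ae_pt_ne η] with t ht
    exact (gq_lim hη ht).comp rad_tendsto
  have hm : AEStronglyMeasurable (fun t => gq η (pt t)) mu :=
    aestronglyMeasurable_of_tendsto_ae atTop
      (fun n => (circ_cont hd (rad_mem n)).aestronglyMeasurable) hlim2
  obtain ⟨h1, -, -⟩ := fatouR hX (fun n => Eventually.of_forall fun t => norm_nonneg _) hlim hb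
  exact (integrable_norm_iff hm).1 h1

lemma gq_dom {η : ℂ} (hη : ‖η‖ = 1) {t : T} (ht : pt t ≠ η) {r : ℝ} (hr : r ∈ Ioo (0 : ℝ) 1) :
    ‖gq η ((r : ℂ) * pt t)‖ ≤ 2 * ‖gq η (pt t)‖ := by
  have hm := md.1 (pt_mem hr t)
  have hne1 : 1 - conj η * ((r : ℂ) * pt t) ≠ 0 := by
    intro h
    have h1 := one_sub_re_pos hη hm.le (fun h => by rw [h, hη] at hm; exact lt_irrefl _ hm)
    rw [h] at h1; simp at h1
  have hne2 : 1 - conj η * pt t ≠ 0 := by
    intro h
    have h1 := one_sub_re_pos hη (pt_norm t).le ht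
    rw [h] at h1; simp at h1
  have h1 : ‖1 - conj η * pt t‖ ≤ 2 * ‖1 - conj η * ((r : ℂ) * pt t)‖ := by
    rw [one_sub_norm hη, one_sub_norm hη]
    have h2 : 1 - r ≤ ‖η - (r : ℂ) * pt t‖ := by
      have := norm_sub_norm_le η ((r : ℂ) * pt t)
      rwa [hη, norm_mul, pt_norm, mul_one, Complex.norm_real, Real.norm_of_nonneg hr.1.le] at this
    have e1 : η - pt t = (η - (r : ℂ) * pt t) + ((r - 1 : ℝ) : ℂ) * pt t := by push_cast; ring
    calc ‖η - pt t‖ ≤ ‖η - (r : ℂ) * pt t‖ + ‖((r - 1 : ℝ) : ℂ) * pt t‖ := by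
          rw [e1]; exact norm_add_le _ _
      _ ≤ _ := by
          rw [norm_mul, pt_norm, mul_one, Complex.norm_real, Real.norm_eq_abs, abs_sub_comm,
            abs_of_pos (by linarith [hr.2])]
          linarith
  have h3 := sq_norm_sq hne1
  have h4 := sq_norm_sq hne2
  have p1 : 0 < ‖1 - conj η * ((r : ℂ) * pt t)‖ := norm_pos_iff.2 hne1
  have p2 : 0 < ‖1 - conj η * pt t‖ := norm_pos_iff.2 hne2
  have h5 : ‖gq η ((r : ℂ) * pt t)‖ ^ 2 ≤ 2 * ‖gq η (pt t)‖ ^ 2 := by
    unfold gq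
    rw [h3, h4, inv_eq_one_div, inv_eq_one_div, mul_one_div, div_le_div_iff₀ p1 p2]
    linarith
  have h6 := norm_nonneg (gq η (pt t))
  have h7 := norm_nonneg (gq η ((r : ℂ) * pt t))
  nlinarith

/-- Poisson representation of the building block -/
lemma gq_rep {η : ℂ} (hη : ‖η‖ = 1) {z : ℂ} (hz : z ∈ disc) :
    ∫ t, (pker z t : ℂ) * gq η (pt t) ∂mu = gq η z := by
  have hd := gq_diff hη
  have h1 : Tendsto (fun n => ∫ t, (pker z t : ℂ) * gq η (rad n * pt t) ∂mu) atTop
      (𝓝 (∫ t, (pker z t : ℂ) * gq η (pt t) ∂mu)) := by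
    apply tendsto_integral_of_dominated_convergence
      (fun t => 2 / (1 - ‖z‖) * (2 * ‖gq η (pt t)‖))
    · intro n
      exact ((Complex.continuous_ofReal.comp (pker_cont hz)).mul
        (circ_cont hd (rad_mem n))).aestronglyMeasurable
    · exact ((gq_int hη).norm.const_mul _).const_mul _
    · intro n
      filter_upwards [ae_pt_ne η] with t ht
      rw [norm_mul, Complex.norm_real, Real.norm_of_nonneg (pker_nonneg hz t)]
      exact mul_le_mul (pker_le hz t) (gq_dom hη ht (rad_mem n)) (norm_nonneg _)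
        ((pker_nonneg hz t).trans (pker_le hz t))
    · filter_upwards [ae_pt_ne η] with t ht
      exact ((gq_lim hη ht).comp rad_tendsto).const_mul _
  have h2 : Tendsto (fun n => ∫ t, (pker z t : ℂ) * gq η (rad n * pt t) ∂mu) atTop
      (𝓝 (gq η z)) := by
    have e1 : ∀ n, ∫ t, (pker z t : ℂ) * gq η (rad n * pt t) ∂mu = gq η (rad n * z) := fun n =>
      (poissonC hd (rad_mem n) hz).symm
    simp_rw [e1]
    have hc : ContinuousAt (gq η) z :=
      (hd.differentiableAt (isOpen_ball.mem_nhds hz)).continuousAt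
    have h3 : Tendsto (fun n => (rad n : ℂ) * z) atTop (𝓝 z) := by
      have := (ofReal_tendsto.comp rad_tendsto).mul_const z
      rw [one_mul] at this
      exact this
    exact hc.tendsto.comp h3
  exact tendsto_nhds_unique h1 h2

/-- bounded outer functions -/
lemma memH_bdd {p : ℝ≥0∞} {f : (Fin d → ℂ) → ℂ} (hf : DifferentiableOn ℂ f (PD d))
    (h1 : ∀ z ∈ PD d, ‖f z‖ ≤ 1) : MemH p f := by
  refine ⟨hf, fun _ => ⟨1, h1⟩, fun _ => ⟨1, fun r hr => ?_⟩⟩
  have h2 : ∫ ζ, ‖f (tor r ζ)‖ ^ p.toReal ∂(mud d) ≤ ∫ _ζ, (1 : ℝ) ∂(mud d) := by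
    apply integral_mono
    · exact contT_int ((tor_cont hf hr).norm.rpow_const fun _ => Or.inr ENNReal.toReal_nonneg)
    · exact integrable_const _
    · intro ζ
      exact Real.rpow_le_one (norm_nonneg _) (h1 _ (tor_mem hr ζ)) ENNReal.toReal_nonneg
  simpa using h2

lemma outer_one {p : ℝ≥0∞} : IsOuter p (fun _ : Fin d → ℂ => (1 : ℂ)) := by
  refine ⟨memH_bdd (differentiableOn_const _) (fun z _ => by simp), fun _ => 1, ?_, ?_, ?_⟩
  · exact Eventually.of_forall fun ζ => ⟨one_ne_zero, tendsto_const_nhds⟩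
  · simp
  · intro z _; simp

/-- the test function -/
lemma outer_test {p : ℝ≥0∞} {j k : Fin d} (hjk : j ≠ k) {η η' : ℂ} (hη : ‖η‖ = 1)
    (hη' : ‖η'‖ = 1) :
    IsOuter p (fun z : Fin d → ℂ => Complex.exp (-(gq η (z j) * gq η' (z k)))) := by
  classical
  have hGd : DifferentiableOn ℂ (fun z : Fin d → ℂ => gq η (z j) * gq η' (z k)) (PD d) := by
    apply DifferentiableOn.mul
    · exact (gq_diff hη).comp (by fun_prop) (fun z hz => md.2 (hz j))
    · exact (gq_diff hη').comp (by fun_prop) (fun z hz => md.2 (hz k))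
  have hre : ∀ z ∈ PD d, 0 ≤ (gq η (z j) * gq η' (z k)).re := by
    intro z hz
    have key : ∀ {η : ℂ}, ‖η‖ = 1 → ∀ {w : ℂ}, ‖w‖ < 1 → 0 ≤ (gq η w ^ 2).re := by
      intro η hη w hw
      have h1 := one_sub_re_pos hη hw.le (fun h => by rw [h, hη] at hw; exact lt_irrefl _ hw)
      unfold gq
      rw [sq_sq (fun h => by rw [h] at h1; simp at h1)]
      exact inv_re_nonneg h1.le
    exact (prod_re (sq_re _) (sq_re _) (key hη (hz j)) (key hη' (hz k)) le_rfl (key hη (hz j))
      le_rfl (key hη' (hz k))).1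
  -- the integrable boundary function
  set Fi : Fin d → T → ℂ := fun i t => if i = j then gq η (pt t) else
    if i = k then gq η' (pt t) else 1 with hFi
  have hkj : k ≠ j := Ne.symm hjk
  have hprod : ∀ (P : Fin d → T → ℂ) (ζ : Fin d → T), ∏ i, (P i (ζ i) * Fi i (ζ i)) =
      (∏ i, P i (ζ i)) * (gq η (pt (ζ j)) * gq η' (pt (ζ k))) := by
    intro P ζ
    rw [Finset.prod_mul_distrib]
    congr 1
    have e1 : ∀ i, Fi i (ζ i) = (if i = j then gq η (pt (ζ i)) else 1) *
        (if i = k then gq η' (pt (ζ i)) else 1) := by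
      intro i
      simp only [hFi]
      by_cases h1 : i = j
      · have h2 : i ≠ k := by rw [h1]; exact hjk
        rw [if_pos h1, if_pos h1, if_neg h2, mul_one]
      · rw [if_neg h1, if_neg h1, one_mul]
    simp_rw [e1]
    rw [Finset.prod_mul_distrib, Finset.prod_ite_eq' Finset.univ j (fun i => gq η (pt (ζ i))),
      Finset.prod_ite_eq' Finset.univ k (fun i => gq η' (pt (ζ i))),
      if_pos (Finset.mem_univ j), if_pos (Finset.mem_univ k)]
  have hFint : ∀ i, Integrable (Fi i) mu := by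
    intro i
    simp only [hFi]
    by_cases h1 : i = j
    · simp only [h1, if_true]; exact gq_int hη
    · by_cases h2 : i = k
      · simp only [h1, h2, if_true, if_false]
        simp only [hkj, if_false]
        exact gq_int hη'
      · simp only [h1, h2, if_false]
        exact integrable_const _
  have hGint : Integrable (fun ζ : Fin d → T => gq η (pt (ζ j)) * gq η' (pt (ζ k))) (mud d) := by
    have h1 := Integrable.fintype_prod (μ := fun _ : Fin d => mu) hFint
    refine h1.congr (Eventually.of_forall fun ζ => ?_)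
    have h2 := hprod (fun _ _ => 1) ζ
    simpa using h2
  have hrep : ∀ z ∈ PD d, ∫ ζ, (PK z ζ : ℂ) * (gq η (pt (ζ j)) * gq η' (pt (ζ k))) ∂(mud d) =
      gq η (z j) * gq η' (z k) := by
    intro z hz
    have h1 := integral_fintype_prod_eq_prod (μ := fun _ : Fin d => mu)
      (fun (i : Fin d) (t : T) => (pker (z i) t : ℂ) * Fi i t)
    have h2 : ∀ ζ : Fin d → T, ∏ i, ((pker (z i) (ζ i) : ℂ) * Fi i (ζ i)) =
        (PK z ζ : ℂ) * (gq η (pt (ζ j)) * gq η' (pt (ζ k))) := by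
      intro ζ
      rw [hprod (fun i t => (pker (z i) t : ℂ)) ζ]
      congr 1
      unfold PK
      push_cast
      rfl
    simp_rw [h2] at h1
    rw [h1]
    have h3 : ∀ i, ∫ t, (pker (z i) t : ℂ) * Fi i t ∂mu =
        (if i = j then gq η (z i) else 1) * (if i = k then gq η' (z i) else 1) := by
      intro i
      by_cases h4 : i = j
      · have h5 : i ≠ k := by rw [h4]; exact hjk
        simp only [hFi, h4, if_true]
        rw [if_neg hjk, mul_one]
        exact gq_rep hη (md.2 (hz j))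
      · by_cases h5 : i = k
        · simp only [hFi, h5, if_neg hkj, if_true, one_mul]
          exact gq_rep hη' (md.2 (hz k))
        · simp only [hFi, if_neg h4, if_neg h5, mul_one]
          rw [integral_complex_ofReal, int_pker (md.2 (hz i))]
          simp
    simp_rw [h3]
    rw [Finset.prod_mul_distrib, Finset.prod_ite_eq' Finset.univ j (fun i => gq η (z i)),
      Finset.prod_ite_eq' Finset.univ k (fun i => gq η' (z i)),
      if_pos (Finset.mem_univ j), if_pos (Finset.mem_univ k)]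
  refine ⟨memH_bdd hGd.neg.cexp (fun z hz => ?_),
    fun ζ => Complex.exp (-(gq η (pt (ζ j)) * gq η' (pt (ζ k)))), ?_, ?_, ?_⟩
  · rw [Complex.norm_exp, Complex.neg_re, Real.exp_le_one_iff]
    linarith [hre z hz]
  · have a1 : ∀ᵐ ζ ∂(mud d), pt (ζ j) ≠ η :=
      (Measure.tendsto_eval_ae_ae (μ := fun _ : Fin d => mu) (i := j)).eventually (ae_pt_ne η)
    have a2 : ∀ᵐ ζ ∂(mud d), pt (ζ k) ≠ η' :=
      (Measure.tendsto_eval_ae_ae (μ := fun _ : Fin d => mu) (i := k)).eventually (ae_pt_ne η')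
    filter_upwards [a1, a2] with ζ h1 h2
    refine ⟨Complex.exp_ne_zero _, ?_⟩
    exact (Complex.continuous_exp.tendsto _).comp (((gq_lim hη h1).mul (gq_lim hη' h2)).neg)
  · have : (fun ζ : Fin d → T => Real.log ‖Complex.exp (-(gq η (pt (ζ j)) * gq η' (pt (ζ k))))‖) =
        fun ζ => -(gq η (pt (ζ j)) * gq η' (pt (ζ k))).re := by
      funext ζ
      rw [Complex.norm_exp, Real.log_exp, Complex.neg_re]
    rw [this]
    exact hGint.re.neg
  · intro z hz
    rw [Complex.norm_exp]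
    congr 1
    have e1 : ∀ ζ : Fin d → T, PK z ζ *
        Real.log ‖Complex.exp (-(gq η (pt (ζ j)) * gq η' (pt (ζ k))))‖ =
        -(((PK z ζ : ℂ) * (gq η (pt (ζ j)) * gq η' (pt (ζ k)))).re) := by
      intro ζ
      rw [Complex.norm_exp, Real.log_exp, Complex.neg_re, Complex.re_ofReal_mul]
      ring
    simp_rw [e1]
    rw [integral_neg, Complex.neg_re]
    congr 1
    have hI : Integrable (fun ζ => (PK z ζ : ℂ) * (gq η (pt (ζ j)) * gq η' (pt (ζ k))))
        (mud d) := by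
      obtain ⟨C, hC⟩ := PK_bdd hz
      refine hGint.bdd_mul (c := C)
        (Complex.continuous_ofReal.comp (PK_cont hz)).aestronglyMeasurable ?_
      refine Eventually.of_forall fun t => ?_
      rw [Complex.norm_real, Real.norm_of_nonneg (PK_nonneg hz t)]
      exact hC t
    rw [← hrep z hz]
    exact (integral_re hI).symm

/-- the necessity theorem -/
theorem nec {p q : ℝ≥0∞} {ψ : ℂ → ℂ} {φ : ℂ → Fin d → ℂ} (hφ : DifferentiableOn ℂ φ disc)
    (hφm : ∀ z ∈ disc, φ z ∈ PD d)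
    (hT : ∀ f : (Fin d → ℂ) → ℂ, IsOuter p f → IsOuter1 q (fun z => ψ z * f (φ z))) :
    IsOuter1 q ψ ∧ ∀ ζ, ¬ Touch φ ζ := by
  have hψ : IsOuter1 q ψ := by
    have := hT _ (outer_one (d := d) (p := p))
    simpa using this
  refine ⟨hψ, ?_⟩
  rintro ζ ⟨j, k, hjk, hj, hk⟩
  have hφi : ∀ j, DifferentiableOn ℂ (fun z => φ z j) disc := fun j =>
    (differentiableOn_pi.1 hφ) j
  obtain ⟨η, hη, c, hc0, hc⟩ := julia (hφi j) (fun z hz => hφm z hz j) hj
  obtain ⟨η', hη', c', hc0', hc'⟩ := julia (hφi k) (fun z hz => hφm z hz k) hk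
  obtain ⟨-, gF, hgF, hkF, hFrep⟩ := hT _ (outer_test (p := p) hjk hη hη')
  obtain ⟨-, gψ, hgψ, hkψ, hψrep⟩ := hψ
  have hG : ∀ z ∈ disc, (gq η (φ z j) * gq η' (φ z k)).re =
      (∫ t, pker z t * Real.log ‖gψ t‖ ∂mu) - ∫ t, pker z t * Real.log ‖gF t‖ ∂mu := by
    intro z hz
    have h1 := hFrep z hz
    rw [norm_mul, hψrep z hz, Complex.norm_exp, Complex.neg_re, ← Real.exp_add] at h1
    have := Real.exp_injective h1
    linarith
  -- lower bound
  have hlow : ∀ r ∈ Ioo (0 : ℝ) 1, Real.sqrt (c / 2 * (c' / 2)) ≤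
      (1 - r) * (gq η (φ ((r : ℂ) * pt ζ) j) * gq η' (φ ((r : ℂ) * pt ζ) k)).re := by
    intro r hr
    have hr1 : 0 < 1 - r := by linarith [hr.2]
    have hz := pt_mem hr ζ
    have key : ∀ {η w : ℂ} {c : ℝ}, ‖η‖ = 1 → ‖w‖ < 1 → 0 < c → c ≤ (1 - r) * QK η w →
        c / 2 / (1 - r) ≤ (gq η w ^ 2).re := by
      intro η w c hη hw hc0 hc
      have h1 := one_sub_re_pos hη hw.le (fun h => by rw [h, hη] at hw; exact lt_irrefl _ hw)
      have hne : 1 - conj η * w ≠ 0 := fun h => by rw [h] at h1; simp at h1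
      unfold gq
      rw [sq_sq hne, Complex.inv_re, Complex.normSq_eq_norm_sq, one_sub_norm hη]
      have h2 : 0 < ‖η - w‖ := norm_pos_iff.2 (sub_ne hη hw)
      have h3 : (1 - ‖w‖ ^ 2) / 2 ≤ (1 - conj η * w).re := by
        have h4 : (conj η * w).re ≤ ‖w‖ := by
          refine (Complex.re_le_norm _).trans ?_
          rw [norm_mul, RCLike.norm_conj, hη, one_mul]
        rw [Complex.sub_re, Complex.one_re]
        nlinarith [norm_nonneg w]
      have h5 : QK η w / 2 ≤ (1 - conj η * w).re / ‖η - w‖ ^ 2 := by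
        rw [QK, div_div, mul_comm, ← div_div]
        exact div_le_div_of_nonneg_right h3 (by positivity)
      refine le_trans ?_ h5
      rw [div_le_iff₀ hr1]
      linarith
    have hwj := hφm _ hz j
    have hwk := hφm _ hz k
    have k1 := key hη hwj hc0 (hc r hr)
    have k2 := key hη' hwk hc0' (hc' r hr)
    have p1 : 0 ≤ c / 2 / (1 - r) := by positivity
    have p2 : 0 ≤ c' / 2 / (1 - r) := by positivity
    obtain ⟨h6, h7⟩ := prod_re (sq_re _) (sq_re _) (p1.trans k1) (p2.trans k2) p1 k1 p2 k2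
    apply Real.sqrt_le_iff.2
    constructor
    · exact mul_nonneg hr1.le h6
    · rw [mul_pow]
      have h8 : c / 2 * (c' / 2) = (1 - r) ^ 2 * (c / 2 / (1 - r) * (c' / 2 / (1 - r))) := by
        field_simp
      rw [h8]
      exact mul_le_mul_of_nonneg_left h7 (by positivity)
  set κ := Real.sqrt (c / 2 * (c' / 2)) with hκ
  have hκ0 : 0 < κ := Real.sqrt_pos.2 (by positivity)
  obtain ⟨r, ⟨h1, h2⟩, hr⟩ := (((no_atom hkψ ζ (show 0 < κ / 3 by positivity)).and
    (no_atom hkF ζ (show 0 < κ / 3 by positivity))).and Ioo_mem_left).exists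
  have hz := pt_mem hr ζ
  have hr1 : 0 < 1 - r := by linarith [hr.2]
  have h3 := hlow r hr
  rw [hG _ hz] at h3
  have h4 : ∫ t, pker ((r : ℂ) * pt ζ) t * Real.log ‖gψ t‖ ∂mu ≤
      ∫ t, pker ((r : ℂ) * pt ζ) t * |Real.log ‖gψ t‖| ∂mu := (le_abs_self _).trans (abs_pint hz)
  have h5 : -∫ t, pker ((r : ℂ) * pt ζ) t * Real.log ‖gF t‖ ∂mu ≤
      ∫ t, pker ((r : ℂ) * pt ζ) t * |Real.log ‖gF t‖| ∂mu := (neg_le_abs _).trans (abs_pint hz)
  nlinarith

end Pool.Agent.Helper34.Wc
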