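import Pool.Agent.Helper34.Wc.Disc4

set_option autoImplicit false

open MeasureTheory Filter Topology Complex Metric Set AddCircle
open scoped Interval ComplexConjugate ENNReal

namespace Pool.Agent.Helper34.Wc

open Dg

section herg

variable {α : Type*} [MeasurableSpace α] {ν : Measure α}

lemma geomG {f ψ : α → ℂ} (hf : Integrable f ν) (hψ : AEStronglyMeasurable ψ ν)
    (h1 : ∀ t, ‖ψ t‖ ≤ 1) {a : ℂ} (ha : ‖a‖ < 1) :
    HasSum (fun m : ℕ => (∫ t, f t * ψ t ^ m ∂ν) * a ^ m) (∫ t, f t * (1 - a * ψ t)⁻¹ ∂ν) := by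
  have h2 : ∀ t, ‖a * ψ t‖ < 1 := fun t => by
    rw [norm_mul]
    calc ‖a‖ * ‖ψ t‖ ≤ ‖a‖ * 1 := mul_le_mul_of_nonneg_left (h1 t) (norm_nonneg _)
      _ < 1 := by simpa using ha
  have key := hasSum_integral_of_dominated_convergence (μ := ν)
    (F := fun (m : ℕ) t => f t * (a * ψ t) ^ m) (f := fun t => f t * (1 - a * ψ t)⁻¹)
    (fun (m : ℕ) t => ‖f t‖ * ‖a‖ ^ m) ?_ ?_ ?_ ?_ ?_
  · have e1 : (fun m : ℕ => (∫ t, f t * ψ t ^ m ∂ν) * a ^ m) =
        fun m : ℕ => ∫ t, f t * (a * ψ t) ^ m ∂ν := by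
      funext m
      rw [← integral_mul_const]
      congr 1
      funext t
      rw [mul_pow]; ring
    rw [e1]; exact key
  · intro m
    exact hf.1.mul ((hψ.const_mul a).pow m)
  · intro m
    refine Eventually.of_forall fun t => ?_
    rw [norm_mul, norm_pow, norm_mul]
    refine mul_le_mul_of_nonneg_left ?_ (norm_nonneg _)
    apply pow_le_pow_left₀ (by positivity)
    calc ‖a‖ * ‖ψ t‖ ≤ ‖a‖ * 1 := mul_le_mul_of_nonneg_left (h1 t) (norm_nonneg _)
      _ = ‖a‖ := mul_one _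
  · exact Eventually.of_forall fun t =>
      (summable_geometric_of_lt_one (norm_nonneg _) ha).mul_left _
  · simp_rw [tsum_mul_left]
    exact hf.norm.mul_const _
  · refine Eventually.of_forall fun t => ?_
    exact (hasSum_geometric_of_norm_lt_one (h2 t)).mul_left _

/-- integrals of the Poisson kernel against an integrable weight are real parts -/
lemma hergG {w : α → ℝ} (hw : Integrable w ν) {τ : α → T} (hτ : AEMeasurable τ ν) :
    ∃ H : ℂ → ℂ, DifferentiableOn ℂ H disc ∧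
      ∀ z ∈ disc, (H z).re = ∫ a, pker z (τ a) * w a ∂ν := by
  set f : α → ℂ := fun a => (w a : ℂ) with hf
  have hfi : Integrable f ν := hw.ofReal
  set ψ : α → ℂ := fun a => e (-1) (τ a) with hψ
  have hψm : AEStronglyMeasurable ψ ν :=
    ((e_cont (-1)).measurable.comp_aemeasurable hτ).aestronglyMeasurable
  have hψ1 : ∀ a, ‖ψ a‖ ≤ 1 := fun a => (e_norm _ _).le
  set c : ℕ → ℂ := fun m => ∫ a, f a * ψ a ^ m ∂ν with hc
  set M : ℝ := ∫ a, ‖f a‖ ∂ν with hM
  have hM0 : 0 ≤ M := integral_nonneg fun a => norm_nonneg _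
  have hcM : ∀ m, ‖c m‖ ≤ M := by
    intro m
    refine (norm_integral_le_integral_norm _).trans ?_
    apply integral_mono_of_nonneg (Eventually.of_forall fun a => norm_nonneg _) hfi.norm
    refine Eventually.of_forall fun a => ?_
    show ‖f a * ψ a ^ m‖ ≤ ‖f a‖
    rw [norm_mul, norm_pow]
    have h1 : ‖ψ a‖ ^ m ≤ 1 := pow_le_one₀ (norm_nonneg _) (hψ1 a)
    have h2 := norm_nonneg (f a)
    nlinarith
  have hdiff : DifferentiableOn ℂ (fun z => ∑' m, c m * z ^ m) disc := by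
    intro z hz
    have hz' : ‖z‖ < 1 := md.1 hz
    obtain ⟨r, hr1, hr2⟩ := exists_between hz'
    have hr0 : 0 ≤ r := le_trans (norm_nonneg z) hr1.le
    have h1 : DifferentiableOn ℂ (fun z => ∑' m, c m * z ^ m) (Metric.ball 0 r) := by
      have h2 : Summable fun n : ℕ => M * r ^ n :=
        (summable_geometric_of_lt_one hr0 hr2).mul_left _
      refine differentiableOn_tsum_of_summable_norm (u := fun n : ℕ => M * r ^ n) h2 ?_
        Metric.isOpen_ball ?_
      · intro n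
        exact (differentiableOn_const _).mul (differentiableOn_pow n)
      · intro n w hw
        have hw' : ‖w‖ < r := by simpa using hw
        rw [norm_mul, norm_pow]
        exact mul_le_mul (hcM n) (pow_le_pow_left₀ (norm_nonneg _) hw'.le n)
          (by positivity) hM0
    exact (h1.differentiableAt
      (Metric.isOpen_ball.mem_nhds (by simpa using hr1))).differentiableWithinAt
  refine ⟨fun z => 2 * (∑' m, c m * z ^ m) - (∫ a, w a ∂ν : ℝ), ?_, fun z hz => ?_⟩
  · exact (hdiff.const_mul 2).sub_const _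
  · have hz1 := md.1 hz
    have h1 := (geomG hfi hψm hψ1 hz1).tsum_eq
    have hckm : AEStronglyMeasurable (fun a => (1 - z * ψ a)⁻¹) ν := by
      have h2 : AEMeasurable (fun a => (1 - z * ψ a)⁻¹) ν :=
        ((hψm.aemeasurable.const_mul z).const_sub 1).inv
      exact h2.aestronglyMeasurable
    have hckb : ∀ a, ‖(1 - z * ψ a)⁻¹‖ ≤ (1 - ‖z‖)⁻¹ := fun a => norm_ck_le hz1 (τ a)
    have hint : Integrable (fun a => f a * (1 - z * ψ a)⁻¹) ν :=
      hfi.mul_bdd (c := (1 - ‖z‖)⁻¹) hckm (Eventually.of_forall hckb)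
    have h2 : (∑' m, c m * z ^ m).re = ∫ a, (f a * (1 - z * ψ a)⁻¹).re ∂ν := by
      rw [hc, h1]; exact (integral_re hint).symm
    have h3 : ∀ a, (f a * (1 - z * ψ a)⁻¹).re = (w a + pker z (τ a) * w a) / 2 := by
      intro a
      have h4 : (1 - z * ψ a)⁻¹ = ck z (τ a) := rfl
      rw [h4, hf, Complex.re_ofReal_mul, re_ck hz1, pker_eq]; ring
    have hpi : Integrable (fun a => pker z (τ a) * w a) ν := by
      refine hw.bdd_mul (c := 2 / (1 - ‖z‖)) ?_ ?_
      · exact ((pker_cont hz).measurable.comp_aemeasurable hτ).aestronglyMeasurable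
      · refine Eventually.of_forall fun t => ?_
        rw [Real.norm_of_nonneg (pker_nonneg hz _)]
        exact pker_le hz _
    simp_rw [h3] at h2
    rw [integral_div, integral_add hw hpi] at h2
    simp only [Complex.sub_re, Complex.ofReal_re]
    have h4 : (2 * ∑' m, c m * z ^ m).re = 2 * (∑' m, c m * z ^ m).re := by simp
    rw [h4, h2]; ring

end herg

variable {d : ℕ}

lemma mud_eval (i : Fin d) : Measurable fun ζ : Fin d → T => ζ i := measurable_pi_apply i

lemma PK_nonneg {z : Fin d → ℂ} (hz : z ∈ PD d) (ζ : Fin d → T) : 0 ≤ PK z ζ :=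
  Finset.prod_nonneg fun i _ => pker_nonneg (md.2 (hz i)) _

lemma PK_cont {z : Fin d → ℂ} (hz : z ∈ PD d) : Continuous (PK z) :=
  continuous_finsetProd _ fun i _ => (pker_cont (md.2 (hz i))).comp (continuous_apply i)

lemma PK_int {z : Fin d → ℂ} (hz : z ∈ PD d) : ∫ ζ, PK z ζ ∂(mud d) = 1 := by
  have h := integral_fintype_prod_eq_prod (μ := fun _ : Fin d => mu)
    (fun (i : Fin d) (t : T) => pker (z i) t)
  unfold PK
  rw [h]
  apply Finset.prod_eq_one
  intro i _
  exact int_pker (md.2 (hz i))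

lemma contT_int {f : (Fin d → T) → ℝ} (hf : Continuous f) : Integrable f (mud d) := by
  obtain ⟨C, hC⟩ := isCompact_univ.exists_bound_of_continuousOn hf.continuousOn
  refine (integrable_const C).mono' hf.aestronglyMeasurable
    (Eventually.of_forall fun t => hC t trivial)

lemma PK_bdd {z : Fin d → ℂ} (hz : z ∈ PD d) : ∃ C, ∀ ζ, PK z ζ ≤ C := by
  obtain ⟨C, hC⟩ := isCompact_univ.exists_bound_of_continuousOn (PK_cont hz).continuousOn
  exact ⟨C, fun ζ => (le_abs_self _).trans (hC ζ trivial)⟩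

lemma PK_mul_int {z : Fin d → ℂ} (hz : z ∈ PD d) {w : (Fin d → T) → ℝ}
    (hw : Integrable w (mud d)) : Integrable (fun ζ => PK z ζ * w ζ) (mud d) := by
  obtain ⟨C, hC⟩ := PK_bdd hz
  refine hw.bdd_mul (c := C) (PK_cont hz).aestronglyMeasurable ?_
  refine Eventually.of_forall fun t => ?_
  rw [Real.norm_of_nonneg (PK_nonneg hz t)]
  exact hC t

/-- one coordinate is arbitrary, the others stay away from the boundary -/
lemma PK_le_one {z : Fin d → ℂ} (hz : z ∈ PD d) (i : Fin d) {ρ : ℝ} (hρ0 : 0 ≤ ρ) (hρ : ρ < 1)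
    (h : ∀ j, j ≠ i → ‖z j‖ ≤ ρ) (ζ : Fin d → T) :
    PK z ζ ≤ (2 / (1 - ρ)) ^ d * pker (z i) (ζ i) := by
  classical
  unfold PK
  rw [← Finset.mul_prod_erase Finset.univ _ (Finset.mem_univ i)]
  have h1 : ∏ j ∈ Finset.univ.erase i, pker (z j) (ζ j) ≤
      (2 / (1 - ρ)) ^ (Finset.univ.erase i).card := by
    rw [← Finset.prod_const]
    apply Finset.prod_le_prod
    · intro j _; exact pker_nonneg (md.2 (hz j)) _
    · intro j hj; exact pker_le' hρ (h j (Finset.ne_of_mem_erase hj)) _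
  have h2 : (1 : ℝ) ≤ 2 / (1 - ρ) := by
    rw [le_div_iff₀ (by linarith)]; linarith
  have h3 : (2 / (1 - ρ)) ^ (Finset.univ.erase i).card ≤ (2 / (1 - ρ)) ^ d := by
    apply pow_le_pow_right₀ h2
    rw [Finset.card_erase_of_mem (Finset.mem_univ i), Finset.card_univ, Fintype.card_fin]
    omega
  rw [mul_comm]
  exact mul_le_mul_of_nonneg_right (h1.trans h3) (pker_nonneg (md.2 (hz i)) _)

lemma pker_coord_int {z : ℂ} (hz : z ∈ disc) (i : Fin d) {w : (Fin d → T) → ℝ}
    (hw : Integrable w (mud d)) : Integrable (fun ζ => pker z (ζ i) * w ζ) (mud d) := by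
  refine hw.bdd_mul (c := 2 / (1 - ‖z‖)) ?_ ?_
  · exact ((pker_cont hz).comp (continuous_apply i)).aestronglyMeasurable
  · refine Eventually.of_forall fun t => ?_
    rw [Real.norm_of_nonneg (pker_nonneg hz _)]
    exact pker_le hz _

lemma pker_coord_one {z : ℂ} (hz : z ∈ disc) (i : Fin d) :
    ∫ ζ, pker z (ζ i) ∂(mud d) = 1 := by
  classical
  have h := integral_fintype_prod_eq_prod (μ := fun _ : Fin d => mu)
    (fun (j : Fin d) (t : T) => if j = i then pker z t else 1)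
  have e1 : ∀ ζ : Fin d → T, ∏ j, (if j = i then pker z (ζ j) else 1) = pker z (ζ i) := by
    intro ζ
    rw [Finset.prod_ite_eq' Finset.univ i (fun j => pker z (ζ j)), if_pos (Finset.mem_univ i)]
  simp_rw [e1] at h
  rw [h]
  apply Finset.prod_eq_one
  intro j _
  by_cases hj : j = i
  · simp only [hj, if_true]; exact int_pker hz
  · simp [hj]

lemma tail_split {x N : ℝ} : |x| ≤ N + max (|x| - N) 0 := by
  have := le_max_left (|x| - N) 0
  linarith

/-- bound for the logarithm of an outer function at a point with only one coordinate near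
the boundary -/
lemma log_bound {z : Fin d → ℂ} (hz : z ∈ PD d) (i : Fin d) {ρ : ℝ} (hρ0 : 0 ≤ ρ) (hρ : ρ < 1)
    (h : ∀ j, j ≠ i → ‖z j‖ ≤ ρ) {w : (Fin d → T) → ℝ} (hw : Integrable w (mud d)) (N : ℕ) :
    |∫ ζ, PK z ζ * w ζ ∂(mud d)| ≤
      N + (2 / (1 - ρ)) ^ d * ∫ ζ, pker (z i) (ζ i) * max (|w ζ| - N) 0 ∂(mud d) := by
  have i1 := tail_int hw N
  have h1 : |∫ ζ, PK z ζ * w ζ ∂(mud d)| ≤ ∫ ζ, |PK z ζ * w ζ| ∂(mud d) :=
    abs_integral_le_integral_abs
  refine h1.trans ?_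
  have i2 : Integrable (fun ζ => PK z ζ * (N : ℝ)) (mud d) := PK_mul_int hz (integrable_const _)
  have i3 : Integrable (fun ζ => (2 / (1 - ρ)) ^ d * (pker (z i) (ζ i) * max (|w ζ| - N) 0))
      (mud d) := (pker_coord_int (md.2 (hz i)) i i1).const_mul _
  have h2 : ∫ ζ, |PK z ζ * w ζ| ∂(mud d) ≤
      ∫ ζ, (PK z ζ * (N : ℝ) +
        (2 / (1 - ρ)) ^ d * (pker (z i) (ζ i) * max (|w ζ| - N) 0)) ∂(mud d) := by
    apply integral_mono (PK_mul_int hz hw).abs (i2.add i3)
    intro ζ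
    show |PK z ζ * w ζ| ≤ PK z ζ * (N : ℝ) +
        (2 / (1 - ρ)) ^ d * (pker (z i) (ζ i) * max (|w ζ| - N) 0)
    rw [abs_mul, abs_of_nonneg (PK_nonneg hz ζ)]
    have h3 := PK_nonneg hz ζ
    have h4 := PK_le_one hz i hρ0 hρ h ζ
    have h5 := tail_split (x := w ζ) (N := (N : ℝ))
    have h6 : (0 : ℝ) ≤ max (|w ζ| - N) 0 := le_max_right _ _
    calc PK z ζ * |w ζ| ≤ PK z ζ * (N + max (|w ζ| - N) 0) := mul_le_mul_of_nonneg_left h5 h3
      _ = PK z ζ * N + PK z ζ * max (|w ζ| - N) 0 := by ring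
      _ ≤ PK z ζ * N + ((2 / (1 - ρ)) ^ d * pker (z i) (ζ i)) * max (|w ζ| - N) 0 := by
          have := mul_le_mul_of_nonneg_right h4 h6
          linarith
      _ = _ := by ring
  refine h2.trans (le_of_eq ?_)
  rw [integral_add i2 i3, integral_mul_const, PK_int hz, integral_const_mul, one_mul]

end Pool.Agent.Helper34.Wc
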