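import Pool.Agent.Helper34.Wc.Growth

set_option autoImplicit false

open MeasureTheory Filter Topology Complex Metric Set AddCircle
open scoped Interval ComplexConjugate ENNReal

namespace Pool.Agent.Helper34.Wc

open Dg

variable {d : ℕ}

lemma re_hk {η w : ℂ} (hη : ‖η‖ = 1) (hw : ‖w‖ < 1) :
    ((η + w) / (η - w)).re = (1 - ‖w‖ ^ 2) / ‖η - w‖ ^ 2 := by
  have h1 : η.re ^ 2 + η.im ^ 2 = 1 := by
    have : ‖η‖ ^ 2 = η.re ^ 2 + η.im ^ 2 := by
      rw [← Complex.normSq_eq_norm_sq, Complex.normSq_apply]; ring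
    rw [← this, hη]; norm_num
  have h2 : ‖w‖ ^ 2 = w.re ^ 2 + w.im ^ 2 := by
    rw [← Complex.normSq_eq_norm_sq, Complex.normSq_apply]; ring
  rw [Complex.div_re, ← Complex.normSq_eq_norm_sq (η - w), ← add_div]
  congr 1
  rw [h2]
  simp only [Complex.add_re, Complex.sub_re, Complex.add_im, Complex.sub_im]
  nlinarith

/-- the Poisson kernel at a complex unimodular point -/
noncomputable def QK (η w : ℂ) : ℝ := (1 - ‖w‖ ^ 2) / ‖η - w‖ ^ 2

lemma QK_nonneg {η w : ℂ} (hw : ‖w‖ < 1) : 0 ≤ QK η w := by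
  have := norm_nonneg w
  apply div_nonneg _ (by positivity)
  nlinarith

lemma sub_ne {η w : ℂ} (hη : ‖η‖ = 1) (hw : ‖w‖ < 1) : η - w ≠ 0 := by
  intro h
  have : η = w := by linear_combination h
  rw [this] at hη
  linarith

lemma QK_harnack {u : ℂ → ℂ} (hu : DifferentiableOn ℂ u disc) (hm : ∀ z ∈ disc, ‖u z‖ < 1)
    {η : ℂ} (hη : ‖η‖ = 1) {r s : ℝ} (hr : 0 ≤ r) (hrs : r ≤ s) (hs : s < 1) (ζ : T) :
    QK η (u ((s : ℂ) * pt ζ)) ≤
      ((1 + s) * (1 - r)) / ((1 - s) * (1 + r)) * QK η (u ((r : ℂ) * pt ζ)) := by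
  have hd : DifferentiableOn ℂ (fun z => (η + u z) / (η - u z)) disc := by
    refine DifferentiableOn.div (hu.const_add _) (hu.const_sub _) ?_
    intro z hz
    exact sub_ne hη (hm z hz)
  have h0 : ∀ z ∈ disc, ((η + u z) / (η - u z)).re = QK η (u z) := fun z hz =>
    re_hk hη (hm z hz)
  have h := harnack hd (fun z hz => by
    show 0 ≤ ((η + u z) / (η - u z)).re
    rw [h0 z hz]; exact QK_nonneg (hm z hz)) hr hrs hs ζ
  have m1 : (s : ℂ) * pt ζ ∈ disc := re1_mem (hr.trans hrs) hs ζ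
  have m2 : (r : ℂ) * pt ζ ∈ disc := re1_mem hr (by linarith) ζ
  rw [← h0 _ m1, ← h0 _ m2]
  exact h

lemma QK_phase {w η : ℂ} (hη : ‖η‖ = 1) (hw : w = ‖w‖ * η) (hw1 : ‖w‖ < 1) :
    QK η w = (1 + ‖w‖) / (1 - ‖w‖) := by
  have e1 : η - w = ((1 - ‖w‖ : ℝ) : ℂ) * η := by
    nth_rewrite 1 [hw]; push_cast; ring
  have e2 : ‖η - w‖ = 1 - ‖w‖ := by
    rw [e1, norm_mul, hη, mul_one, Complex.norm_real, Real.norm_of_nonneg (by linarith)]
  rw [QK, e2]
  have : 0 < 1 - ‖w‖ := by linarith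
  field_simp
  ring

/-- Schwarz-Pick lower bound -/
lemma sp_lower {u : ℂ → ℂ} (hu : DifferentiableOn ℂ u disc) (hm : ∀ z ∈ disc, ‖u z‖ < 1) :
    ∃ c : ℝ, 0 < c ∧ c ≤ 1 ∧ ∀ r ∈ Ioo (0 : ℝ) 1, ∀ ζ : T,
      c * (1 - r) ≤ 1 - ‖u ((r : ℂ) * pt ζ)‖ := by
  have h0 : ‖u 0‖ < 1 := hm 0 (by simp)
  have hn := norm_nonneg (u 0)
  refine ⟨(1 - ‖u 0‖) / 4, by linarith, by linarith, fun r hr ζ => ?_⟩
  set w := u ((r : ℂ) * pt ζ) with hw
  have hw1 : ‖w‖ < 1 := hm _ (pt_mem hr ζ)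
  obtain ⟨η, hη, hηw⟩ := exists_phase w
  have h1 := QK_harnack hu hm hη (le_refl (0 : ℝ)) hr.1.le hr.2 ζ
  rw [← hw, QK_phase hη hηw hw1] at h1
  simp only [Complex.ofReal_zero, zero_mul, sub_zero, mul_one, add_zero] at h1
  have h2 : QK η (u 0) ≤ 2 / (1 - ‖u 0‖) := by
    have h3 : 1 - ‖u 0‖ ≤ ‖η - u 0‖ := by
      have := norm_sub_norm_le η (u 0)
      rwa [hη] at this
    have h4 : (1 - ‖u 0‖) ^ 2 ≤ ‖η - u 0‖ ^ 2 := pow_le_pow_left₀ (by linarith) h3 2
    have h5 : 0 < (1 - ‖u 0‖) ^ 2 := by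
      have : 0 < 1 - ‖u 0‖ := by linarith
      positivity
    rw [QK, div_le_div_iff₀ (lt_of_lt_of_le h5 h4) (by linarith)]
    nlinarith
  have hr0 := hr.1
  have hr1 : 0 < 1 - r := by linarith [hr.2]
  have hwn := norm_nonneg w
  have h6 : (1 + r) / (1 - r) * QK η (u 0) ≤ 2 / (1 - r) * (2 / (1 - ‖u 0‖)) := by
    apply mul_le_mul _ h2 (QK_nonneg h0) (by positivity)
    apply div_le_div_of_nonneg_right _ hr1.le
    linarith [hr.2]
  have h7 : 1 / (1 - ‖w‖) ≤ (1 + ‖w‖) / (1 - ‖w‖) := by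
    apply div_le_div_of_nonneg_right _ (by linarith)
    linarith
  have h8 := h7.trans (h1.trans h6)
  have hu1 : 0 < 1 - ‖u 0‖ := by linarith
  have hw2 : 0 < 1 - ‖w‖ := by linarith
  rw [div_mul_div_comm, div_le_div_iff₀ hw2 (by positivity)] at h8
  nlinarith

/-- Julia's lemma in the form we need -/
lemma julia {u : ℂ → ℂ} (hu : DifferentiableOn ℂ u disc) (hm : ∀ z ∈ disc, ‖u z‖ < 1) {ζ : T}
    (h : ∃ C : ℝ, ∃ᶠ r : ℝ in 𝓝[<] 1, 1 - ‖u ((r : ℂ) * pt ζ)‖ ≤ C * (1 - r)) :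
    ∃ η : ℂ, ‖η‖ = 1 ∧ ∃ c : ℝ, 0 < c ∧ ∀ r ∈ Ioo (0 : ℝ) 1,
      c ≤ (1 - r) * QK η (u ((r : ℂ) * pt ζ)) := by
  obtain ⟨C, hC⟩ := h
  have hC2 := hC.and_eventually Ioo_mem_left
  obtain ⟨rn, hrn1, hrn2⟩ := exists_seq_forall_of_frequently hC2
  have hC0 : 0 < C := by
    obtain ⟨h1, h2⟩ := hrn2 0
    have h3 := hm _ (pt_mem h2 ζ)
    have h4 : 0 < 1 - rn 0 := by linarith [h2.2]
    by_contra hneg
    push Not at hneg
    nlinarith
  choose η hη1 hη2 using fun n => exists_phase (u ((rn n : ℂ) * pt ζ))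
  have hcomp : IsCompact (sphere (0 : ℂ) 1) := isCompact_sphere 0 1
  obtain ⟨η0, hη0, ψ, hψ, hlim⟩ := hcomp.tendsto_subseq (x := η) (fun n => by simp [hη1 n])
  have hη01 : ‖η0‖ = 1 := by simpa using hη0
  refine ⟨η0, hη01, 1 / (2 * C), by positivity, fun r hr => ?_⟩
  have hr1 : 0 < 1 - r := by linarith [hr.2]
  have hwd := hm _ (pt_mem hr ζ)
  -- for large n
  have key : ∀ n, r ≤ rn n → 1 / (2 * C) ≤ (1 - r) * QK (η n) (u ((r : ℂ) * pt ζ)) := by
    intro n hn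
    obtain ⟨h1, h2⟩ := hrn2 n
    have h3 := QK_harnack hu hm (hη1 n) hr.1.le hn h2.2 ζ
    have hwn := hm _ (pt_mem h2 ζ)
    rw [QK_phase (hη1 n) (hη2 n) hwn] at h3
    set wn := ‖u ((rn n : ℂ) * pt ζ)‖ with hwn'
    have hwn0 : 0 ≤ wn := norm_nonneg _
    have hrn0 : 0 < 1 - rn n := by linarith [h2.2]
    have hwn1 : 0 < 1 - wn := by linarith
    have h4 : 1 / (C * (1 - rn n)) ≤ (1 + wn) / (1 - wn) := by
      rw [div_le_div_iff₀ (by positivity) hwn1]
      nlinarith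
    have h5 : (1 + rn n) * (1 - r) / ((1 - rn n) * (1 + r)) ≤ 2 * (1 - r) / (1 - rn n) := by
      have hr0 := hr.1
      rw [div_le_div_iff₀ (by positivity) hrn0]
      have h6 : (1 + rn n) ≤ 2 * (1 + r) := by linarith [h2.2]
      have h7 : 0 ≤ (1 - r) * (1 - rn n) := by positivity
      nlinarith
    have hQ := QK_nonneg (η := η n) hwd
    have h8 : 1 / (C * (1 - rn n)) ≤ 2 * (1 - r) / (1 - rn n) * QK (η n) (u ((r : ℂ) * pt ζ)) :=
      h4.trans (h3.trans (mul_le_mul_of_nonneg_right h5 hQ))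
    rw [div_le_iff₀ (by positivity)] at h8
    have e1 : 2 * (1 - r) / (1 - rn n) * QK (η n) (u ((r : ℂ) * pt ζ)) * (C * (1 - rn n)) =
        (2 * C) * ((1 - r) * QK (η n) (u ((r : ℂ) * pt ζ))) := by
      field_simp
    rw [e1] at h8
    rw [div_le_iff₀ (by positivity)]
    linarith
  have hev : ∀ᶠ n in atTop, r ≤ rn (ψ n) := by
    have h1 : Tendsto (fun n => rn (ψ n)) atTop (𝓝[<] 1) := hrn1.comp hψ.tendsto_atTop
    have h2 : Tendsto (fun n => rn (ψ n)) atTop (𝓝 1) := h1.mono_right nhdsWithin_le_nhds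
    exact (h2.eventually (lt_mem_nhds hr.2)).mono fun n hn => hn.le
  have hcont : Tendsto (fun n => (1 - r) * QK (η (ψ n)) (u ((r : ℂ) * pt ζ))) atTop
      (𝓝 ((1 - r) * QK η0 (u ((r : ℂ) * pt ζ)))) := by
    apply Tendsto.const_mul
    unfold QK
    apply Tendsto.div tendsto_const_nhds
    · exact ((hlim.sub_const _).norm).pow 2
    · have := norm_pos_iff.2 (sub_ne hη01 hwd)
      positivity
  exact ge_of_tendsto hcont (hev.mono fun n hn => key (ψ n) hn)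

/-- no point mass at a point where at most one coordinate has an angular derivative -/
lemma radial_small {f : (Fin d → ℂ) → ℂ} {h E : (Fin d → T) → ℝ} {s : ℝ} (o : OutD f h E s)
    {φ : ℂ → Fin d → ℂ} (hφ : DifferentiableOn ℂ φ disc) (hφm : ∀ z ∈ disc, φ z ∈ PD d)
    (hd : 0 < d) {ζ : T} (hnt : ¬ Touch φ ζ) {ε : ℝ} (hε : 0 < ε) :
    ∀ᶠ r : ℝ in 𝓝[<] 1, (1 - r) * (-Real.log ‖f (φ ((r : ℂ) * pt ζ))‖) ≤ ε := by
  classical
  -- the exceptional coordinate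
  obtain ⟨i, hi⟩ : ∃ i : Fin d, ∀ j, j ≠ i → ¬ AngDer φ j ζ := by
    by_cases h1 : ∃ i, AngDer φ i ζ
    · obtain ⟨i, hi⟩ := h1
      exact ⟨i, fun j hj hj2 => hnt ⟨j, i, hj, hj2, hi⟩⟩
    · push Not at h1
      exact ⟨⟨0, hd⟩, fun j _ => h1 j⟩
  have hφi : ∀ j, DifferentiableOn ℂ (fun z => φ z j) disc := fun j =>
    (differentiableOn_pi.1 hφ) j
  obtain ⟨c, hc0, hc1, hc⟩ := sp_lower (hφi i) (fun z hz => hφm z hz i)
  have hs0 := o.s0
  set I := ∫ ζ, E ζ ∂(mud d) with hI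
  have hI0 : 0 ≤ I := integral_nonneg o.E0
  obtain ⟨N, hN⟩ := tail_small o.hint (show 0 < ε * c / (32 * 8 ^ d) by positivity)
  set TN := ∫ ζ, max (|h ζ| - N) 0 ∂(mud d) with hTN
  have hTN0 : 0 ≤ TN := integral_nonneg fun ζ => le_max_right _ _
  set C' : ℝ := 1 + Real.log (1 + 8 / c * I) + d * Real.log (64 / 3) + s * N with hC'
  have hlog1 : 0 ≤ Real.log (1 + 8 / c * I) := by
    apply Real.log_nonneg
    have : 0 ≤ 8 / c * I := by positivity
    linarith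
  have hlog2 : 0 ≤ Real.log (64 / 3) := Real.log_nonneg (by norm_num)
  have hC'0 : 0 ≤ C' := by positivity
  obtain ⟨n, hn⟩ := exists_nat_gt ((2 * C' + 4) / (s * ε / 2))
  have hn0 : (0 : ℝ) < n := lt_of_le_of_lt (by positivity) hn
  have hn1 : (1 : ℝ) ≤ n := by
    have : 0 < n := by exact_mod_cast hn0
    exact_mod_cast this
  set A : ℝ := (n : ℝ) ^ 2 with hA
  have hA1 : 1 ≤ A := by rw [hA]; nlinarith
  have hA0 : 0 < A := by linarith
  set κ : ℝ := c / (4 * A) with hκ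
  have hκ0 : 0 < κ := by positivity
  have hκ1 : κ ≤ 1 / 4 := by
    rw [hκ, div_le_div_iff₀ (by positivity) (by norm_num)]
    nlinarith
  -- eventually the other coordinates are far
  have hev1 : ∀ᶠ r : ℝ in 𝓝[<] 1, ∀ j, j ≠ i →
      A * (1 - r) ≤ 1 - ‖φ ((r : ℂ) * pt ζ) j‖ := by
    rw [eventually_all]
    intro j
    by_cases hji : j = i
    · exact Eventually.of_forall fun r h => absurd hji h
    · have h1 := hi j hji
      unfold AngDer at h1
      push Not at h1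
      have h2 := h1 A
      filter_upwards [h2] with r hr _
      exact hr.le
  have hev2 : ∀ᶠ r : ℝ in 𝓝[<] 1, A * (1 - r) ≤ 1 := by
    have h1 : Tendsto (fun r : ℝ => A * (1 - r)) (𝓝 1) (𝓝 (A * (1 - 1))) :=
      (continuous_const.mul (continuous_const.sub continuous_id)).tendsto 1
    rw [sub_self, mul_zero] at h1
    exact ((h1.mono_left nhdsWithin_le_nhds).eventually (gt_mem_nhds one_pos)).mono
      fun r hr => hr.le
  filter_upwards [hev1, hev2, Ioo_mem_left] with r h1 h2 hr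
  have hr1 : 0 < 1 - r := by linarith [hr.2]
  set a := φ ((r : ℂ) * pt ζ) with ha
  have ham : a ∈ PD d := hφm _ (pt_mem hr ζ)
  have hci := hc r hr ζ
  have key := disc_ineq o ham i (m := A * (1 - r)) (κ := κ) (by positivity) h2 h1 hκ0 hκ1 (by
    rw [hκ]
    have : 4 * (c / (4 * A) * (A * (1 - r))) = c * (1 - r) := by field_simp
    rw [this]
    exact hci) N
  rw [← hI, ← hTN] at key
  have e2 : 2 / κ = 8 * A / c := by rw [hκ]; field_simp; ring
  rw [e2] at key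
  have hlogA : Real.log (1 + 8 * A / c * I) ≤ 2 * n + Real.log (1 + 8 / c * I) := by
    have h3 : 1 + 8 * A / c * I ≤ A * (1 + 8 / c * I) := by
      have : 8 * A / c * I = A * (8 / c * I) := by ring
      rw [this]; nlinarith
    have h4 : 0 < 1 + 8 / c * I := by positivity
    have h5 : Real.log (1 + 8 * A / c * I) ≤ Real.log (A * (1 + 8 / c * I)) :=
      Real.log_le_log (by positivity) h3
    rw [Real.log_mul hA0.ne' h4.ne'] at h5
    have h6 : Real.log A ≤ 2 * n := by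
      rw [hA, Real.log_pow]
      have := Real.log_le_self hn0.le
      push_cast
      linarith
    linarith
  have h7 : -(s * Real.log ‖f a‖) ≤ (2 / (A * (1 - r))) *
      (C' + 2 * n + s * (8 ^ d * (8 * A / c * TN))) := by
    refine key.trans ?_
    apply mul_le_mul_of_nonneg_left _ (by positivity)
    rw [hC']
    nlinarith
  have h8 : (1 - r) * -(s * Real.log ‖f a‖) ≤
      (2 / A) * (C' + 2 * n) + s * (16 * 8 ^ d / c * TN) := by
    have := mul_le_mul_of_nonneg_left h7 hr1.le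
    refine this.trans (le_of_eq ?_)
    field_simp
    ring
  have h9 : (2 / A) * (C' + 2 * n) ≤ s * ε / 2 := by
    have h10 : (2 / A) * (C' + 2 * n) ≤ (2 * C' + 4) / n := by
      rw [hA, div_mul_eq_mul_div, div_le_div_iff₀ (by positivity) hn0]
      have : C' * n ≤ C' * n ^ 2 := by
        apply mul_le_mul_of_nonneg_left _ hC'0
        nlinarith
      nlinarith
    refine h10.trans ?_
    rw [div_lt_iff₀ (by positivity)] at hn
    rw [div_le_iff₀ hn0]
    linarith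
  have h11 : s * (16 * 8 ^ d / c * TN) ≤ s * ε / 2 := by
    have h12 : 16 * 8 ^ d / c * TN ≤ 16 * 8 ^ d / c * (ε * c / (32 * 8 ^ d)) :=
      mul_le_mul_of_nonneg_left hN (by positivity)
    have e3 : (16 : ℝ) * 8 ^ d / c * (ε * c / (32 * 8 ^ d)) = ε / 2 := by
      field_simp; ring
    rw [e3] at h12
    nlinarith
  have h13 : s * ((1 - r) * -Real.log ‖f a‖) ≤ s * ε := by
    have : s * ((1 - r) * -Real.log ‖f a‖) = (1 - r) * -(s * Real.log ‖f a‖) := by ring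
    rw [this]; linarith
  exact le_of_mul_le_mul_left h13 hs0

end Pool.Agent.Helper34.Wc
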