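import Pool.Agent.Helper34.Wc.Radial

set_option autoImplicit false

open MeasureTheory Filter Topology Complex Metric Set AddCircle
open scoped Interval ComplexConjugate ENNReal

namespace Pool.Agent.Helper34.Wc

open Dg

variable {d : ℕ}

/-- an arc -/
def arc (ζ : T) (s : ℝ) : Set T := {t | ‖pt t - pt ζ‖ < s}

lemma arc_open (ζ : T) (s : ℝ) : IsOpen (arc ζ s) :=
  isOpen_lt (pt_cont.sub continuous_const).norm continuous_const

lemma arc_meas (ζ : T) (s : ℝ) : MeasurableSet (arc ζ s) := (arc_open ζ s).measurableSet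

lemma arc_nhds (ζ : T) {s : ℝ} (hs : 0 < s) : arc ζ s ∈ 𝓝 ζ := by
  apply (arc_open ζ s).mem_nhds
  show ‖pt ζ - pt ζ‖ < s
  simpa using hs

lemma arc_int {w : T → ℝ} (hw : Integrable w mu) (ζ : T) {s : ℝ} (hs0 : 0 < s) (hs1 : s < 1) :
    ∫ t in arc ζ s, |w t| ∂mu ≤
      4 * (s * ∫ t, pker (((1 - s : ℝ) : ℂ) * pt ζ) t * |w t| ∂mu) := by
  have hmem : ((1 - s : ℝ) : ℂ) * pt ζ ∈ disc := pt_mem ⟨by linarith, by linarith⟩ ζ
  have n1 : ‖((1 - s : ℝ) : ℂ) * pt ζ‖ = 1 - s := by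
    rw [norm_mul, pt_norm, mul_one, Complex.norm_real, Real.norm_of_nonneg (by linarith)]
  have i1 := pker_mul_int hmem hw.abs
  have h1 : ∫ t in arc ζ s, |w t| ∂mu ≤
      ∫ t in arc ζ s, 4 * s * (pker (((1 - s : ℝ) : ℂ) * pt ζ) t * |w t|) ∂mu := by
    apply setIntegral_mono_on hw.abs.integrableOn (i1.const_mul _).integrableOn (arc_meas ζ s)
    intro t ht
    have ht' : ‖pt t - pt ζ‖ < s := ht
    have h2 : ‖pt t - ((1 - s : ℝ) : ℂ) * pt ζ‖ ≤ 2 * s := by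
      have e2 : pt t - ((1 - s : ℝ) : ℂ) * pt ζ = (pt t - pt ζ) + (s : ℂ) * pt ζ := by
        push_cast; ring
      rw [e2]
      refine (norm_add_le _ _).trans ?_
      rw [norm_mul, pt_norm, mul_one, Complex.norm_real, Real.norm_of_nonneg hs0.le]
      linarith
    have h3 : s ≤ ‖pt t - ((1 - s : ℝ) : ℂ) * pt ζ‖ := by
      have := pt_sub_ge (z := ((1 - s : ℝ) : ℂ) * pt ζ) t
      rw [n1] at this
      linarith
    have h4 : 0 < ‖pt t - ((1 - s : ℝ) : ℂ) * pt ζ‖ := by linarith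
    have h5 : 1 ≤ 4 * s * pker (((1 - s : ℝ) : ℂ) * pt ζ) t := by
      rw [pker, n1, mul_div_assoc', le_div_iff₀ (by positivity)]
      have h6 : ‖pt t - ((1 - s : ℝ) : ℂ) * pt ζ‖ ^ 2 ≤ (2 * s) ^ 2 := pow_le_pow_left₀ h4.le h2 2
      have h8 : s ≤ 1 - (1 - s) ^ 2 := by nlinarith
      have h9 : 4 * s * s ≤ 4 * s * (1 - (1 - s) ^ 2) :=
        mul_le_mul_of_nonneg_left h8 (by positivity)
      nlinarith
    have h7 := abs_nonneg (w t)
    nlinarith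
  refine h1.trans ?_
  rw [integral_const_mul, mul_assoc]
  apply mul_le_mul_of_nonneg_left _ (by norm_num)
  apply mul_le_mul_of_nonneg_left _ hs0.le
  apply setIntegral_le_integral i1
  exact Eventually.of_forall fun t => mul_nonneg (pker_nonneg hmem t) (abs_nonneg _)

lemma cover_int {F : Finset T} {A : T → Set T} (hA : ∀ ζ, MeasurableSet (A ζ)) {S : Set T}
    (hSm : MeasurableSet S) (hS : ∀ t ∈ S, ∃ ζ ∈ F, t ∈ A ζ) {X : T → ℝ} (hX : Integrable X mu)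
    (hX0 : ∀ t, 0 ≤ X t) : ∫ t in S, X t ∂mu ≤ ∑ ζ ∈ F, ∫ t in A ζ, X t ∂mu := by
  classical
  have e1 : ∀ ζ ∈ F, ∫ t in A ζ, X t ∂mu = ∫ t, (A ζ).indicator X t ∂mu := fun ζ _ =>
    (integral_indicator (hA ζ)).symm
  rw [Finset.sum_congr rfl e1, ← integral_finsetSum _ (fun ζ _ => hX.indicator (hA ζ)),
    ← integral_indicator hSm]
  apply integral_mono (hX.indicator hSm) (integrable_finsetSum _ fun ζ _ => hX.indicator (hA ζ))
  intro t
  show S.indicator X t ≤ ∑ ζ ∈ F, (A ζ).indicator X t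
  have hnn : ∀ ζ ∈ F, 0 ≤ (A ζ).indicator X t := fun ζ _ => indicator_nonneg (fun t _ => hX0 t) t
  by_cases ht : t ∈ S
  · obtain ⟨ζ, hζ, hζt⟩ := hS t ht
    rw [indicator_of_mem ht]
    have h2 := Finset.single_le_sum hnn hζ
    rw [indicator_of_mem hζt] at h2
    exact h2
  · rw [indicator_of_notMem ht]
    exact Finset.sum_nonneg hnn

/-- the negation of `Bad` -/
lemma not_bad {φ : ℂ → Fin d → ℂ} {ζ : T} (h : ¬ Bad φ ζ) :
    ∃ ρ : ℝ, 0 ≤ ρ ∧ ρ < 1 ∧ ∃ ε : ℝ, 0 < ε ∧ ∀ z ∈ disc, ‖z - pt ζ‖ < ε →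
      ∀ j k, j ≠ k → ¬ (ρ < ‖φ z j‖ ∧ ρ < ‖φ z k‖) := by
  unfold Bad at h
  push Not at h
  obtain ⟨ρ, hρ, ε, hε, hh⟩ := h
  refine ⟨max ρ 0, le_max_right _ _, max_lt hρ one_pos, ε, hε, fun z hz hzz j k hjk hc => ?_⟩
  have h1 := hh z hz hzz j k hjk (lt_of_le_of_lt (le_max_left _ _) hc.1)
  have h2 := lt_of_le_of_lt (le_max_left ρ 0) hc.2
  linarith

lemma bad_closed (φ : ℂ → Fin d → ℂ) : IsClosed {ζ | Bad φ ζ} := by
  rw [← isOpen_compl_iff, isOpen_iff_mem_nhds]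
  intro ζ hζ
  have hζ' : ¬ Bad φ ζ := hζ
  obtain ⟨ρ, hρ0, hρ1, ε, hε, hh⟩ := not_bad hζ'
  filter_upwards [arc_nhds ζ (half_pos hε)] with ζ' hζ'
  have h1 : ‖pt ζ' - pt ζ‖ < ε / 2 := hζ'
  intro hbad
  have hbad' : Bad φ ζ' := hbad
  obtain ⟨z, hz, hzz, j, k, hjk, h2⟩ := hbad' ρ hρ1 (ε / 2) (half_pos hε)
  refine hh z hz ?_ j k hjk h2
  calc ‖z - pt ζ‖ = ‖(z - pt ζ') + (pt ζ' - pt ζ)‖ := by congr 1; ring
    _ ≤ ‖z - pt ζ'‖ + ‖pt ζ' - pt ζ‖ := norm_add_le _ _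
    _ < ε := by linarith

/-- uniform separation on a compact set of good points -/
lemma good_unif {φ : ℂ → Fin d → ℂ} {S : Set T} (hS : IsCompact S) (hg : ∀ ζ ∈ S, ¬ Bad φ ζ) :
    ∃ ρ : ℝ, 0 ≤ ρ ∧ ρ < 1 ∧ ∃ δ : ℝ, 0 < δ ∧ ∀ t ∈ S, ∀ r ∈ Ioo (0 : ℝ) 1, 1 - δ < r →
      ∀ j k, j ≠ k → ¬ (ρ < ‖φ ((r : ℂ) * pt t) j‖ ∧ ρ < ‖φ ((r : ℂ) * pt t) k‖) := by
  refine IsCompact.induction_on hS (p := fun S => ∃ ρ : ℝ, 0 ≤ ρ ∧ ρ < 1 ∧ ∃ δ : ℝ, 0 < δ ∧
    ∀ t ∈ S, ∀ r ∈ Ioo (0 : ℝ) 1, 1 - δ < r →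
      ∀ j k, j ≠ k → ¬ (ρ < ‖φ ((r : ℂ) * pt t) j‖ ∧ ρ < ‖φ ((r : ℂ) * pt t) k‖)) ?_ ?_ ?_ ?_
  · exact ⟨0, le_rfl, one_pos, 1, one_pos, fun t ht => absurd ht (notMem_empty t)⟩
  · rintro s t hst ⟨ρ, h0, h1, δ, hδ, hh⟩
    exact ⟨ρ, h0, h1, δ, hδ, fun x hx => hh x (hst hx)⟩
  · rintro s t ⟨ρ, h0, h1, δ, hδ, hh⟩ ⟨ρ', h0', h1', δ', hδ', hh'⟩
    refine ⟨max ρ ρ', le_max_of_le_left h0, max_lt h1 h1', min δ δ', lt_min hδ hδ', ?_⟩
    intro x hx r hr hr2 j k hjk hc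
    rcases hx with hx | hx
    · refine hh x hx r hr ?_ j k hjk ⟨lt_of_le_of_lt (le_max_left _ _) hc.1,
        lt_of_le_of_lt (le_max_left _ _) hc.2⟩
      have := min_le_left δ δ'
      linarith
    · refine hh' x hx r hr ?_ j k hjk ⟨lt_of_le_of_lt (le_max_right _ _) hc.1,
        lt_of_le_of_lt (le_max_right _ _) hc.2⟩
      have := min_le_right δ δ'
      linarith
  · intro ζ hζ
    obtain ⟨ρ, hρ0, hρ1, ε, hε, hh⟩ := not_bad (hg ζ hζ)
    refine ⟨arc ζ (ε / 2), mem_nhdsWithin_of_mem_nhds (arc_nhds ζ (half_pos hε)), ρ, hρ0, hρ1,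
      ε / 2, half_pos hε, fun t ht r hr hr2 j k hjk => hh _ (pt_mem hr t) ?_ j k hjk⟩
    have h1 : ‖pt t - pt ζ‖ < ε / 2 := ht
    have e1 : (r : ℂ) * pt t - pt ζ = (pt t - pt ζ) + ((r - 1 : ℝ) : ℂ) * pt t := by
      push_cast; ring
    rw [e1]
    calc ‖(pt t - pt ζ) + ((r - 1 : ℝ) : ℂ) * pt t‖
        ≤ ‖pt t - pt ζ‖ + ‖((r - 1 : ℝ) : ℂ) * pt t‖ := norm_add_le _ _
      _ < ε := by
          rw [norm_mul, pt_norm, mul_one, Complex.norm_real, Real.norm_eq_abs, abs_sub_comm,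
            abs_of_pos (by linarith [hr.2])]
          linarith

/-- at a good point exactly one coordinate can be large -/
lemma exists_big {a : Fin d → ℂ} (hd : 0 < d) {ρ : ℝ}
    (h : ∀ j k, j ≠ k → ¬ (ρ < ‖a j‖ ∧ ρ < ‖a k‖)) : ∃ i, ∀ j, j ≠ i → ‖a j‖ ≤ ρ := by
  by_cases h1 : ∃ i, ρ < ‖a i‖
  · obtain ⟨i, hi⟩ := h1
    refine ⟨i, fun j hj => ?_⟩
    by_contra hc
    push Not at hc
    exact h j i hj ⟨hc, hi⟩
  · push Not at h1
    exact ⟨⟨0, hd⟩, fun j _ => h1 j⟩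

/-- the sufficiency theorem -/
theorem suff {p q : ℝ≥0∞} (hd : 0 < d) (hp : p ≠ 0) (hq : q ≠ 0) {ψ : ℂ → ℂ}
    (hψ : IsOuter1 q ψ) {φ : ℂ → Fin d → ℂ} (hφ : DifferentiableOn ℂ φ disc)
    (hφm : ∀ z ∈ disc, φ z ∈ PD d) (hc : {ζ | Bad φ ζ}.Countable)
    (hnt : ∀ ζ, ¬ Touch φ ζ) {f : (Fin d → ℂ) → ℂ} (hf : IsOuter p f)
    (hF : MemH1 q (fun z => ψ z * f (φ z))) : IsOuter1 q (fun z => ψ z * f (φ z)) := by
  classical
  obtain ⟨hψm, gψ, hgψ, hkψ, hψrep⟩ := hψ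
  obtain ⟨h, E, s, o⟩ := hf.data hp
  set F : ℂ → ℂ := fun z => ψ z * f (φ z) with hFdef
  have hFn : ∀ z ∈ disc, ‖F z‖ = Real.exp ((∫ t, pker z t * Real.log ‖gψ t‖ ∂mu) +
      ∫ ζ, PK (φ z) ζ * h ζ ∂(mud d)) := by
    intro z hz
    rw [hFdef, norm_mul, hψrep z hz, o.rep _ (hφm z hz), Real.exp_add]
  have hF0 : ∀ z ∈ disc, F z ≠ 0 := by
    intro z hz h0
    have := hFn z hz
    rw [h0, norm_zero] at this
    exact absurd this.symm (Real.exp_ne_zero _)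
  obtain ⟨L, w, g, D⟩ := structF hq hF hF0
  refine ⟨hF, g, D.lim, D.gint, D.outer ?_⟩
  have hLre : ∀ z ∈ disc, (L z).re = (∫ t, pker z t * Real.log ‖gψ t‖ ∂mu) +
      ∫ ζ, PK (φ z) ζ * h ζ ∂(mud d) := by
    intro z hz
    have h1 := D.norm z hz
    rw [hFn z hz] at h1
    exact (Real.exp_injective h1).symm
  -- the positive harmonic function V
  obtain ⟨Hw, hHw, hHwe⟩ := herg D.wint
  have hHw0 : ∀ z ∈ disc, 0 ≤ (Hw z).re := by
    intro z hz
    rw [hHwe z hz]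
    exact integral_nonneg fun t => mul_nonneg (pker_nonneg hz t) (D.w0 t)
  set V : ℂ → ℂ := fun z => Hw z - L z with hV
  have hVd : DifferentiableOn ℂ V disc := hHw.sub D.diff
  have hV0 : ∀ z ∈ disc, 0 ≤ (V z).re := by
    intro z hz
    rw [hV, Complex.sub_re, hHwe z hz]
    linarith [D.maj z hz]
  have hVL : ∀ z ∈ disc, -(L z).re ≤ (V z).re := by
    intro z hz
    rw [hV, Complex.sub_re]
    linarith [hHw0 z hz]
  have hVr : ∀ ζ : T, ∀ ε > (0 : ℝ), ∀ᶠ r : ℝ in 𝓝[<] 1,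
      (1 - r) * (V ((r : ℂ) * pt ζ)).re ≤ ε := by
    intro ζ ε hε
    filter_upwards [no_atom D.wint ζ (show 0 < ε / 3 by positivity),
      no_atom hkψ ζ (show 0 < ε / 3 by positivity),
      radial_small o hφ hφm hd (hnt ζ) (show 0 < ε / 3 by positivity), Ioo_mem_left]
      with r h1 h2 h3 hr
    have hz := pt_mem hr ζ
    have hr1 : 0 < 1 - r := by linarith [hr.2]
    rw [hV, Complex.sub_re, hHwe _ hz, hLre _ hz]
    have h4 : ∫ t, pker ((r : ℂ) * pt ζ) t * w t ∂mu ≤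
        ∫ t, pker ((r : ℂ) * pt ζ) t * |w t| ∂mu := (le_abs_self _).trans (abs_pint hz)
    have h5 : -∫ t, pker ((r : ℂ) * pt ζ) t * Real.log ‖gψ t‖ ∂mu ≤
        ∫ t, pker ((r : ℂ) * pt ζ) t * |Real.log ‖gψ t‖| ∂mu := (neg_le_abs _).trans (abs_pint hz)
    rw [o.rep _ (hφm _ hz), Real.log_exp] at h3
    nlinarith
  -- enough: up to 3 ε
  apply le_of_forall_pos_le_add
  intro ε3 hε3
  set ε : ℝ := ε3 / 3 with hεdef
  have hε : 0 < ε := by positivity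
  obtain ⟨ε', hε'0, hε's⟩ := hc.exists_pos_forall_sum_le hε
  -- the radii of the arcs
  have hrad : ∀ ζ : T, ∃ s : ℝ, 0 < s ∧ s < 1 ∧
      8 * s * (V (((1 - s : ℝ) : ℂ) * pt ζ)).re ≤ ε' ζ ∧
      ∫ t in arc ζ s, |Real.log ‖g t‖| ∂mu ≤ ε' ζ := by
    intro ζ
    have h1 := hVr ζ (ε' ζ / 8) (by have := hε'0 ζ; positivity)
    have h2 := no_atom D.gint ζ (show 0 < ε' ζ / 4 by have := hε'0 ζ; positivity)
    obtain ⟨r, ⟨h3, h4⟩, h5⟩ := ((h1.and h2).and Ioo_mem_left).exists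
    refine ⟨1 - r, by linarith [h5.2], by linarith [h5.1], ?_, ?_⟩
    · rw [sub_sub_cancel]; linarith
    · refine (arc_int D.gint ζ (by linarith [h5.2]) (by linarith [h5.1])).trans ?_
      rw [sub_sub_cancel]
      linarith
  choose σ hσ0 hσ1 hσV hσg using hrad
  have hcomp : IsCompact {ζ | Bad φ ζ} := (bad_closed φ).isCompact
  obtain ⟨Fs, hFs1, hFs2⟩ := hcomp.elim_nhds_subcover (fun ζ => arc ζ (σ ζ))
    (fun ζ _ => arc_nhds ζ (hσ0 ζ))
  have hsum : ∑ ζ ∈ Fs, ε' ζ ≤ ε := hε's Fs (fun ζ hζ => hFs1 ζ hζ)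
  set U : Set T := ⋃ ζ ∈ Fs, arc ζ (σ ζ) with hU
  have hUo : IsOpen U := isOpen_biUnion fun ζ _ => arc_open ζ (σ ζ)
  have hUm : MeasurableSet U := hUo.measurableSet
  set K : Set T := Uᶜ with hK
  have hKm : MeasurableSet K := hUm.compl
  have hKc : IsCompact K := hUo.isClosed_compl.isCompact
  have hUcov : ∀ t ∈ U, ∃ ζ ∈ Fs, t ∈ arc ζ (σ ζ) := by
    intro t ht
    simpa [hU] using ht
  obtain ⟨ρ, hρ0, hρ1, δ, hδ, hgood⟩ := good_unif hKc (fun ζ hζ hb => hζ (hFs2 hb))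
  set Kc : ℝ := (2 / (1 - ρ)) ^ d with hKcdef
  have hKc0 : 0 < Kc := by
    have : 0 < 2 / (1 - ρ) := by apply div_pos two_pos; linarith
    positivity
  -- the truncation level
  have h0d : (0 : ℂ) ∈ disc := by simp
  set Q : ℝ := ∑ j : Fin d, 2 / (1 - ‖φ 0 j‖) with hQ
  have hφ0 : ∀ j, ‖φ 0 j‖ < 1 := fun j => hφm 0 h0d j
  have hQ0 : 0 ≤ Q := Finset.sum_nonneg fun j _ => by
    apply div_nonneg two_pos.le; linarith [hφ0 j]
  obtain ⟨N1, hN1⟩ := tail_small hkψ (show 0 < ε / 2 by positivity)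
  obtain ⟨N2, hN2⟩ := tail_small o.hint (show 0 < ε / (2 * (Kc * Q + 1)) by positivity)
  set a1 : T → ℝ := fun t => max (|Real.log ‖gψ t‖| - N1) 0 with ha1
  set a2 : (Fin d → T) → ℝ := fun ζ => max (|h ζ| - N2) 0 with ha2
  have ia1 : Integrable a1 mu := tail_int hkψ N1
  have ia2 : Integrable a2 (mud d) := tail_int o.hint N2
  have ha10 : ∀ t, 0 ≤ a1 t := fun t => le_max_right _ _
  have ha20 : ∀ t, 0 ≤ a2 t := fun t => le_max_right _ _
  obtain ⟨H1, hH1, hH1e⟩ := herg ia1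
  choose Hj hHj hHje using fun j : Fin d =>
    hergG ia2 ((measurable_pi_apply j).aemeasurable (μ := mud d))
  have hφj : ∀ j, DifferentiableOn ℂ (fun z => φ z j) disc := fun j =>
    (differentiableOn_pi.1 hφ) j
  have hφjm : ∀ j, ∀ z ∈ disc, φ z j ∈ disc := fun j z hz => md.2 (hφm z hz j)
  set R : ℂ → ℂ := fun z => H1 z + (Kc : ℂ) * ∑ j, Hj j (φ z j) with hR
  have hRd : DifferentiableOn ℂ R disc := by
    refine hH1.add (DifferentiableOn.const_mul ?_ _)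
    exact DifferentiableOn.fun_sum fun j _ => (hHj j).comp (hφj j) (hφjm j)
  have hRe : ∀ z ∈ disc, (R z).re = (∫ t, pker z t * a1 t ∂mu) +
      Kc * ∑ j, ∫ ζ, pker (φ z j) (ζ j) * a2 ζ ∂(mud d) := by
    intro z hz
    rw [hR]
    simp only [Complex.add_re, Complex.re_ofReal_mul, Complex.re_sum]
    rw [hH1e z hz]
    congr 2
    apply Finset.sum_congr rfl
    intro j _
    exact hHje j _ (hφjm j z hz)
  have hterm0 : ∀ z ∈ disc, ∀ j, 0 ≤ ∫ ζ, pker (φ z j) (ζ j) * a2 ζ ∂(mud d) := fun z hz j =>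
    integral_nonneg fun ζ => mul_nonneg (pker_nonneg (hφjm j z hz) _) (ha20 ζ)
  have hR0 : ∀ z ∈ disc, 0 ≤ (R z).re := by
    intro z hz
    rw [hRe z hz]
    apply add_nonneg
    · exact integral_nonneg fun t => mul_nonneg (pker_nonneg hz t) (ha10 t)
    · exact mul_nonneg hKc0.le (Finset.sum_nonneg fun j _ => hterm0 z hz j)
  have hR00 : (R 0).re ≤ ε := by
    rw [hRe 0 h0d]
    simp_rw [pker_zero, one_mul]
    have h1 : ∑ j, ∫ ζ, pker (φ 0 j) (ζ j) * a2 ζ ∂(mud d) ≤ Q * ∫ ζ, a2 ζ ∂(mud d) := by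
      rw [hQ, Finset.sum_mul]
      apply Finset.sum_le_sum
      intro j _
      rw [← integral_const_mul]
      apply integral_mono (pker_coord_int (hφjm j 0 h0d) j ia2) (ia2.const_mul _)
      intro ζ
      exact mul_le_mul_of_nonneg_right (pker_le (hφjm j 0 h0d) _) (ha20 ζ)
    have h2 : Kc * (Q * ∫ ζ, a2 ζ ∂(mud d)) ≤ ε / 2 := by
      have h3 : Kc * (Q * ∫ ζ, a2 ζ ∂(mud d)) ≤ (Kc * Q) * (ε / (2 * (Kc * Q + 1))) := by
        rw [mul_assoc]
        exact mul_le_mul_of_nonneg_left (mul_le_mul_of_nonneg_left hN2 hQ0) hKc0.le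
      refine h3.trans ?_
      have h4 : 0 ≤ Kc * Q := by positivity
      rw [mul_div_assoc', div_le_div_iff₀ (by positivity) two_pos]
      nlinarith
    have h5 : Kc * ∑ j, ∫ ζ, pker (φ 0 j) (ζ j) * a2 ζ ∂(mud d) ≤
        Kc * (Q * ∫ ζ, a2 ζ ∂(mud d)) := mul_le_mul_of_nonneg_left h1 hKc0.le
    linarith
  -- domination over K
  have hdom : ∀ t ∈ K, ∀ r ∈ Ioo (0 : ℝ) 1, 1 - δ < r →
      -(L ((r : ℂ) * pt t)).re ≤ (N1 + N2 : ℝ) + (R ((r : ℂ) * pt t)).re := by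
    intro t ht r hr hr2
    have hz := pt_mem hr t
    obtain ⟨i, hi⟩ := exists_big hd (hgood t ht r hr hr2)
    have h1 := log_bound (hφm _ hz) i hρ0 hρ1 hi o.hint N2
    have h2 : |∫ t', pker ((r : ℂ) * pt t) t' * Real.log ‖gψ t'‖ ∂mu| ≤
        N1 + ∫ t', pker ((r : ℂ) * pt t) t' * a1 t' ∂mu := by
      refine (abs_pint hz).trans ?_
      have h3 : ∫ t', pker ((r : ℂ) * pt t) t' * |Real.log ‖gψ t'‖| ∂mu ≤
          ∫ t', (pker ((r : ℂ) * pt t) t' * (N1 : ℝ) + pker ((r : ℂ) * pt t) t' * a1 t') ∂mu := by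
        apply integral_mono (pker_mul_int hz hkψ.abs)
          ((pker_mul_int hz (integrable_const _)).add (pker_mul_int hz ia1))
        intro t'
        show pker ((r : ℂ) * pt t) t' * |Real.log ‖gψ t'‖| ≤
          pker ((r : ℂ) * pt t) t' * (N1 : ℝ) + pker ((r : ℂ) * pt t) t' * a1 t'
        rw [← mul_add]
        exact mul_le_mul_of_nonneg_left tail_split (pker_nonneg hz t')
      refine h3.trans (le_of_eq ?_)
      rw [integral_add (pker_mul_int hz (integrable_const _)) (pker_mul_int hz ia1),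
        integral_mul_const, int_pker hz, one_mul]
    rw [hLre _ hz, hRe _ hz]
    have h4 : ∫ ζ, pker (φ ((r : ℂ) * pt t) i) (ζ i) * a2 ζ ∂(mud d) ≤
        ∑ j, ∫ ζ, pker (φ ((r : ℂ) * pt t) j) (ζ j) * a2 ζ ∂(mud d) :=
      Finset.single_le_sum (f := fun j => ∫ ζ, pker (φ ((r : ℂ) * pt t) j) (ζ j) * a2 ζ ∂(mud d))
        (fun j _ => hterm0 _ hz j) (Finset.mem_univ i)
    have h5 := mul_le_mul_of_nonneg_left h4 hKc0.le
    have h6 := (neg_le_abs _).trans h1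
    have h7 := (neg_le_abs _).trans h2
    rw [← hKcdef] at h6
    linarith
  -- Fatou on K
  set NN : ℝ := (N1 + N2 : ℝ) with hNN
  have hXi : ∀ n, Integrable (fun t : T => max (NN + (L (rad n * pt t)).re) 0)
      (mu.restrict K) := by
    intro n
    have h1 : Continuous (fun t : T => max (NN + (L (rad n * pt t)).re) 0) :=
      (continuous_const.add (circ_cont_re D.diff (rad_mem n))).max continuous_const
    exact (cont_intR h1).restrict
  have hXlim : ∀ᵐ t ∂(mu.restrict K), Tendsto (fun n => max (NN + (L (rad n * pt t)).re) 0)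
      atTop (𝓝 (max (NN + Real.log ‖g t‖) 0)) := by
    apply ae_restrict_of_ae
    filter_upwards [D.lim] with t ht
    have h1 : Tendsto (fun n => ‖F (rad n * pt t)‖) atTop (𝓝 ‖g t‖) :=
      (ht.2.comp rad_tendsto).norm
    have h2 : ∀ n, (L (rad n * pt t)).re = Real.log ‖F (rad n * pt t)‖ := by
      intro n
      rw [D.norm _ (pt_mem (rad_mem n) t), Real.log_exp]
    simp_rw [h2]
    exact (((Real.continuousAt_log (norm_ne_zero_iff.2 ht.1)).tendsto.comp h1).const_add NN).max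
      tendsto_const_nhds
  have hev1 : ∀ᶠ n in atTop, 1 - δ < rad n := by
    have h1 : Tendsto rad atTop (𝓝 1) := rad_tendsto.mono_right nhdsWithin_le_nhds
    exact h1.eventually (lt_mem_nhds (by linarith))
  have hev2 : ∀ᶠ n in atTop, ∀ ζ ∈ Fs, 1 - σ ζ ≤ rad n * (1 - σ ζ / 2) := by
    rw [Finset.eventually_all]
    intro ζ _
    have h1 : Tendsto rad atTop (𝓝 1) := rad_tendsto.mono_right nhdsWithin_le_nhds
    have h2 := h1.mul_const (1 - σ ζ / 2)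
    rw [one_mul] at h2
    have := hσ0 ζ
    exact (h2.eventually (lt_mem_nhds (show 1 - σ ζ < 1 - σ ζ / 2 by linarith))).mono
      fun n hn => hn.le
  have hXint : ∀ᶠ n in atTop, ∫ t in K, max (NN + (L (rad n * pt t)).re) 0 ∂mu ≤
      NN * (mu K).toReal + (L 0).re + 2 * ε := by
    filter_upwards [hev1, hev2] with n hn1 hn2
    have hrn := rad_mem n
    have cL := cont_intR (circ_cont_re D.diff hrn)
    have cV := cont_intR (circ_cont_re hVd hrn)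
    have cR := cont_intR (circ_cont_re hRd hrn)
    have i1 : IntegrableOn (fun t : T => NN + (L (rad n * pt t)).re + (R (rad n * pt t)).re)
        K mu := (((integrable_const NN).add cL).add cR).integrableOn
    have h1 : ∫ t in K, max (NN + (L (rad n * pt t)).re) 0 ∂mu ≤
        ∫ t in K, (NN + (L (rad n * pt t)).re + (R (rad n * pt t)).re) ∂mu := by
      apply setIntegral_mono_on (hXi n) i1 hKm
      intro t ht
      have h2 := hdom t ht _ hrn hn1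
      have h3 := hR0 _ (pt_mem hrn t)
      apply max_le <;> linarith
    have h4 : ∫ t in K, (NN + (L (rad n * pt t)).re + (R (rad n * pt t)).re) ∂mu =
        NN * (mu K).toReal + (∫ t in K, (L (rad n * pt t)).re ∂mu) +
          ∫ t in K, (R (rad n * pt t)).re ∂mu := by
      have j1 : IntegrableOn (fun _ : T => NN) K mu := (integrable_const NN).integrableOn
      have j2 : IntegrableOn (fun t : T => (L (rad n * pt t)).re) K mu := cL.integrableOn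
      have j3 : IntegrableOn (fun t : T => (R (rad n * pt t)).re) K mu := cR.integrableOn
      have j12 : IntegrableOn (fun t : T => NN + (L (rad n * pt t)).re) K mu := j1.add j2
      rw [integral_add j12 j3, integral_add j1 j2, setIntegral_const, smul_eq_mul,
        mul_comm (mu.real K)]
      rfl
    have h5 : ∫ t in K, (R (rad n * pt t)).re ∂mu ≤ (R 0).re := by
      rw [mean0 hRd hrn]
      exact setIntegral_le_integral cR (Eventually.of_forall fun t => hR0 _ (pt_mem hrn t))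
    have h6 : (∫ t in K, (L (rad n * pt t)).re ∂mu) + ∫ t in U, (L (rad n * pt t)).re ∂mu =
        (L 0).re := by
      rw [mean0 D.diff hrn, add_comm]
      exact integral_add_compl hUm cL
    have h7 : -∫ t in U, (L (rad n * pt t)).re ∂mu ≤ ε := by
      rw [← integral_neg]
      calc ∫ t in U, -(L (rad n * pt t)).re ∂mu ≤ ∫ t in U, (V (rad n * pt t)).re ∂mu := by
            apply setIntegral_mono_on cL.neg.integrableOn cV.integrableOn hUm
            intro t _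
            exact hVL _ (pt_mem hrn t)
        _ ≤ ∑ ζ ∈ Fs, ∫ t in arc ζ (σ ζ), (V (rad n * pt t)).re ∂mu :=
            cover_int (fun ζ => arc_meas ζ (σ ζ)) hUm hUcov cV
              (fun t => hV0 _ (pt_mem hrn t))
        _ ≤ ∑ ζ ∈ Fs, ε' ζ := by
            apply Finset.sum_le_sum
            intro ζ hζ
            exact (arc_mass hVd hV0 (hσ0 ζ) (hσ1 ζ) hrn (hn2 ζ hζ) ζ).trans (hσV ζ)
        _ ≤ ε := hsum
    linarith
  obtain ⟨f1, -, f3⟩ := fatouR' hXi (fun n => Eventually.of_forall fun t => le_max_right _ _)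
    hXlim tendsto_const_nhds hXint
  have h8 : ∫ t in K, (NN + Real.log ‖g t‖) ∂mu ≤ NN * (mu K).toReal + (L 0).re + 2 * ε := by
    refine le_trans ?_ f3
    apply integral_mono _ f1 (fun t => le_max_left _ _)
    exact ((integrable_const NN).add D.gint).restrict
  have h9 : ∫ t in K, (NN + Real.log ‖g t‖) ∂mu =
      NN * (mu K).toReal + ∫ t in K, Real.log ‖g t‖ ∂mu := by
    have j1 : IntegrableOn (fun _ : T => NN) K mu := (integrable_const NN).integrableOn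
    rw [integral_add j1 D.gint.integrableOn, setIntegral_const, smul_eq_mul, mul_comm (mu.real K)]
    rfl
  have h10 : ∫ t in U, Real.log ‖g t‖ ∂mu ≤ ε := by
    calc ∫ t in U, Real.log ‖g t‖ ∂mu ≤ ∫ t in U, |Real.log ‖g t‖| ∂mu := by
          apply setIntegral_mono_on D.gint.integrableOn D.gint.abs.integrableOn hUm
          intro t _; exact le_abs_self _
      _ ≤ ∑ ζ ∈ Fs, ∫ t in arc ζ (σ ζ), |Real.log ‖g t‖| ∂mu :=
          cover_int (fun ζ => arc_meas ζ (σ ζ)) hUm hUcov D.gint.abs (fun t => abs_nonneg _)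
      _ ≤ ∑ ζ ∈ Fs, ε' ζ := Finset.sum_le_sum fun ζ _ => hσg ζ
      _ ≤ ε := hsum
  have h11 : (∫ t in U, Real.log ‖g t‖ ∂mu) + ∫ t in K, Real.log ‖g t‖ ∂mu =
      ∫ t, Real.log ‖g t‖ ∂mu := integral_add_compl hUm D.gint
  have h12 : ε3 = 3 * ε := by rw [hεdef]; ring
  linarith

end Pool.Agent.Helper34.Wc
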